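import Pool.Agent.R965.CS.Det2

/-!
Barriers: a path cannot leave a rectangle whose four sides are blocked by crossings of the other
kind.
-/

set_option autoImplicit false
set_option linter.unusedVariables false

namespace Pool.Agent.K9h27.PK

open H974 Finset H342P H984P H984N Pool.Agent.Y995.FS Pool.Agent.R965.CS

/-- edges inside of the box of vertices `[P, Q] × [C, D]` -/
def InB (P Q C D : ℤ) : Set Edg := {e | (P ≤ (src e).1 ∧ (src e).1 ≤ Q ∧ C ≤ (src e).2 ∧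
  (src e).2 ≤ D) ∧ (P ≤ (tgt e).1 ∧ (tgt e).1 ≤ Q ∧ C ≤ (tgt e).2 ∧ (tgt e).2 ≤ D)}

theorem inB_true {P Q C D x y : ℤ} : ((x, y, true) : Edg) ∈ InB P Q C D ↔
    P ≤ x ∧ x < Q ∧ C ≤ y ∧ y ≤ D := by
  unfold InB
  simp only [Set.mem_ofPred_eq, src_mk, tgt_true]
  omega

theorem inB_false {P Q C D x y : ℤ} : ((x, y, false) : Edg) ∈ InB P Q C D ↔
    P ≤ x ∧ x ≤ Q ∧ C ≤ y ∧ y < D := by
  unfold InB
  simp only [Set.mem_ofPred_eq, src_mk, tgt_false]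
  omega

/-- The four ways to leave a box. -/
theorem exit_box {G : Set Edg} {P Q C D : ℤ} {u w : Vtx}
    (hu : P ≤ u.1 ∧ u.1 ≤ Q ∧ C ≤ u.2 ∧ u.2 ≤ D) (h : Reach G u w)
    (hw : ¬ (P ≤ w.1 ∧ w.1 ≤ Q ∧ C ≤ w.2 ∧ w.2 ≤ D)) :
    (∃ y, Reach (G ∩ (InB P Q C D ∪ {e | ∃ y, (C ≤ y ∧ y ≤ D) ∧ e = (P - 1, y, true)})) u
      (P - 1, y)) ∨
    (∃ y, Reach (G ∩ (InB P Q C D ∪ {e | ∃ y, (C ≤ y ∧ y ≤ D) ∧ e = (Q, y, true)})) u
      (Q + 1, y)) ∨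
    (∃ x, Reach (G ∩ (InB P Q C D ∪ {e | ∃ x, (P ≤ x ∧ x ≤ Q) ∧ e = (x, C - 1, false)})) u
      (x, C - 1)) ∨
    (∃ x, Reach (G ∩ (InB P Q C D ∪ {e | ∃ x, (P ≤ x ∧ x ≤ Q) ∧ e = (x, D, false)})) u
      (x, D + 1)) := by
  have key : ∀ w, Reach G u w → ((P ≤ w.1 ∧ w.1 ≤ Q ∧ C ≤ w.2 ∧ w.2 ≤ D) ∧
      Reach (G ∩ InB P Q C D) u w) ∨ ((∃ y, Reach (G ∩ (InB P Q C D ∪
      {e | ∃ y, (C ≤ y ∧ y ≤ D) ∧ e = (P - 1, y, true)})) u (P - 1, y)) ∨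
    (∃ y, Reach (G ∩ (InB P Q C D ∪ {e | ∃ y, (C ≤ y ∧ y ≤ D) ∧ e = (Q, y, true)})) u
      (Q + 1, y)) ∨
    (∃ x, Reach (G ∩ (InB P Q C D ∪ {e | ∃ x, (P ≤ x ∧ x ≤ Q) ∧ e = (x, C - 1, false)})) u
      (x, C - 1)) ∨
    (∃ x, Reach (G ∩ (InB P Q C D ∪ {e | ∃ x, (P ≤ x ∧ x ≤ Q) ∧ e = (x, D, false)})) u
      (x, D + 1))) := by
    intro w hw
    induction hw with
    | refl => exact Or.inl ⟨hu, Reach.refl _ _⟩
    | @tail w w' hw hs ih =>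
      rcases ih with ⟨ih1, ih2⟩ | ih
      · by_cases hin : P ≤ w'.1 ∧ w'.1 ≤ Q ∧ C ≤ w'.2 ∧ w'.2 ≤ D
        · left
          refine ⟨hin, ih2.trans (Adj.reach ?_)⟩
          obtain ⟨e, he, hc⟩ := hs
          refine ⟨e, ⟨he, ?_⟩, hc⟩
          rcases hc with ⟨h1, h2⟩ | ⟨h1, h2⟩
          · exact ⟨by rw [h1]; exact ih1, by rw [h2]; exact hin⟩
          · exact ⟨by rw [h1]; exact hin, by rw [h2]; exact ih1⟩
        · right
          have mono : ∀ T : Set Edg, Reach (G ∩ (InB P Q C D ∪ T)) u w := fun T => ih2.mono (by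
            rintro e ⟨h1, h2⟩; exact ⟨h1, Or.inl h2⟩)
          obtain ⟨e, he, hc⟩ := hs
          obtain ⟨w1, w2⟩ := w
          obtain ⟨z1, z2⟩ := w'
          obtain ⟨x, y, _ | _⟩ := e
          · -- vertical
            simp only [src_mk, tgt_false, Prod.mk.injEq] at hc
            simp only at ih1 hin
            rcases hc with ⟨⟨h1, h2⟩, h3, h4⟩ | ⟨⟨h1, h2⟩, h3, h4⟩
            · right; right; right
              have e1 : y = D := by omega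
              refine ⟨x, (mono _).trans (Adj.reach ⟨(x, y, false), ⟨he, Or.inr ⟨x, by omega, by
                rw [e1]⟩⟩, ?_⟩)⟩
              exact Or.inl ⟨by rw [src_mk, h1, h2], by rw [tgt_false, e1]⟩
            · right; right; left
              have e1 : y = C - 1 := by omega
              refine ⟨x, (mono _).trans (Adj.reach ⟨(x, y, false), ⟨he, Or.inr ⟨x, by omega, by
                rw [e1]⟩⟩, ?_⟩)⟩
              exact Or.inr ⟨by rw [src_mk, e1], by rw [tgt_false, h3, h4]⟩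
          · simp only [src_mk, tgt_true, Prod.mk.injEq] at hc
            simp only at ih1 hin
            rcases hc with ⟨⟨h1, h2⟩, h3, h4⟩ | ⟨⟨h1, h2⟩, h3, h4⟩
            · right; left
              have e1 : x = Q := by omega
              refine ⟨y, (mono _).trans (Adj.reach ⟨(x, y, true), ⟨he, Or.inr ⟨y, by omega, by
                rw [e1]⟩⟩, ?_⟩)⟩
              exact Or.inl ⟨by rw [src_mk, h1, h2], by rw [tgt_true, e1]⟩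
            · left
              have e1 : x = P - 1 := by omega
              refine ⟨y, (mono _).trans (Adj.reach ⟨(x, y, true), ⟨he, Or.inr ⟨y, by omega, by
                rw [e1]⟩⟩, ?_⟩)⟩
              exact Or.inr ⟨by rw [src_mk, e1], by rw [tgt_true, h3, h4]⟩
      · exact Or.inr ih
  rcases key w h with h1 | h1
  · exact absurd h1.1 hw
  · exact h1

/-- Closed dual crossings of the four sides block open paths. -/
theorem bar_up {F : Set Edg} {p1 p2 p3 p4 c1 c2 d1 d2 : ℤ} (hp : p1 ≤ p2 ∧ p2 < p3 ∧ p3 ≤ p4)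
    (hc : c1 ≤ c2 ∧ c2 < d1 ∧ d1 ≤ d2)
    (hL : ∃ x1 x2 : ℤ, (p1 ≤ x1 ∧ x1 ≤ p2) ∧ (p1 ≤ x2 ∧ x2 ≤ p2) ∧
      DReach (dE (TBE p1 p2 c1 d2) \ F) (x1, c1) (x2, d2))
    (hR : ∃ x1 x2 : ℤ, (p3 ≤ x1 ∧ x1 ≤ p4) ∧ (p3 ≤ x2 ∧ x2 ≤ p4) ∧
      DReach (dE (TBE p3 p4 c1 d2) \ F) (x1, c1) (x2, d2))
    (hT : ∃ y1 y2 : ℤ, (d1 ≤ y1 ∧ y1 ≤ d2) ∧ (d1 ≤ y2 ∧ y2 ≤ d2) ∧
      DReach (dE (LRE p1 p4 d1 d2) \ F) (p1, y1) (p4, y2))
    (hB : ∃ y1 y2 : ℤ, (c1 ≤ y1 ∧ y1 ≤ c2) ∧ (c1 ≤ y2 ∧ y2 ≤ c2) ∧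
      DReach (dE (LRE p1 p4 c1 c2) \ F) (p1, y1) (p4, y2))
    {u w : Vtx} (hu : (p2 < u.1 ∧ u.1 ≤ p3) ∧ (c2 < u.2 ∧ u.2 ≤ d1))
    (hw : ¬ ((p1 < w.1 ∧ w.1 ≤ p4) ∧ (c1 < w.2 ∧ w.2 ≤ d2))) (h : Reach F u w) : False := by
  have h1 := exit_box (P := p1 + 1) (Q := p4) (C := c1 + 1) (D := d2) (by omega) h (by omega)
  -- crossings of vertical strips
  have LRc' : ∀ (a b : ℤ) (ha : a ≤ b) (hab : p1 ≤ a ∧ b ≤ p4)
      (hV : ∃ x1 x2 : ℤ, (a ≤ x1 ∧ x1 ≤ b) ∧ (a ≤ x2 ∧ x2 ≤ b) ∧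
      DReach (dE (TBE a b c1 d2) \ F) (x1, c1) (x2, d2)) (T : Set Edg) (v v' : Vtx),
      (∀ x y, ((x, y, true) : Edg) ∈ T → c1 + 1 ≤ y ∧ y ≤ d2) →
      (∀ x y, ((x, y, false) : Edg) ∈ T → False) →
      Reach (F ∩ (InB (p1 + 1) p4 (c1 + 1) d2 ∪ T)) v v' → v.1 ≤ a → b + 1 ≤ v'.1 → False := by
    intro a b ha hab hV T v v' hT1 hT2 hr hv hv'
    obtain ⟨x1, x2, hx1, hx2, hd⟩ := hV
    obtain ⟨y1, y2, hy1, hy2, h3, -⟩ := sub_LR (a := a) (b := b + 1) (c := c1 + 1) (d := d2)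
      (by omega) (by
        rintro x y ⟨-, h | h⟩ _ _
        · rw [inB_true] at h; omega
        · exact hT1 x y h) (by
        rintro x y ⟨-, h | h⟩ _ _
        · rw [inB_false] at h; omega
        · exact absurd h (fun h => hT2 x y h)) hr hv hv'
    refine no_both (F := F) (a := a) (b := b + 1) (c := c1 + 1) (d := d2) (x := x1) (x' := x2)
      (by omega) hy2 (by omega) (h3.mono ?_) ?_
    · rintro e ⟨h, h'⟩; exact ⟨h.1, h'⟩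
    · rw [show c1 + 1 - 1 = c1 by ring]
      refine hd.mono ?_
      rintro ⟨x, y, _ | _⟩ ⟨h, h'⟩
      · refine ⟨h', ?_⟩
        simp only [dE, Set.mem_ofPred_eq, dl_f, mem_TBE_true] at h
        simp only [mem_coe, mem_LRE_false]
        omega
      · refine ⟨h', ?_⟩
        simp only [dE, Set.mem_ofPred_eq, dl_t, mem_TBE_false] at h
        simp only [mem_coe, mem_LRE_true]
        omega
  -- crossings of horizontal strips
  have TBc' : ∀ (c d : ℤ) (hcd : c ≤ d)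
      (hV : ∃ y1 y2 : ℤ, (c ≤ y1 ∧ y1 ≤ d) ∧ (c ≤ y2 ∧ y2 ≤ d) ∧
      DReach (dE (LRE p1 p4 c d) \ F) (p1, y1) (p4, y2)) (T : Set Edg) (v v' : Vtx),
      (∀ x y, ((x, y, false) : Edg) ∈ T → p1 + 1 ≤ x ∧ x ≤ p4) →
      (∀ x y, ((x, y, true) : Edg) ∈ T → False) →
      Reach (F ∩ (InB (p1 + 1) p4 (c1 + 1) d2 ∪ T)) v v' → v.2 ≤ c → d + 1 ≤ v'.2 → False := by
    intro c d hcd hV T v v' hT1 hT2 hr hv hv'
    obtain ⟨y1, y2, hy1, hy2, hd⟩ := hV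
    obtain ⟨x1, x2, hx1, hx2, h3, -⟩ := sub_TB (a := p1 + 1) (b := p4) (c := c) (d := d + 1)
      (by omega) (by
        rintro x y ⟨-, h | h⟩ _ _
        · rw [inB_false] at h; omega
        · exact hT1 x y h) (by
        rintro x y ⟨-, h | h⟩ _ _
        · rw [inB_true] at h; omega
        · exact absurd h (fun h => hT2 x y h)) hr hv hv'
    refine no_both_TB (F := F) (a := p1 + 1) (b := p4) (c := c) (d := d + 1) (y := y1) (y' := y2)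
      (by omega) hx2 (by omega) (h3.mono ?_) ?_
    · rintro e ⟨h, h'⟩; exact ⟨h.1, h'⟩
    · rw [show p1 + 1 - 1 = p1 by ring]
      refine hd.mono ?_
      rintro ⟨x, y, _ | _⟩ ⟨h, h'⟩
      · refine ⟨h', ?_⟩
        simp only [dE, Set.mem_ofPred_eq, dl_f, mem_LRE_true] at h
        simp only [mem_coe, mem_TBE_false]
        omega
      · refine ⟨h', ?_⟩
        simp only [dE, Set.mem_ofPred_eq, dl_t, mem_LRE_false] at h
        simp only [mem_coe, mem_TBE_true]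
        omega
  rcases h1 with ⟨y, h1⟩ | ⟨y, h1⟩ | ⟨x, h1⟩ | ⟨x, h1⟩
  · refine LRc' p1 p2 hp.1 (by omega) hL _ _ _ ?_ ?_ h1.symm (by simp) (by omega)
    · rintro x y ⟨y', h2, h3⟩
      simp only [Prod.mk.injEq] at h3
      omega
    · rintro x y ⟨y', h2, h3⟩
      simp at h3
  · refine LRc' p3 p4 hp.2.2 (by omega) hR _ _ _ ?_ ?_ h1 (by omega) (by simp)
    · rintro x y ⟨y', h2, h3⟩
      simp only [Prod.mk.injEq] at h3
      omega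
    · rintro x y ⟨y', h2, h3⟩
      simp at h3
  · refine TBc' c1 c2 hc.1 hB _ _ _ ?_ ?_ h1.symm (by simp) (by omega)
    · rintro x y ⟨y', h2, h3⟩
      simp only [Prod.mk.injEq] at h3
      omega
    · rintro x y ⟨y', h2, h3⟩
      simp at h3
  · refine TBc' d1 d2 hc.2.2 hT _ _ _ ?_ ?_ h1 (by omega) (by simp)
    · rintro x y ⟨y', h2, h3⟩
      simp only [Prod.mk.injEq] at h3
      omega
    · rintro x y ⟨y', h2, h3⟩
      simp at h3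

/-- Open crossings of the four sides block closed dual paths. -/
theorem bar_low {F : Set Edg} {p1 p2 p3 p4 c1 c2 d1 d2 : ℤ} (hp : p1 ≤ p2 ∧ p2 < p3 ∧ p3 ≤ p4)
    (hc : c1 ≤ c2 ∧ c2 < d1 ∧ d1 ≤ d2)
    (hL : ∃ x1 x2 : ℤ, (p1 ≤ x1 ∧ x1 ≤ p2) ∧ (p1 ≤ x2 ∧ x2 ≤ p2) ∧
      Reach (F ∩ ↑(TBE p1 p2 c1 d2)) (x1, c1) (x2, d2))
    (hR : ∃ x1 x2 : ℤ, (p3 ≤ x1 ∧ x1 ≤ p4) ∧ (p3 ≤ x2 ∧ x2 ≤ p4) ∧
      Reach (F ∩ ↑(TBE p3 p4 c1 d2)) (x1, c1) (x2, d2))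
    (hT : ∃ y1 y2 : ℤ, (d1 ≤ y1 ∧ y1 ≤ d2) ∧ (d1 ≤ y2 ∧ y2 ≤ d2) ∧
      Reach (F ∩ ↑(LRE p1 p4 d1 d2)) (p1, y1) (p4, y2))
    (hB : ∃ y1 y2 : ℤ, (c1 ≤ y1 ∧ y1 ≤ c2) ∧ (c1 ≤ y2 ∧ y2 ≤ c2) ∧
      Reach (F ∩ ↑(LRE p1 p4 c1 c2)) (p1, y1) (p4, y2))
    {f g : Vtx} (hu : (p2 ≤ f.1 ∧ f.1 < p3) ∧ (c2 ≤ f.2 ∧ f.2 < d1))
    (hw : ¬ ((p1 ≤ g.1 ∧ g.1 < p4) ∧ (c1 ≤ g.2 ∧ g.2 < d2))) (h : DReach Fᶜ f g) : False := by
  have h1 := exit_box (P := p1) (Q := p4 - 1) (C := c1) (D := d2 - 1) (by omega)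
    (reach_dl.2 h) (by omega)
  have LRc' : ∀ (a b : ℤ) (ha : a ≤ b) (hab : p1 ≤ a ∧ b ≤ p4)
      (hV : ∃ x1 x2 : ℤ, (a ≤ x1 ∧ x1 ≤ b) ∧ (a ≤ x2 ∧ x2 ≤ b) ∧
      Reach (F ∩ ↑(TBE a b c1 d2)) (x1, c1) (x2, d2)) (T : Set Edg) (v v' : Vtx),
      (∀ x y, ((x, y, true) : Edg) ∈ T → c1 ≤ y ∧ y ≤ d2 - 1) →
      (∀ x y, ((x, y, false) : Edg) ∈ T → False) →
      Reach (dl '' Fᶜ ∩ (InB p1 (p4 - 1) c1 (d2 - 1) ∪ T)) v v' → v.1 ≤ a - 1 → b ≤ v'.1 →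
      False := by
    intro a b ha hab hV T v v' hT1 hT2 hr hv hv'
    obtain ⟨x1, x2, hx1, hx2, hd⟩ := hV
    obtain ⟨y1, y2, hy1, hy2, h3, -⟩ := sub_LR (a := a - 1) (b := b) (c := c1) (d := d2 - 1)
      (by omega) (by
        rintro x y ⟨-, h | h⟩ _ _
        · rw [inB_true] at h; omega
        · exact hT1 x y h) (by
        rintro x y ⟨-, h | h⟩ _ _
        · rw [inB_false] at h; omega
        · exact absurd h (fun h => hT2 x y h)) hr hv hv'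
    refine no_both_TB (F := F) (a := a) (b := b) (c := c1) (d := d2) (y := y1) (y' := y2)
      (x := x1) (x' := x2) (by omega) hx2 (by omega) hd ?_
    rw [← reach_dl]
    refine h3.mono ?_
    rintro _ ⟨⟨⟨e, he, rfl⟩, -⟩, h2⟩
    refine ⟨e, ⟨he, ?_⟩, rfl⟩
    obtain ⟨x, y, _ | _⟩ := e
    · simp only [mem_coe, dl_f, mem_LRE_true] at h2
      simp only [mem_coe, mem_TBE_false]
      omega
    · simp only [mem_coe, dl_t, mem_LRE_false] at h2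
      simp only [mem_coe, mem_TBE_true]
      omega
  have TBc' : ∀ (c d : ℤ) (hcd : c ≤ d)
      (hV : ∃ y1 y2 : ℤ, (c ≤ y1 ∧ y1 ≤ d) ∧ (c ≤ y2 ∧ y2 ≤ d) ∧
      Reach (F ∩ ↑(LRE p1 p4 c d)) (p1, y1) (p4, y2)) (T : Set Edg) (v v' : Vtx),
      (∀ x y, ((x, y, false) : Edg) ∈ T → p1 ≤ x ∧ x ≤ p4 - 1) →
      (∀ x y, ((x, y, true) : Edg) ∈ T → False) →
      Reach (dl '' Fᶜ ∩ (InB p1 (p4 - 1) c1 (d2 - 1) ∪ T)) v v' → v.2 ≤ c - 1 → d ≤ v'.2 →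
      False := by
    intro c d hcd hV T v v' hT1 hT2 hr hv hv'
    obtain ⟨y1, y2, hy1, hy2, hd⟩ := hV
    obtain ⟨x1, x2, hx1, hx2, h3, -⟩ := sub_TB (a := p1) (b := p4 - 1) (c := c - 1) (d := d)
      (by omega) (by
        rintro x y ⟨-, h | h⟩ _ _
        · rw [inB_false] at h; omega
        · exact hT1 x y h) (by
        rintro x y ⟨-, h | h⟩ _ _
        · rw [inB_true] at h; omega
        · exact absurd h (fun h => hT2 x y h)) hr hv hv'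
    refine no_both (F := F) (a := p1) (b := p4) (c := c) (d := d) (x := x1) (x' := x2)
      (y := y1) (y' := y2) (by omega) hy2 (by omega) hd ?_
    rw [← reach_dl]
    refine h3.mono ?_
    rintro _ ⟨⟨⟨e, he, rfl⟩, -⟩, h2⟩
    refine ⟨e, ⟨he, ?_⟩, rfl⟩
    obtain ⟨x, y, _ | _⟩ := e
    · simp only [mem_coe, dl_f, mem_TBE_true] at h2
      simp only [mem_coe, mem_LRE_false]
      omega
    · simp only [mem_coe, dl_t, mem_TBE_false] at h2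
      simp only [mem_coe, mem_LRE_true]
      omega
  rcases h1 with ⟨y, h1⟩ | ⟨y, h1⟩ | ⟨x, h1⟩ | ⟨x, h1⟩
  · refine LRc' p1 p2 hp.1 (by omega) hL _ _ _ ?_ ?_ h1.symm (by simp) (by omega)
    · rintro x y ⟨y', h2, h3⟩
      simp only [Prod.mk.injEq] at h3
      omega
    · rintro x y ⟨y', h2, h3⟩
      simp at h3
  · refine LRc' p3 p4 hp.2.2 (by omega) hR _ _ _ ?_ ?_ h1 (by omega) (by simp)
    · rintro x y ⟨y', h2, h3⟩
      simp only [Prod.mk.injEq] at h3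
      omega
    · rintro x y ⟨y', h2, h3⟩
      simp at h3
  · refine TBc' c1 c2 hc.1 hB _ _ _ ?_ ?_ h1.symm (by simp) (by omega)
    · rintro x y ⟨y', h2, h3⟩
      simp only [Prod.mk.injEq] at h3
      omega
    · rintro x y ⟨y', h2, h3⟩
      simp at h3
  · refine TBc' d1 d2 hc.2.2 hT _ _ _ ?_ ?_ h1 (by omega) (by simp)
    · rintro x y ⟨y', h2, h3⟩
      simp only [Prod.mk.injEq] at h3
      omega
    · rintro x y ⟨y', h2, h3⟩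
      simp at h3

end Pool.Agent.K9h27.PK
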