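import Pool.Agent.R965.CS.ManyP
import Pool.Agent.H984R3.Per.UpPi

/-!
Isolated fast pieces: the number of states with two arms near a vertex, and properties of strands
which depend on the configuration.
-/

set_option autoImplicit false
set_option linter.unusedVariables false

namespace Pool.Agent.K9h27.PK

open H974 Finset H342P H984P H984N Pool.Agent.Y995.FS TH992.T

/-- At most `N` states within distance `ρ` of `v` have two arms to distance `s`. -/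
def Is (ρ s : ℤ) (N : ℝ) (F : Set Edg) (v : Vtx) : Prop :=
  ∀ W : Finset St, (∀ σ ∈ W, sd v σ.1 ≤ ρ ∧ Two σ.1 (face σ) s F) → (W.card : ℝ) ≤ N

theorem rS_inj : Function.Injective rS := by
  intro σ τ h
  unfold rS at h
  rw [Prod.mk.injEq] at h
  refine Prod.ext (rV.injective h.1) ?_
  have h2 := h.2
  revert h2
  generalize σ.2 = p
  generalize τ.2 = q
  cases p <;> cases q <;> simp [rQ]

theorem two_rot {F : Finset Edg} {σ : St} {s : ℤ} (h : Two σ.1 (face σ) s (↑F : Set Edg)) :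
    Two (rS σ).1 (face (rS σ)) s (↑(rM F) : Set Edg) := by
  obtain ⟨⟨w, h1, h2⟩, g, h3, h4⟩ := h
  rw [rot_face]
  refine ⟨⟨rV w, ?_, rot_reach.2 h2⟩, rF g, ?_, rot_dreach.2 h4⟩
  · unfold Far at h1 ⊢
    simp only [rS, rV, Equiv.coe_fn_mk] at h1 ⊢
    omega
  · unfold FarF inF at h3 ⊢
    simp only [rS, rV, rF, Equiv.coe_fn_mk] at h3 ⊢
    omega

theorem two_trl {F : Finset Edg} {σ : St} {s b c : ℤ} (h : Two σ.1 (face σ) s (↑F : Set Edg)) :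
    Two (bulk_tS b c σ).1 (face (bulk_tS b c σ)) s (↑((trl b c).mp F) : Set Edg) := by
  obtain ⟨⟨w, h1, h2⟩, g, h3, h4⟩ := h
  have hf : face (bulk_tS b c σ) = ((face σ).1 + b, (face σ).2 + c) := by
    obtain ⟨⟨x, y⟩, q⟩ := σ
    cases q <;> simp [bulk_tS, face] <;> (try constructor) <;> ring
  rw [hf, LSym.coe_mp]
  refine ⟨⟨(w.1 + b, w.2 + c), ?_, ?_⟩, (g.1 + b, g.2 + c), ?_, ?_⟩
  · unfold Far at h1 ⊢
    simp only [bulk_tS] at h1 ⊢
    omega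
  · have h5 := (trl b c).reach h2
    exact h5
  · unfold FarF inF at h3 ⊢
    simp only [bulk_tS] at h3 ⊢
    omega
  · exact p22_dreach b c h4

theorem is_rot {ρ s : ℤ} {N : ℝ} {F : Finset Edg} {v : Vtx} (h : Is ρ s N (↑(rM F)) (rV v)) :
    Is ρ s N (↑F) v := by
  classical
  intro W hW
  have h1 := h (W.image rS) (by
    intro σ hσ
    rw [mem_image] at hσ
    obtain ⟨τ, hτ, rfl⟩ := hσ
    obtain ⟨h2, h3⟩ := hW τ hτ
    refine ⟨?_, two_rot h3⟩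
    have e : (rS τ).1 = rV τ.1 := rfl
    rw [e, sd_rV]
    exact h2)
  rwa [card_image_of_injective _ rS_inj] at h1

theorem bulk_tS_inj (b c : ℤ) : Function.Injective (bulk_tS b c) := by
  intro σ τ h
  obtain ⟨⟨x, y⟩, q⟩ := σ
  obtain ⟨⟨x', y'⟩, q'⟩ := τ
  simp only [bulk_tS, Prod.mk.injEq] at h
  obtain ⟨⟨h1, h2⟩, h3⟩ := h
  have e1 : x = x' := by omega
  have e2 : y = y' := by omega
  rw [e1, e2, h3]

theorem is_trl {ρ s b c : ℤ} {N : ℝ} {F : Finset Edg} {v : Vtx}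
    (h : Is ρ s N (↑((trl b c).mp F)) (v.1 + b, v.2 + c)) : Is ρ s N (↑F) v := by
  classical
  intro W hW
  have h1 := h (W.image (bulk_tS b c)) (by
    intro σ hσ
    rw [mem_image] at hσ
    obtain ⟨τ, hτ, rfl⟩ := hσ
    obtain ⟨h2, h3⟩ := hW τ hτ
    refine ⟨?_, two_trl h3⟩
    have e : (bulk_tS b c τ).1 = (τ.1.1 + b, τ.1.2 + c) := rfl
    rw [e, sd_trl v τ.1 b c]
    exact h2)
  rwa [card_image_of_injective _ (bulk_tS_inj b c)] at h1

theorem is_loc {ρ s : ℤ} {N : ℝ} {F G : Set Edg} {v : Vtx} (hs : 0 ≤ s)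
    (hFG : ∀ e ∈ RE (v.1 - (ρ + s)) (v.1 + (ρ + s)) (v.2 - (ρ + s)) (v.2 + (ρ + s)),
      (e ∈ F ↔ e ∈ G)) (h : Is ρ s N F v) : Is ρ s N G v := by
  intro W hW
  refine h W fun σ hσ => ?_
  obtain ⟨h1, h2⟩ := hW σ hσ
  refine ⟨h1, (two_congr hs fun e he => hFG e ?_).2 h2⟩
  have e2 : sd v σ.1 = H984H.sd v σ.1 := rfl
  rw [e2, H984H.det_sd_eq] at h1
  exact RE_sub_RE (by omega) (by omega) (by omega) (by omega) he

/-- A property of strands and configurations which is inherited by longer strands, invariant under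
congruences and local. -/
structure PG (ℓ : ℤ) (g : Set Edg → (ℕ → Vtx) → ℕ → Prop) : Prop where
  congr : ∀ (F : Set Edg) (x x' : ℕ → Vtx) (t : ℕ), (∀ s ≤ t, x s = x' s) → g F x t → g F x' t
  mono : ∀ (F : Set Edg) (x : ℕ → Vtx) (s0 t' t : ℕ), s0 + t' ≤ t →
    g F (fun s => x (s + s0)) t' → g F x t
  rot : ∀ (F : Finset Edg) (x : ℕ → Vtx) (t : ℕ), g (↑(rM F)) (fun s => rV (x s)) t → g (↑F) x t
  trl : ∀ (F : Finset Edg) (x : ℕ → Vtx) (t : ℕ) (b c : ℤ),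
    g (↑((trl b c).mp F)) (fun s => ((x s).1 + b, (x s).2 + c)) t → g (↑F) x t
  loc : ∀ (F G : Set Edg) (x : ℕ → Vtx) (t : ℕ), (∀ s ≤ t,
    ∀ e ∈ RE ((x s).1 - ℓ) ((x s).1 + ℓ) ((x s).2 - ℓ) ((x s).2 + ℓ), (e ∈ F ↔ e ∈ G)) →
    g F x t → g G x t

/-- A piece of the path of duration at least `M` inside of a ball of radius `r` around an isolated
vertex. -/
def gI (r ρ s : ℤ) (M N : ℝ) (F : Set Edg) (x : ℕ → Vtx) (t : ℕ) : Prop :=
  ∃ i j : ℕ, i ≤ j ∧ j ≤ t ∧ M ≤ ((j - i : ℕ) : ℝ) ∧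
    (∀ u, i ≤ u → u ≤ j → sd (x i) (x u) ≤ r) ∧ Is ρ s N F (x i)

theorem gI_good {r ρ s : ℤ} {M N : ℝ} (hs : 0 ≤ s) : PG (ρ + s) (gI r ρ s M N) where
  congr F x x' t h := by
    rintro ⟨i, j, h1, h2, h3, h4, h5⟩
    refine ⟨i, j, h1, h2, h3, fun u hu hu' => ?_, ?_⟩
    · rw [← h i (by omega), ← h u (by omega)]
      exact h4 u hu hu'
    · rw [← h i (by omega)]
      exact h5
  mono F x s0 t' t h := by
    rintro ⟨i, j, h1, h2, h3, h4, h5⟩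
    refine ⟨i + s0, j + s0, by omega, by omega, ?_, fun u hu hu' => ?_, h5⟩
    · rw [show j + s0 - (i + s0) = j - i by omega]
      exact h3
    · obtain ⟨z, rfl⟩ : ∃ z, u = z + s0 := ⟨u - s0, by omega⟩
      exact h4 z (by omega) (by omega)
  rot F x t := by
    rintro ⟨i, j, h1, h2, h3, h4, h5⟩
    refine ⟨i, j, h1, h2, h3, fun u hu hu' => ?_, is_rot h5⟩
    rw [← sd_rV]
    exact h4 u hu hu'
  trl F x t b c := by
    rintro ⟨i, j, h1, h2, h3, h4, h5⟩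
    refine ⟨i, j, h1, h2, h3, fun u hu hu' => ?_, is_trl h5⟩
    rw [← sd_trl (x i) (x u) b c]
    exact h4 u hu hu'
  loc F G x t hFG := by
    rintro ⟨i, j, h1, h2, h3, h4, h5⟩
    exact ⟨i, j, h1, h2, h3, h4, is_loc hs (hFG i (by omega)) h5⟩

/-- A successful trial makes the strand good. -/
def DetI (Q : TEv) (m K : ℕ) (g : Set Edg → (ℕ → Vtx) → ℕ → Prop) : Prop :=
  ∀ (F : Set Edg) (A y0 Y : ℤ) (T j : ℕ) (Yj : ℤ) (Tj : ℕ),
    Strand F A y0 (A + 121 * m * K) Y T → 1 ≤ j → j < K →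
    Strand F A y0 (A + 121 * m * j) Yj Tj → Tj ≤ T → Q A y0 (A + 121 * m * j) Yj Tj F →
    g F (fun s => (orb F (st0 A y0) s).1) T

theorem lowI : ∃ C : ℝ, 0 < C ∧ ∀ (Q : TEv) (ℓ : ℤ) (g : Set Edg → (ℕ → Vtx) → ℕ → Prop),
    PG ℓ g → ∀ (n m K : ℕ) (δ : ℝ) (R : ℤ), 5 ≤ m → 1 ≤ K →
    δ ≤ 1 → LocQ m Q → DetI Q m K g → AllQ n m Q δ → 121 * m * K + m + 2 ≤ R →
    Pr (fun _ => (1/2:ℝ)) (RE 0 n 0 n) (fun F => ∃ (σ : St) (t : ℕ),
      inR (3 * R + 60 * m) (n - 3 * R - 60 * m) (3 * R + 60 * m) (n - 3 * R - 60 * m) σ.1 ∧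
      Far σ.1 R (orb (↑F) σ t).1 ∧ ¬ g (↑F) (fun s => (orb (↑F) σ s).1) t) ≤
      C * ((n:ℝ) / m + 1) ^ 2 * (1 - δ) ^ (K - 1) := by
  obtain ⟨C, hC, hcount⟩ := strand_count_sum
  refine ⟨8 * C, by positivity, ?_⟩
  intro Q ℓ g hg n m K δ R hm hK hδ1 hQ hdet hok hR
  have hm1 : 1 ≤ m := by omega
  have hw : 0 ≤ (1 - δ) ^ (K - 1) := pow_nonneg (by linarith) _
  have hR1 : 1 ≤ R := by
    have : (0:ℤ) ≤ 121 * m * K := by positivity
    omega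
  have h := LS_four (n := n) (B := 2 * C * ((n:ℝ) / m + 1) ^ 2 * (1 - δ) ^ (K - 1)) (R := R)
    (E := fun b c F => ∃ i ∈ Finset.range (n / m + 2), ∃ y0 ∈ Finset.Icc c (c + n),
      RE ((b + i * m) - 60 * m) ((b + i * m) + 121 * m * K + 60 * m) (y0 - 2 * R - 60 * m)
        (y0 + 2 * R + 60 * m) ⊆ RE b (b + n) c (c + n) ∧
      Fail Q (b + i * m) y0 (2 * R) m K (↑F))
    (P := fun b c F σ t => inR (b + 3 * R + 60 * m) (b + n - 3 * R - 60 * m) (c + 3 * R + 60 * m)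
      (c + n - 3 * R - 60 * m) σ.1 ∧
      (∀ s < t, ¬ Far σ.1 R (orb (↑F) σ s).1) ∧ ¬ g (↑F) (fun s => (orb (↑F) σ s).1) t)
    (G := fun F => ∃ (σ : St) (t : ℕ),
      inR (3 * R + 60 * m) (n - 3 * R - 60 * m) (3 * R + 60 * m) (n - 3 * R - 60 * m) σ.1 ∧
      Far σ.1 R (orb (↑F) σ t).1 ∧ ¬ g (↑F) (fun s => (orb (↑F) σ s).1) t) ?_ ?_ ?_ ?_
  · refine h.trans (le_of_eq ?_)
    ring
  · intro b c
    refine LS_sum (K := K) (R := R) hw hm hC hcount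
      (fun A y0 F => Fail Q A y0 (2 * R) m K (↑F)) ?_
    intro A y0 hS
    exact iterQ (H := 2 * R) hQ hm1 hK hδ1 hS (hok b c A y0)
  · rintro b c F σ t ⟨h1, h2, h3⟩
    refine ⟨?_, ?_, ?_⟩
    · simp only [inR, rS, rV, Equiv.coe_fn_mk] at h1 ⊢
      omega
    · intro s hs
      rw [rot_orb]
      exact fun hh => h2 s hs (LT_far.1 hh)
    · intro hh
      apply h3
      apply hg.rot
      refine hg.congr _ _ _ _ ?_ hh
      intro s _
      rw [rot_orb]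
      rfl
  · rintro b c F σ t ⟨hin, hf, hM⟩ hx
    obtain ⟨i, hi, y0, hy0, hS, Y, T, s0, hs0, hst, hT, hy⟩ := LS_det hm1 hK hR hin hf hx
    refine ⟨i, hi, y0, hy0, hS, Y, T, hst, hy, ?_⟩
    intro j Yj Tj hj hjK hstj hTj hQj
    apply hM
    refine hg.mono _ _ s0 T t hT ?_
    refine hg.congr _ _ _ _ ?_ (hdet _ _ _ _ _ _ _ _ hst hj hjK hstj hTj hQj)
    intro s _
    rw [orb_add, hs0]
  · rintro F ⟨σ, t0, hin, hfar, hM⟩
    obtain ⟨t, htt, ht, hex⟩ := first_far2 hR1 hfar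
    refine ⟨σ, t, ⟨by simpa using hin, ht, ?_⟩, hex⟩
    intro hh
    exact hM (hg.mono _ _ 0 t t0 (by omega) hh)

/-- The bad event in the square of side `4 L` with the lower left corner `(b, c)`. -/
def sqI (g : Set Edg → (ℕ → Vtx) → ℕ → Prop) (R L b c : ℤ) (F : Finset Edg) : Prop :=
  ∃ (σ : St) (t : ℕ), inR (b + L) (b + 3 * L) (c + L) (c + 3 * L) σ.1 ∧
    (∀ s < t, ¬ Far σ.1 R (orb (↑(F ∩ RE b (b + 4 * L) c (c + 4 * L)) : Set Edg) σ s).1) ∧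
    Far σ.1 R (orb (↑(F ∩ RE b (b + 4 * L) c (c + 4 * L)) : Set Edg) σ t).1 ∧
    ¬ g (↑(F ∩ RE b (b + 4 * L) c (c + 4 * L)) : Set Edg)
      (fun s => (orb (↑(F ∩ RE b (b + 4 * L) c (c + 4 * L)) : Set Edg) σ s).1) t

theorem sqI_pr {ℓ : ℤ} {g : Set Edg → (ℕ → Vtx) → ℕ → Prop} (hg : PG ℓ g) {S : Finset Edg}
    {m n : ℕ} {R L b c : ℤ} (hn : (n : ℤ) = 4 * L)
    (hL : L = 3 * R + 60 * m) (hS : RE b (b + 4 * L) c (c + 4 * L) ⊆ S) :
    Pr (fun _ => (1/2:ℝ)) S (sqI g R L b c) ≤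
      Pr (fun _ => (1/2:ℝ)) (RE 0 n 0 n) (fun F => ∃ (σ : St) (t : ℕ),
      inR (3 * R + 60 * m) (n - 3 * R - 60 * m) (3 * R + 60 * m) (n - 3 * R - 60 * m) σ.1 ∧
      Far σ.1 R (orb (↑F) σ t).1 ∧ ¬ g (↑F) (fun s => (orb (↑F) σ s).1) t) := by
  have hok2 : Ok (fun _ : Edg => (1/2:ℝ)) := okq (by norm_num) (by norm_num)
  have e1 : RE b (b + 4 * L) c (c + 4 * L) = (trl b c).mp (RE 0 n 0 n) := by
    rw [trl_RE, hn, zero_add, zero_add, add_comm (4 * L) b, add_comm (4 * L) c]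
  rw [Pr_local hS (A := sqI g R L b c) (fun F _ => by
    unfold sqI
    rw [Finset.inter_assoc, Finset.inter_self])]
  rw [e1, LSym.pr]
  apply Pr_mono hok2
  rintro F hF ⟨σ, t, h1, -, h2, h3⟩
  have h4 : (trl b c).mp F ∩ RE b (b + 4 * L) c (c + 4 * L) = (trl b c).mp F := by
    rw [Finset.inter_eq_left, e1]
    exact LSym.mp_mono _ hF
  rw [h4] at h2 h3
  have h5 : bulk_tS b c (bulk_tS (-b) (-c) σ) = σ := by
    unfold bulk_tS
    simp
  have h6 : ∀ s, orb (↑((trl b c).mp F) : Set Edg) σ s =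
      bulk_tS b c (orb (↑F) (bulk_tS (-b) (-c) σ) s) := by
    intro s
    rw [← bulk_orb, h5]
  refine ⟨bulk_tS (-b) (-c) σ, t, ?_, ?_, ?_⟩
  · unfold inR at h1 ⊢
    simp only [bulk_tS]
    omega
  · rw [h6] at h2
    generalize orb (↑F) (bulk_tS (-b) (-c) σ) t = w at h2 ⊢
    unfold Far at h2 ⊢
    simp only [bulk_tS] at h2 ⊢
    omega
  · intro hh
    apply h3
    have e2 : (fun s => (orb (↑((trl b c).mp F) : Set Edg) σ s).1) =
        fun s => (((orb (↑F) (bulk_tS (-b) (-c) σ) s).1).1 + b,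
          ((orb (↑F) (bulk_tS (-b) (-c) σ) s).1).2 + c) := by
      funext s
      rw [h6]
      rfl
    rw [e2]
    have h7 : (trl (-b) (-c)).mp ((trl b c).mp F) = F := by
      ext e
      rw [LSym.mem_mp, LSym.mem_mp]
      have e3 : (trl b c).φ.symm ((trl (-b) (-c)).φ.symm e) = e := by
        obtain ⟨x, y, q⟩ := e
        simp [trl]
      rw [e3]
    refine hg.trl _ _ _ (-b) (-c) ?_
    rw [h7]
    refine hg.congr _ _ _ _ ?_ hh
    intro s _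
    simp

end Pool.Agent.K9h27.PK
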