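import Pool.Agent.K9h27.PK.Wall
import Pool.Agent.K9h27.PK.Iso

/-!
The trial for isolated fast pieces: deterministic part.
-/

set_option autoImplicit false
set_option linter.unusedVariables false

namespace Pool.Agent.K9h27.PK

open H974 hiding RB
open Finset H342P H984P H984N Pool.Agent.Y995.FS Pool.Agent.R965.CS TH992.T

/-- the vertices in the middle of the tube -/
noncomputable def Wr (X Y : ℤ) (a m : ℕ) : Finset Vtx :=
  Finset.Icc (X + 39 * m + 13 * a) (X + 41 * m - 13 * a) ×ˢ Finset.Icc (Y - a) (Y + a)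

theorem mem_Wr {X Y : ℤ} {a m : ℕ} {v : Vtx} : v ∈ Wr X Y a m ↔
    (X + 39 * m + 13 * a ≤ v.1 ∧ v.1 ≤ X + 41 * m - 13 * a) ∧ (Y - a ≤ v.2 ∧ v.2 ≤ Y + a) := by
  unfold Wr
  rw [mem_product, mem_Icc, mem_Icc]

/-- the lower arch -/
def ArL (X Y : ℤ) (a m : ℕ) (F : Set Edg) : Prop :=
  (∃ x1 x2 : ℤ, (X + 22 * m ≤ x1 ∧ x1 ≤ X + 26 * m) ∧ (X + 22 * m ≤ x2 ∧ x2 ≤ X + 26 * m) ∧
    Reach (F ∩ ↑(TBE (X + 22 * m) (X + 26 * m) (Y - 18 * m) (Y - 4 * a)))
      (x1, Y - 18 * m) (x2, Y - 4 * a)) ∧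
  (∃ x1 x2 : ℤ, (X + 54 * m ≤ x1 ∧ x1 ≤ X + 58 * m) ∧ (X + 54 * m ≤ x2 ∧ x2 ≤ X + 58 * m) ∧
    Reach (F ∩ ↑(TBE (X + 54 * m) (X + 58 * m) (Y - 18 * m) (Y - 4 * a)))
      (x1, Y - 18 * m) (x2, Y - 4 * a)) ∧
  (∃ y1 y2 : ℤ, (Y - 18 * m ≤ y1 ∧ y1 ≤ Y - 14 * m) ∧ (Y - 18 * m ≤ y2 ∧ y2 ≤ Y - 14 * m) ∧
    Reach (F ∩ ↑(LRE (X + 22 * m) (X + 58 * m) (Y - 18 * m) (Y - 14 * m)))
      (X + 22 * m, y1) (X + 58 * m, y2))

/-- the upper arch -/
def ArU (X Y : ℤ) (a m : ℕ) (F : Set Edg) : Prop :=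
  (∃ x1 x2 : ℤ, (X + 22 * m ≤ x1 ∧ x1 ≤ X + 26 * m) ∧ (X + 22 * m ≤ x2 ∧ x2 ≤ X + 26 * m) ∧
    DReach (dE (TBE (X + 22 * m) (X + 26 * m) (Y + 4 * a) (Y + 18 * m)) \ F)
      (x1, Y + 4 * a) (x2, Y + 18 * m)) ∧
  (∃ x1 x2 : ℤ, (X + 54 * m ≤ x1 ∧ x1 ≤ X + 58 * m) ∧ (X + 54 * m ≤ x2 ∧ x2 ≤ X + 58 * m) ∧
    DReach (dE (TBE (X + 54 * m) (X + 58 * m) (Y + 4 * a) (Y + 18 * m)) \ F)
      (x1, Y + 4 * a) (x2, Y + 18 * m)) ∧
  (∃ y1 y2 : ℤ, (Y + 14 * m ≤ y1 ∧ y1 ≤ Y + 18 * m) ∧ (Y + 14 * m ≤ y2 ∧ y2 ≤ Y + 18 * m) ∧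
    DReach (dE (LRE (X + 22 * m) (X + 58 * m) (Y + 14 * m) (Y + 18 * m)) \ F)
      (X + 22 * m, y1) (X + 58 * m, y2))

/-- The vertices of the middle with separated arms are visited during the crossing. -/
theorem row_exm {F : Set Edg} {A y0 X Y X'' Y'' A' y' : ℤ} {T T'' a m t : ℕ} (ha : 1 ≤ a)
    (ham : 40 * a ≤ m)
    (hst'' : Strand F A y0 X'' Y'' T'') (hT : T ≤ T'')
    (hX'' : X'' = X + 41 * m) (hA : A + 60 * a ≤ X) (hA' : A' = X + 39 * m)
    (hL : BaseL A y0 X Y T a a F) (hLL : LgL X Y a m F)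
    (hU : BaseU A y0 X Y T a a F) (hUU : LgU X Y a m F)
    (hs : Strand F A' y' X'' Y'' t) {v : Vtx} (hv : v ∈ Wr X Y a m) (hSB : RA v a F) :
    ∃ s < t, ae (orb F (st0 A' y') s) = (v.1, v.2, true) := by
  have ha' : (1 : ℤ) ≤ a := by exact_mod_cast ha
  have ham' : 40 * (a : ℤ) ≤ m := by exact_mod_cast ham
  obtain ⟨hv', hf', hS⟩ := side_exists hs
  obtain ⟨y1, y2, hy1, hy2, hr, hyY⟩ := wallL ha hst'' hT hA hL hLL (A' := A') (by omega)
    (by omega) (by omega)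
  obtain ⟨u1, u2, hu1, hu2, hd, huY⟩ := wallU ha hst'' hT hA hU hUU (A' := A') (by omega)
    (by omega) (by omega)
  obtain ⟨⟨w, hw, hRw⟩, g, hg, hDg⟩ := hSB
  rw [mem_Wr] at hv
  -- the lower side
  have e1 : hv' v = 0 := by
    obtain ⟨S, hSd⟩ : ∃ S : Finset Edg, S = (LRE A' X'' (Y - 8 * a) (Y - 4 * a) ∪
      (PR v a ∪ RE (v.1 - 12 * a) (v.1 + 12 * a) (Y - 8 * a) (Y - 4 * a))) := ⟨_, rfl⟩
    have hm : Reach (F ∩ ↑S) w (A', y1) := by
      refine meet_gen (p := v.1 - 12 * a) (q := v.1 + 12 * a) (c := Y - 8 * a) (d := Y - 4 * a)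
        (by omega) (by omega) (V := PR v a) (Hh := LRE A' X'' (Y - 8 * a) (Y - 4 * a))
        ?_ ?_ ?_ ?_ ?_ ?_ ?_ hRw.symm (by omega) (by omega) hr (by simp only; omega)
        (by simp only; omega)
      · rw [hSd]; exact subset_union_left.trans subset_union_right
      · rw [hSd]; exact subset_union_left
      · rw [hSd]; exact subset_union_right.trans subset_union_right
      · intro x y h _ _; simp only [PR, mem_RE_false] at h; omega
      · intro x y h _ _; simp only [PR, mem_RE_true] at h; omega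
      · intro x y h _ _; rw [mem_LRE_true] at h; omega
      · intro x y h _ _; rw [mem_LRE_false] at h; omega
    have hm1 : Reach (F ∩ ↑S) w v := hRw.symm.mono (by
      rintro e ⟨h0, h⟩
      refine ⟨h0, ?_⟩
      rw [hSd, Finset.mem_coe, mem_union, mem_union]
      exact Or.inr (Or.inl h))
    have hm2 : Reach (F ∩ ↑S) (A', y1) (X'', y2) := hr.mono (by
      rintro e ⟨h0, h⟩
      refine ⟨h0, ?_⟩
      rw [hSd, Finset.mem_coe, mem_union]
      exact Or.inl h)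
    have hSA : (↑S : Set Edg) ⊆ Adm F A' y' X'' Y'' t := by
      intro e he
      have h3 : A' ≤ e.1 ∧ e.1 < X'' := by
        obtain ⟨x, y, _ | _⟩ := e
        · rw [hSd] at he
          simp only [PR, Finset.mem_coe, mem_union, mem_RE_false, mem_LRE_false] at he
          simp only; omega
        · rw [hSd] at he
          simp only [PR, Finset.mem_coe, mem_union, mem_RE_true, mem_LRE_true] at he
          simp only; omega
      exact ⟨Or.inl h3.1, fun h => by omega⟩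
    have h5 := hv_reach hS hSA ((hm1.symm.trans hm).trans hm2)
    rw [h5]
    exact (hS.rightv X'' y2 le_rfl).2 hyY
  -- the upper side
  have e2 : hf' v = 1 := by
    obtain ⟨S, hSd⟩ : ∃ S : Finset Edg, S = (LRE A' X'' (Y + 4 * a) (Y + 8 * a) ∪
      (DR v a ∪ RE (v.1 - 12 * a) (v.1 + 12 * a) (Y + 4 * a) (Y + 8 * a))) := ⟨_, rfl⟩
    have hm : DReach (dE S \ F) v (A', u1) := by
      refine dmeet_gen (p := v.1 - 12 * a) (q := v.1 + 12 * a) (c := Y + 4 * a) (d := Y + 8 * a)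
        (by omega) (by omega) (V := DR v a) (Hh := LRE A' X'' (Y + 4 * a) (Y + 8 * a))
        ?_ ?_ ?_ ?_ ?_ ?_ ?_ hDg (by omega) (by omega) hd (by simp only; omega)
        (by simp only; omega)
      · rw [hSd]; exact subset_union_left.trans subset_union_right
      · rw [hSd]; exact subset_union_left
      · rw [hSd]; exact subset_union_right.trans subset_union_right
      · intro x y h _ _; simp only [DR, mem_RE_false] at h; omega
      · intro x y h _ _; simp only [DR, mem_RE_true] at h; omega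
      · intro x y h _ _; rw [mem_LRE_true] at h; omega
      · intro x y h _ _; rw [mem_LRE_false] at h; omega
    have hm2 : DReach (dE S \ F) (A', u1) (X'', u2) := hd.mono (by
      rintro e ⟨h0, h⟩
      refine ⟨?_, h⟩
      rw [hSd]
      simp only [dE, Set.mem_ofPred_eq, mem_union] at h0 ⊢
      exact Or.inl h0)
    have hSA : ∀ e ∈ dE S, e ∈ Adm F A' y' X'' Y'' t ∨ e = ((X'', Y'', false) : Edg) := by
      intro e he
      obtain ⟨x, y, _ | _⟩ := e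
      · rw [hSd] at he
        simp only [DR, dE, Set.mem_ofPred_eq, dl_f, mem_union, mem_RE_true, mem_LRE_true] at he
        by_cases h3 : x = X'' ∧ y = Y''
        · right
          rw [h3.1, h3.2]
        · left
          refine ⟨Or.inl (by simp only; omega), fun h => ?_⟩
          simp only at h
          omega
      · rw [hSd] at he
        simp only [DR, dE, Set.mem_ofPred_eq, dl_t, mem_union, mem_RE_false, mem_LRE_false] at he
        left
        refine ⟨Or.inl (by simp only; omega), fun h => ?_⟩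
        simp only at h
        omega
    have h5 := hf_reach' hS hs hSA (hm.trans hm2)
    rw [h5]
    exact (hS.rightf X'' u2 le_rfl).2 huY
  have key : ((v.1, v.2, true) : Edg) ∈ Exm F (st0 A' y') t := by
    by_contra hne
    have h3 := (hS.free (v.1, v.2, true) hne (by simp only; omega) (fun h4 => by
      have := h4.1
      simp only at this
      omega)).2.2
    simp only [src_mk, dtgt_mk] at h3
    have e3 : ((v.1, v.2) : Vtx) = v := rfl
    rw [e3, e1, e2] at h3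
    exact absurd h3 (by decide)
  rw [mem_Exm] at key
  exact key

/-- The strand is confined during the crossing. -/
theorem conf_subI {F : Set Edg} {A y0 X Y X'' Y'' A' y' : ℤ} {T T'' a m t : ℕ} (ha : 1 ≤ a)
    (ham : 40 * a ≤ m)
    (hst'' : Strand F A y0 X'' Y'' T'') (hT : T ≤ T'')
    (hX'' : X'' = X + 41 * m) (hA : A + 60 * a ≤ X) (hA' : A' = X + 39 * m)
    (hL : BaseL A y0 X Y T a a F) (hLL : LgL X Y a m F)
    (hU : BaseU A y0 X Y T a a F) (hUU : LgU X Y a m F)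
    (hs : Strand F A' y' X'' Y'' t) {s1 : ℕ} (hs1 : s1 < t)
    (h1 : Y - 4 * a ≤ (face (orb F (st0 A' y') s1)).2)
    (h2 : (orb F (st0 A' y') s1).1.2 ≤ Y + 4 * a) {s : ℕ} (hst : s < t) :
    Y - 8 * a ≤ (orb F (st0 A' y') s).1.2 ∧ (orb F (st0 A' y') s).1.2 ≤ Y + 8 * a := by
  have ha' : (1 : ℤ) ≤ a := by exact_mod_cast ha
  have ham' : 40 * (a : ℤ) ≤ m := by exact_mod_cast ham
  obtain ⟨y1, y2, hy1, hy2, hr, hyY⟩ := wallL ha hst'' hT hA hL hLL (A' := A' - 1) (by omega)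
    (by omega) (by omega)
  obtain ⟨u1, u2, hu1, hu2, hd, huY⟩ := wallU ha hst'' hT hA hU hUU (A' := A' - 1) (by omega)
    (by omega) (by omega)
  rcases le_total s1 s with hle | hle
  · obtain ⟨r, rfl⟩ : ∃ r, s = r + s1 := ⟨s - s1, by omega⟩
    rw [orb_add]
    have hcol : ∀ q ≤ r, A' - 1 + 1 ≤ (orb F (orb F (st0 A' y') s1) q).1.1 ∧
        (orb F (orb F (st0 A' y') s1) q).1.1 ≤ X'' - 1 := by
      intro q hq
      have := hs.stay (q + s1) (by omega)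
      rw [orb_add] at this
      omega
    exact ⟨conf_low (by omega) hy2 hr hcol h1,
      conf_up (by omega) (by omega) hu1 hd hcol h2⟩
  · obtain ⟨r, hr'⟩ : ∃ r, s1 = r + s := ⟨s1 - s, by omega⟩
    rw [hr', orb_add] at h1 h2
    have hcol : ∀ q ≤ r, A' - 1 + 1 ≤ (orb F (orb F (st0 A' y') s) q).1.1 ∧
        (orb F (orb F (st0 A' y') s) q).1.1 ≤ X'' - 1 := by
      intro q hq
      have := hs.stay (q + s) (by omega)
      rw [orb_add] at this
      omega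
    exact ⟨conf_low_rev (by omega) hy2 hr hcol h1,
      conf_up_rev (by omega) (by omega) hu1 hd hcol h2⟩

/-- The positions in the middle of the tube are isolated. -/
theorem isol {F : Set Edg} {X Y : ℤ} {a m kk : ℕ} {N : ℝ} (ha : 1 ≤ a)
    (ham : 40 * a ≤ m) (hmk : m ≤ a * kk) (hLL : LgL X Y a m F) (hUU : LgU X Y a m F)
    (hAL : ArL X Y a m F) (hAU : ArU X Y a m F) (hN : Cn X Y a m kk F ≤ N) {v : Vtx}
    (hv : (X + 39 * m ≤ v.1 ∧ v.1 ≤ X + 41 * m) ∧ (Y - 8 * a ≤ v.2 ∧ v.2 ≤ Y + 8 * a)) :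
    Is (12 * m) (32 * m) N F v := by
  classical
  have ha' : (1 : ℤ) ≤ a := by exact_mod_cast ha
  have ham' : 40 * (a : ℤ) ≤ m := by exact_mod_cast ham
  intro W hW
  refine le_trans ?_ hN
  -- the walls
  have hBu : ∃ y1 y2 : ℤ, (Y + 4 * a ≤ y1 ∧ y1 ≤ Y + 8 * a) ∧ (Y + 4 * a ≤ y2 ∧ y2 ≤ Y + 8 * a) ∧
      DReach (dE (LRE (X + 22 * m) (X + 58 * m) (Y + 4 * a) (Y + 8 * a)) \ F)
        (X + 22 * m, y1) (X + 58 * m, y2) := by
    obtain ⟨⟨u1, u2, hr⟩, -⟩ := hUU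
    obtain ⟨z1, z2, hz1, hz2, h4, -⟩ := sub_LR (a := X + 22 * m) (b := X + 58 * m)
      (c := Y + 4 * a) (d := Y + 8 * a) (by omega) (by
        rintro x y ⟨-, h⟩ _ _
        rw [Finset.mem_coe, mem_LRE_true] at h; omega) (by
        rintro x y ⟨-, h⟩ _ _
        rw [Finset.mem_coe, mem_LRE_false] at h; omega) (hreach_iff.2 hr) (by simp only; omega)
      (by simp only; omega)
    exact ⟨z1, z2, hz1, hz2, hreach_iff.1 (h4.mono (by
      rintro e ⟨⟨h5, -⟩, h6⟩; exact ⟨h5, h6⟩))⟩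
  have hTl : ∃ y1 y2 : ℤ, (Y - 8 * a ≤ y1 ∧ y1 ≤ Y - 4 * a) ∧ (Y - 8 * a ≤ y2 ∧ y2 ≤ Y - 4 * a) ∧
      Reach (F ∩ ↑(LRE (X + 22 * m) (X + 58 * m) (Y - 8 * a) (Y - 4 * a)))
        (X + 22 * m, y1) (X + 58 * m, y2) := by
    obtain ⟨⟨u1, u2, hr⟩, -⟩ := hLL
    obtain ⟨z1, z2, hz1, hz2, h4, -⟩ := sub_LR (a := X + 22 * m) (b := X + 58 * m)
      (c := Y - 8 * a) (d := Y - 4 * a) (by omega) (by
        rintro x y ⟨-, h⟩ _ _
        rw [Finset.mem_coe, mem_LRE_true] at h; omega) (by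
        rintro x y ⟨-, h⟩ _ _
        rw [Finset.mem_coe, mem_LRE_false] at h; omega) hr (by simp only; omega)
      (by simp only; omega)
    exact ⟨z1, z2, hz1, hz2, h4.mono (by
      rintro e ⟨⟨h5, -⟩, h6⟩; exact ⟨h5, h6⟩)⟩
  -- the states are in the tube
  have hin : ∀ σ ∈ W, (X + 27 * m ≤ σ.1.1 ∧ σ.1.1 ≤ X + 53 * m) ∧
      (Y - 8 * a ≤ σ.1.2 ∧ σ.1.2 ≤ Y + 8 * a) ∧ Two σ.1 (face σ) a F := by
    intro σ hσ
    obtain ⟨h1, h2⟩ := hW σ hσ
    rw [det_sd_eq] at h1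
    have hc : X + 27 * m ≤ σ.1.1 ∧ σ.1.1 ≤ X + 53 * m := by omega
    have hf := face_col σ
    refine ⟨hc, ?_, two_anti (by omega) h2⟩
    obtain ⟨⟨w, hw1, hw2⟩, g, hg1, hg2⟩ := h2
    constructor
    · by_contra hcon
      refine bar_low (F := F) (p1 := X + 22 * m) (p2 := X + 26 * m) (p3 := X + 54 * m)
        (p4 := X + 58 * m) (c1 := Y - 18 * m) (c2 := Y - 14 * m) (d1 := Y - 8 * a)
        (d2 := Y - 4 * a) (by omega) (by omega) hAL.1 hAL.2.1 hTl hAL.2.2 (f := face σ) (g := g)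
        ⟨by omega, by omega⟩ ?_ hg2
      unfold FarF inF at hg1
      omega
    · by_contra hcon
      refine bar_up (F := F) (p1 := X + 22 * m) (p2 := X + 26 * m) (p3 := X + 54 * m)
        (p4 := X + 58 * m) (c1 := Y + 4 * a) (c2 := Y + 8 * a) (d1 := Y + 14 * m)
        (d2 := Y + 18 * m) (by omega) (by omega) hAU.1 hAU.2.1 hAU.2.2 hBu (u := σ.1) (w := w)
        ⟨by omega, by omega⟩ ?_ hw2
      unfold Far at hw1
      omega
  -- counting
  obtain ⟨W0, hW0⟩ : ∃ W0 : Finset Vtx, W0 = Finset.Icc (X + 27 * m) (X + 53 * m) ×ˢ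
    Finset.Icc (Y - 8 * a) (Y + 8 * a) := ⟨_, rfl⟩
  have hWm : ∀ v : Vtx, v ∈ W0 ↔ (X + 27 * m ≤ v.1 ∧ v.1 ≤ X + 53 * m) ∧
      (Y - 8 * a ≤ v.2 ∧ v.2 ≤ Y + 8 * a) := by
    intro v
    rw [hW0, mem_product, mem_Icc, mem_Icc]
  refine le_trans ?_ (cn_ge (Y := Y) (X := X) ha hmk (F := F) (W := W0) (fun v hv => by
    have := (hWm v).1 hv
    omega))
  have h1 : ∀ v ∈ W0, xw (RB X Y m) a v F = ∑ q : Q4, ind (Two v (face (v, q)) a F) := by
    intro v hv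
    have hv' := (hWm v).1 hv
    unfold xw
    rw [if_pos]
    unfold RB
    exact RE_sub_RE (by omega) (by omega) (by omega) (by omega)
  rw [sum_congr rfl h1]
  obtain ⟨P, hP⟩ : ∃ P : St → Prop, P = fun σ => Two σ.1 (face σ) a F := ⟨_, rfl⟩
  have h2 : ∑ v ∈ W0, ∑ q : Q4, ind (Two v (face (v, q)) a F) =
      (((W0 ×ˢ (Finset.univ : Finset Q4)).filter P).card : ℝ) := by
    rw [← sum_product' (f := fun v q => ind (Two v (face (v, q)) a F)), card_filter]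
    push_cast
    refine sum_congr rfl fun σ _ => ?_
    rw [hP]
    obtain ⟨v, q⟩ := σ
    by_cases h : Two v (face (v, q)) a F
    · rw [ind_of h, if_pos h]
    · rw [ind_not_of h, if_neg h]
  rw [h2]
  have h3 : W ⊆ (W0 ×ˢ (Finset.univ : Finset Q4)).filter P := by
    intro σ hσ
    obtain ⟨h4, h5, h6⟩ := hin σ hσ
    rw [mem_filter, mem_product, hWm, hP]
    exact ⟨⟨⟨h4, h5⟩, mem_univ _⟩, h6⟩
  exact_mod_cast Finset.card_le_card h3

open Classical in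
/-- The trial event. -/
def Qp (a m kk : ℕ) (M N : ℝ) : TEv := fun A y0 X Y T F =>
  (BaseL A y0 X Y T a a F ∧ BaseU A y0 X Y T a a F) ∧ (LgL X Y a m F ∧ LgU X Y a m F) ∧
    (ArL X Y a m F ∧ ArU X Y a m F) ∧
    (1 ≤ ((Wr X Y a m).filter (fun v => RA v a F)).card ∧
    M + 1 ≤ (((Wr X Y a m).filter (fun v => RA v a F)).card : ℝ)) ∧ Cn X Y a m kk F ≤ N

/-- The deterministic statement about a successful trial. -/
theorem pk_det {F : Set Edg} {A y0 X Y X' Y' : ℤ} {T T' a m kk : ℕ} {M N : ℝ} (ha : 1 ≤ a)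
    (ham : 40 * a ≤ m) (hmk : m ≤ a * kk)
    (hst : Strand F A y0 X Y T) (hst' : Strand F A y0 X' Y' T')
    (hX' : X + 60 * m ≤ X') (hA : A + 60 * a ≤ X) (hQ : Qp a m kk M N A y0 X Y T F) :
    gI (2 * m) (12 * m) (32 * m) M N F (fun s => (orb F (st0 A y0) s).1) T' := by
  classical
  have ha' : (1 : ℤ) ≤ a := by exact_mod_cast ha
  have ham' : 40 * (a : ℤ) ≤ m := by exact_mod_cast ham
  obtain ⟨⟨hL, hU⟩, ⟨hLL, hUU⟩, ⟨hAL, hAU⟩, ⟨hne, hM⟩, hN⟩ := hQ
  obtain ⟨X'', hX''⟩ : ∃ X'' : ℤ, X'' = X + 41 * m := ⟨_, rfl⟩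
  obtain ⟨A', hA'⟩ : ∃ A' : ℤ, A' = X + 39 * m := ⟨_, rfl⟩
  obtain ⟨Y'', T'', hst'', hTT'⟩ := strand_mid hst' (X := X'') (by omega) (by omega)
  have hTT : T ≤ T'' := strand_le hst hst'' (by omega)
  obtain ⟨y', t0, t, htt, hs, horb0⟩ := strand_sub hst'' (A' := A') (by omega) (by omega)
  obtain ⟨V, hV⟩ : ∃ V, V = (Wr X Y a m).filter (fun v => RA v a F) := ⟨_, rfl⟩
  rw [← hV] at hne hM
  have key : ∀ v ∈ V, ∃ s < t, ae (orb F (st0 A' y') s) = (v.1, v.2, true) := by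
    intro v hv
    rw [hV, mem_filter] at hv
    exact row_exm ha ham hst'' hTT hX'' hA hA' hL hLL hU hUU hs hv.1 hv.2
  choose! τ hτ1 hτ2 using key
  have hVne : V.Nonempty := Finset.card_pos.1 hne
  have hIne : (V.image τ).Nonempty := hVne.image τ
  obtain ⟨i, hi⟩ : ∃ i, i = (V.image τ).min' hIne := ⟨_, rfl⟩
  obtain ⟨j, hj⟩ : ∃ j, j = (V.image τ).max' hIne := ⟨_, rfl⟩
  have hi1 : i ∈ V.image τ := by rw [hi]; exact Finset.min'_mem _ _
  have hj1 : j ∈ V.image τ := by rw [hj]; exact Finset.max'_mem _ _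
  have hij : i ≤ j := by rw [hi]; exact Finset.min'_le _ _ hj1
  have hjt : j < t := by
    rw [mem_image] at hj1
    obtain ⟨v, hv, h⟩ := hj1
    rw [← h]
    exact hτ1 v hv
  have hcard : V.card ≤ j - i + 1 := by
    have h1 : (V.image τ) ⊆ Finset.Icc i j := by
      intro s hs
      rw [mem_Icc, hi, hj]
      exact ⟨Finset.min'_le _ _ hs, Finset.le_max' _ _ hs⟩
    have h2 := Finset.card_le_card h1
    rw [Finset.card_image_of_injOn, Nat.card_Icc] at h2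
    · omega
    · intro u hu v hv huv
      have h3 := hτ2 u hu
      have h4 := hτ2 v hv
      rw [huv, h4] at h3
      simp only [Prod.mk.injEq, and_true] at h3
      exact Prod.ext h3.1.symm h3.2.symm
  have hconf : ∀ s < t, Y - 8 * a ≤ (orb F (st0 A' y') s).1.2 ∧
      (orb F (st0 A' y') s).1.2 ≤ Y + 8 * a := by
    intro s hst2
    rw [mem_image] at hi1
    obtain ⟨v, hv, h⟩ := hi1
    have hv2 := hτ2 v hv
    have hv3 : v ∈ Wr X Y a m := by
      rw [hV, mem_filter] at hv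
      exact hv.1
    rw [mem_Wr] at hv3
    have hb : Y - 4 * a ≤ (face (orb F (st0 A' y') (τ v))).2 ∧
        (orb F (st0 A' y') (τ v)).1.2 ≤ Y + 4 * a := by
      rcases ae_at hv2 with ⟨h5, h6⟩ | ⟨h5, h6⟩
      · rw [h5, h6]; omega
      · rw [h5, h6]; simp only; omega
    exact conf_subI ha ham hst'' hTT hX'' hA hA' hL hLL hU hUU hs (hτ1 v hv) hb.1 hb.2 hst2
  have horb : ∀ s, orb F (st0 A y0) (s + t0) = orb F (st0 A' y') s := by
    intro s
    rw [orb_add, horb0]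
  refine ⟨i + t0, j + t0, by omega, by omega, ?_, ?_, ?_⟩
  · rw [show j + t0 - (i + t0) = j - i by omega]
    have h1 : (V.card : ℝ) ≤ ((j - i : ℕ) : ℝ) + 1 := by exact_mod_cast hcard
    linarith
  · intro s hs1 hs2
    obtain ⟨u, rfl⟩ : ∃ u, s = u + t0 := ⟨s - t0, by omega⟩
    simp only [horb]
    have h1 := hconf i (by omega)
    have h2 := hconf u (by omega)
    have h3 := hs.stay i (by omega)
    have h4 := hs.stay u (by omega)
    rw [det_sd_eq]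
    omega
  · simp only [horb]
    have h1 := hconf i (by omega)
    have h3 := hs.stay i (by omega)
    exact isol ha ham hmk hLL hUU hAL hAU hN ⟨⟨by omega, by omega⟩, h1⟩

theorem Qp_det {a m kk K : ℕ} {M N : ℝ} (ha : 1 ≤ a) (ham : 40 * a ≤ m) (hmk : m ≤ a * kk) :
    DetI (Qp a m kk M N) m K (gI (2 * m) (12 * m) (32 * m) M N) := by
  intro F A y0 Y T j Yj Tj hst hj hjK hstj hTj hQ
  have ha1 : (1 : ℤ) ≤ a := by exact_mod_cast ha
  have hm1 : 40 * (a : ℤ) ≤ m := by exact_mod_cast ham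
  have hj' : (1 : ℤ) ≤ j := by exact_mod_cast hj
  have hjK' : (j : ℤ) + 1 ≤ K := by exact_mod_cast hjK
  have e1 : 121 * (m : ℤ) ≤ 121 * (m : ℤ) * j := by nlinarith
  have e2 : 121 * (m : ℤ) * j + 121 * (m : ℤ) ≤ 121 * (m : ℤ) * K := by nlinarith
  refine pk_det ha ham hmk hstj hst ?_ ?_ hQ
  · linarith
  · linarith

end Pool.Agent.K9h27.PK
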