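import Pool.Agent.K9h27.PK.Bad
import Pool.Agent.R965.CS.Lat

/-!
Few isolated fast pieces: probability at mesh `δ` (adaptation of `Pool.Agent.R965.CS.Lat`).
-/

set_option autoImplicit false
set_option linter.unusedVariables false
set_option maxHeartbeats 4000000

namespace Pool.Agent.K9h27.PK

open H974 Finset H342P H984P H984N Y994.MC Pool.Agent.Y985.ME Pool.Agent.Y884.ME
open Pool.Agent.Y995.FS Pool.Agent.Y995.HG MeasureTheory Filter Topology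
open Pool.Agent.Y41.EV

/-- probability at mesh `δ` -/
def LatP (κ θ K3 A0 : ℝ) (R : Rect) (A : ℝ) : Prop :=
  ∀ (kk N : ℕ) (w ρ : ℝ), 80 ≤ kk → 36 ≤ N → 0 < w → w ≤ 1/2 →
    A0 * (w * Real.exp (2 * (K3 * (kk:ℝ)))) ≤ ρ → ∃ δ1 : ℝ, 0 < δ1 ∧
    ∀ δ : ℝ, 0 < δ → δ ≤ δ1 →
      R.prob δ (fun F => (R.curve δ F, R.time δ F) ∈ BadP R ρ w (5 / 4 * w)
        (κ * ((kk : ℝ) ^ (-(3/4) : ℝ) * w ^ (7/4 : ℝ)))
        (θ * ((kk : ℝ) ^ (-(3/4) : ℝ) * w ^ (7/4 : ℝ)))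
        (A0 * ((w * Real.exp (2 * (K3 * (kk:ℝ)))) ^ (7/4 : ℝ) * N)) N) ≤
        A / w ^ 2 * (1/2) ^ N

theorem kk_pow {kk : ℝ} (hk : 0 < kk) {w : ℝ} (hw : 0 ≤ w) :
    kk * (w / kk) ^ (7/4 : ℝ) = kk ^ (-(3/4) : ℝ) * w ^ (7/4 : ℝ) := by
  rw [Real.div_rpow hw hk.le, show (-(3/4) : ℝ) = 1 - 7/4 by norm_num, Real.rpow_sub hk,
    Real.rpow_one]
  ring

theorem lat_p {c C : ℝ} (hc : 0 < c) (hC : 0 < C) (hL : LowA c (1/4)) (hU : TwoUp C (1/4)) :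
    ∃ κ θ K3 A0 : ℝ, 0 < κ ∧ 0 < θ ∧ 1 ≤ K3 ∧ 1 ≤ A0 ∧ ∀ R : Rect, ∃ A : ℝ, 0 < A ∧
      LatP κ θ K3 A0 R A := by
  obtain ⟨κ0, θ, K3, A1, K1, hκ0, hθ, hK3, hA1, hK1, hpr⟩ := manyi hc hC hL hU
  obtain ⟨κ, hκ⟩ : ∃ κ : ℝ, κ = κ0 / 2 * (1 / 8) ^ (7/4 : ℝ) := ⟨_, rfl⟩
  have hκ' : 0 < κ := by rw [hκ]; positivity
  obtain ⟨A0, hA0⟩ : ∃ A0 : ℝ, A0 = max A1 (A1 ^ (7/4 : ℝ) * K1 * 98 + 2) := ⟨_, rfl⟩
  have hA01 : A1 ≤ A0 := by rw [hA0]; exact le_max_left _ _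
  have hA02 : A1 ^ (7/4 : ℝ) * K1 * 98 + 2 ≤ A0 := by rw [hA0]; exact le_max_right _ _
  refine ⟨κ, θ, K3, A0, hκ', hθ, hK3, hA1.trans hA01, fun R => ?_⟩
  obtain ⟨κs, S, δs, -, hS, hδs, -, hsh⟩ := R.shape
  refine ⟨20 * (10 * S + 1) ^ 2, by positivity, ?_⟩
  intro kk N w ρ hkk80 hN hw0 hw1 hρ
  obtain ⟨EE, hEE⟩ : ∃ EE : ℝ, EE = Real.exp (2 * (K3 * (kk:ℝ))) := ⟨_, rfl⟩
  have hEE1 : 1 ≤ EE := by rw [hEE]; exact Real.one_le_exp (by positivity)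
  have hEE0 : 0 < EE := by linarith
  rw [← hEE] at hρ ⊢
  have hkR : (80 : ℝ) ≤ kk := by exact_mod_cast hkk80
  have hk0 : (0 : ℝ) < kk := by linarith
  have hNR : (36 : ℝ) ≤ N := by exact_mod_cast hN
  obtain ⟨η, hη⟩ : ∃ η : ℝ, η = κ * ((kk : ℝ) ^ (-(3/4) : ℝ) * w ^ (7/4 : ℝ)) := ⟨_, rfl⟩
  have hη0 : 0 < η := by rw [hη]; positivity
  rw [← hη]
  obtain ⟨δ2, hδ2, hδ2'⟩ : ∃ δ2 : ℝ, 0 < δ2 ∧ ∀ δ : ℝ, 0 < δ → δ ≤ δ2 → δ ^ (7/4 : ℝ) ≤ η := by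
    refine ⟨η ^ (4/7 : ℝ), by positivity, fun δ hδ hle => ?_⟩
    have h2 := Real.rpow_le_rpow hδ.le hle (show (0 : ℝ) ≤ 7/4 by norm_num)
    rw [← Real.rpow_mul hη0.le] at h2
    norm_num at h2
    exact h2
  refine ⟨min (min δs δ2) (w / (1000 * kk)), lt_min (lt_min hδs hδ2) (by positivity),
    fun δ hδ hδ' => ?_⟩
  have hδa : δ ≤ δs := hδ'.trans ((min_le_left _ _).trans (min_le_left _ _))
  have hδb : δ ≤ δ2 := hδ'.trans ((min_le_left _ _).trans (min_le_right _ _))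
  have hδc : δ ≤ w / (1000 * kk) := hδ'.trans (min_le_right _ _)
  have hδ3 : 1000 * kk * δ ≤ w := by
    rw [le_div_iff₀ (by positivity)] at hδc
    linarith
  have hδ4 : 80000 * δ ≤ w := by nlinarith
  have hη2 := hδ2' δ hδ hδb
  obtain ⟨m, hm⟩ : ∃ m : ℕ, m = ⌊(w / δ - 1) / 4⌋₊ := ⟨_, rfl⟩
  have hwδ : 1000 * kk ≤ w / δ := by rw [le_div_iff₀ hδ]; linarith
  have hmx0 : 0 ≤ (w / δ - 1) / 4 := by
    apply div_nonneg _ (by norm_num)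
    linarith
  have hma : (m : ℝ) ≤ (w / δ - 1) / 4 := by rw [hm]; exact Nat.floor_le hmx0
  have hmb : (w / δ - 1) / 4 < m + 1 := by rw [hm]; exact Nat.lt_floor_add_one _
  have hmc : (4 * (m : ℝ) + 1) * δ ≤ w := by
    have : 4 * (m : ℝ) + 1 ≤ w / δ := by linarith
    rwa [le_div_iff₀ hδ] at this
  have hmd : w < (4 * (m : ℝ) + 5) * δ := by
    have : w / δ < 4 * (m : ℝ) + 5 := by linarith
    rwa [div_lt_iff₀ hδ] at this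
  have hmk2 : 100 * (kk : ℝ) ≤ m := by linarith
  have hmkN : 100 * kk ≤ m := by exact_mod_cast hmk2
  have hm8000 : 8000 ≤ m := by omega
  have hm8 : (8000 : ℝ) ≤ m := by exact_mod_cast hm8000
  have hm0 : (0 : ℝ) < m := by linarith
  have hmw : m * δ ≤ w / 4 := by nlinarith
  have hwm : w / 8 ≤ m * δ := by nlinarith
  obtain ⟨a, ha⟩ : ∃ a : ℕ, a = m / kk + 1 := ⟨_, rfl⟩
  have ha1 : 1 ≤ a := by rw [ha]; exact Nat.le_add_left _ _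
  have hkpos : 0 < kk := by omega
  have hak1 : m ≤ a * kk := by
    have := Nat.lt_mul_div_succ m hkpos
    rw [ha, mul_comm]
    exact this.le
  have hdiv : kk * (m / kk) ≤ m := Nat.mul_div_le m kk
  have hak2 : a * kk ≤ 2 * m := by
    have : a * kk = kk * (m / kk) + kk := by rw [ha]; ring
    omega
  have ham : 40 * a ≤ m := by
    have h1 : 80 * (m / kk) ≤ kk * (m / kk) := Nat.mul_le_mul_right _ hkk80
    omega
  have haR1 : (m : ℝ) / kk ≤ a := by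
    rw [div_le_iff₀ hk0]; exact_mod_cast hak1
  have haR2 : (a : ℝ) ≤ 2 * m / kk := by
    rw [le_div_iff₀ hk0]; exact_mod_cast hak2
  have ha0 : (0 : ℝ) < a := by exact_mod_cast ha1
  have hδ7 : 0 < δ ^ (7/4 : ℝ) := Real.rpow_pos_of_pos hδ _
  obtain ⟨M, hM⟩ : ∃ M : ℝ, M = κ0 * kk * (a : ℝ) ^ (7/4 : ℝ) := ⟨_, rfl⟩
  obtain ⟨N1, hN1⟩ : ∃ N1 : ℝ, N1 = θ * kk * (a : ℝ) ^ (7/4 : ℝ) := ⟨_, rfl⟩
  have hMδ : 2 * η ≤ M * δ ^ (7/4 : ℝ) := by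
    have h2 : (w / 8 / kk) ^ (7/4 : ℝ) ≤ (a : ℝ) ^ (7/4 : ℝ) * δ ^ (7/4 : ℝ) := by
      rw [← Real.mul_rpow ha0.le hδ.le]
      refine Real.rpow_le_rpow (by positivity) ?_ (by norm_num)
      calc w / 8 / kk ≤ m * δ / kk := div_le_div_of_nonneg_right hwm hk0.le
        _ = m / kk * δ := by ring
        _ ≤ a * δ := mul_le_mul_of_nonneg_right haR1 hδ.le
    have e1 := kk_pow hk0 (show (0:ℝ) ≤ w / 8 by positivity)
    have e2 : (w / 8) ^ (7/4 : ℝ) = (1 / 8) ^ (7/4 : ℝ) * w ^ (7/4 : ℝ) := by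
      rw [← Real.mul_rpow (by norm_num) hw0.le]; congr 1; ring
    rw [hη, hκ, hM]
    calc 2 * (κ0 / 2 * (1 / 8) ^ (7/4 : ℝ) * ((kk : ℝ) ^ (-(3/4) : ℝ) * w ^ (7/4 : ℝ)))
        = κ0 * ((kk : ℝ) ^ (-(3/4) : ℝ) * (w / 8) ^ (7/4 : ℝ)) := by rw [e2]; ring
      _ = κ0 * (kk * (w / 8 / kk) ^ (7/4 : ℝ)) := by rw [e1]
      _ ≤ κ0 * (kk * ((a : ℝ) ^ (7/4 : ℝ) * δ ^ (7/4 : ℝ))) := by gcongr
      _ = _ := by ring
  have hτ : η ≤ (M - 1) * δ ^ (7/4 : ℝ) := by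
    have : (M - 1) * δ ^ (7/4 : ℝ) = M * δ ^ (7/4 : ℝ) - δ ^ (7/4 : ℝ) := by ring
    rw [this]
    linarith
  have hτ2 : N1 * δ ^ (7/4 : ℝ) ≤ θ * ((kk : ℝ) ^ (-(3/4) : ℝ) * w ^ (7/4 : ℝ)) := by
    have h2 : (a : ℝ) ^ (7/4 : ℝ) * δ ^ (7/4 : ℝ) ≤ (w / kk) ^ (7/4 : ℝ) := by
      rw [← Real.mul_rpow ha0.le hδ.le]
      refine Real.rpow_le_rpow (by positivity) ?_ (by norm_num)
      calc a * δ ≤ 2 * m / kk * δ := mul_le_mul_of_nonneg_right haR2 hδ.le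
        _ = 2 * (m * δ) / kk := by ring
        _ ≤ w / kk := div_le_div_of_nonneg_right (by linarith) hk0.le
    rw [hN1, ← kk_pow hk0 hw0.le]
    calc θ * kk * (a : ℝ) ^ (7/4 : ℝ) * δ ^ (7/4 : ℝ) =
        θ * kk * ((a : ℝ) ^ (7/4 : ℝ) * δ ^ (7/4 : ℝ)) := by ring
      _ ≤ θ * kk * (w / kk) ^ (7/4 : ℝ) := by gcongr
      _ = _ := by ring
  obtain ⟨W, L, hW, hLm, hWA, hpr2⟩ := hpr a m kk ha1 ham hak1 hak2 (by omega)
  have hWm : 120 * m ≤ W := by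
    have h2 : (120 : ℤ) * m ≤ W := by omega
    exact_mod_cast h2
  have hW1 : 1 ≤ W := by omega
  have hW0 : (0 : ℝ) < W := by exact_mod_cast hW1
  have hWL : (W : ℝ) = 2 * (L : ℝ) := by exact_mod_cast hW
  rw [← hEE] at hWA
  have hshape := hsh δ hδ hδa
  have hok := hshape.ok
  have hbd := hpr2 (R.dm δ) hok N hN
  rw [← hM, ← hN1] at hbd
  have hWδ : (W : ℝ) * δ ≤ A1 * (w * EE) / 4 := by
    have h2 : (W : ℝ) * δ ≤ A1 * (m * EE) * δ := mul_le_mul_of_nonneg_right hWA hδ.le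
    have h3 : A1 * (m * EE) * δ = (A1 * EE) * (m * δ) := by ring
    have h4 : (A1 * EE) * (m * δ) ≤ (A1 * EE) * (w / 4) :=
      mul_le_mul_of_nonneg_left hmw (by positivity)
    calc (W : ℝ) * δ ≤ (A1 * EE) * (m * δ) := by linarith
      _ ≤ (A1 * EE) * (w / 4) := h4
      _ = _ := by ring
  have hwE : w ≤ w * EE := by nlinarith
  have hwE0 : 0 < w * EE := by positivity
  have hAw : w * EE ≤ A1 * (w * EE) := by nlinarith
  have hAw2 : A1 * (w * EE) ≤ A0 * (w * EE) := mul_le_mul_of_nonneg_right hA01 hwE0.le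
  refine le_trans (Pr_mono (okq (by norm_num) (by norm_num))
    (B := FewI (R.dm δ) L W (2 * m) (12 * m) (32 * m) N K1 (M - 1) N1) (fun F hFs hF => ?_))
    (hbd.trans ?_)
  · refine badP_mesh hδ hok hFs ?_ (by positivity) ?_ (by omega) (by omega) hτ hτ2 hK1 ?_ ?_ hF
    · push_cast
      linarith
    · push_cast
      nlinarith
    · have e : δ * (4 * (L : ℝ)) = 2 * (W * δ) := by rw [hWL]; ring
      rw [e]
      linarith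
    · have h2 : (W : ℝ) ^ (7/4 : ℝ) * δ ^ (7/4 : ℝ) ≤ A1 ^ (7/4 : ℝ) * (w * EE) ^ (7/4 : ℝ) := by
        rw [← Real.mul_rpow hW0.le hδ.le, ← Real.mul_rpow (by linarith) hwE0.le]
        exact Real.rpow_le_rpow (by positivity) (by linarith) (by norm_num)
      have h3 : δ ^ (7/4 : ℝ) ≤ (w * EE) ^ (7/4 : ℝ) :=
        Real.rpow_le_rpow hδ.le (by linarith) (by norm_num)
      have h5 : 0 < (w * EE) ^ (7/4 : ℝ) := by positivity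
      calc ((W : ℝ) ^ (7/4 : ℝ) * (K1 * (98 * N)) + 2) * δ ^ (7/4 : ℝ)
          = (W : ℝ) ^ (7/4 : ℝ) * δ ^ (7/4 : ℝ) * (K1 * (98 * N)) + 2 * δ ^ (7/4 : ℝ) := by ring
        _ ≤ A1 ^ (7/4 : ℝ) * (w * EE) ^ (7/4 : ℝ) * (K1 * (98 * N)) +
            2 * (w * EE) ^ (7/4 : ℝ) :=
            add_le_add (mul_le_mul_of_nonneg_right h2 (by positivity)) (by linarith)
        _ ≤ A1 ^ (7/4 : ℝ) * (w * EE) ^ (7/4 : ℝ) * (K1 * (98 * N)) +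
            2 * (w * EE) ^ (7/4 : ℝ) * N :=
            add_le_add le_rfl (le_mul_of_one_le_right (by positivity) (by linarith))
        _ = (A1 ^ (7/4 : ℝ) * K1 * 98 + 2) * ((w * EE) ^ (7/4 : ℝ) * N) := by ring
        _ ≤ A0 * ((w * EE) ^ (7/4 : ℝ) * N) := mul_le_mul_of_nonneg_right hA02 (by positivity)
  · have h2 := (SB_card hok hW1 hshape.w_le hshape.h_le).1
    have h3 : S / δ / W + 2 ≤ (10 * S + 1) / w := by
      have h4 : S / δ / W ≤ 10 * S / w := by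
        rw [div_div, div_le_div_iff₀ (by positivity) hw0]
        have h5 : 120 * (m : ℝ) ≤ W := by exact_mod_cast hWm
        have h6 : δ * (120 * (m : ℝ)) ≤ δ * W := mul_le_mul_of_nonneg_left h5 hδ.le
        have h7 : w ≤ 10 * (δ * W) := by linarith
        calc S * w ≤ S * (10 * (δ * W)) := mul_le_mul_of_nonneg_left h7 hS.le
          _ = _ := by ring
      have h6 : 2 ≤ 1 / w := by rw [le_div_iff₀ hw0]; linarith
      have e : (10 * S + 1) / w = 10 * S / w + 1 / w := add_div _ _ _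
      linarith
    have h7 : (0:ℝ) ≤ S / δ / W + 2 := by positivity
    have h4 : ((Y994.MC.SB (R.dm δ) W).card : ℝ) ≤ ((10 * S + 1) / w) ^ 2 :=
      h2.trans (pow_le_pow_left₀ h7 h3 2)
    calc ((Y994.MC.SB (R.dm δ) W).card : ℝ) * (20 * (1/2) ^ N) ≤
          ((10 * S + 1) / w) ^ 2 * (20 * (1/2) ^ N) :=
          mul_le_mul_of_nonneg_right h4 (by positivity)
      _ = 20 * (10 * S + 1) ^ 2 / w ^ 2 * (1/2) ^ N := by rw [div_pow]; ring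

end Pool.Agent.K9h27.PK
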