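import Pool.Agent.K9h27.PK.Tree
import Pool.Agent.K9h27.PK.Lat
import Pool.Agent.R965.EV.Scales
import Pool.Agent.R965.CS.Typ

/-!
Almost every time is in infinitely many isolated fast pieces.
-/

set_option autoImplicit false
set_option linter.unusedVariables false

namespace Pool.Agent.K9h27.PK

open MeasureTheory Filter Topology Pool.Agent.Y995.FS Pool.Agent.Y995.HG H984N
open Pool.Agent.Y41.EV Pool.Agent.R965.CS Pool.Agent.R965.EV
open scoped ENNReal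

/-- the bad set of the scale `i` -/
def BadPI (κ θ K3 A0 : ℝ) (R : Rect) (ρ : ℝ) (i : ℕ) : Set X :=
  BadP R ρ (ww i) (5 / 4 * ww i) (tau κ K3 i) (tau θ K3 i) (ell A0 K3 i) (NN i)

theorem ae_typ {κ θ K3 A0 A : ℝ} (hθ : 0 < θ) (hK : 1 ≤ K3) (hA0 : 1 ≤ A0) {R : Rect}
    (hA : 0 < A) (hlat : LatP κ θ K3 A0 R A) {δ : ℕ → ℝ} (hδ : ∀ i, 0 < δ i)
    (hlim : Tendsto δ atTop (𝓝 0))
    {μ : ProbabilityMeasure X} (hμ : Tendsto (fun i => R.law (δ i)) atTop (𝓝 μ)) :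
    ∀ᵐ p ∂(μ : Measure X), ∀ k : ℕ, ∀ᶠ i : ℕ in atTop,
      p ∉ BadPI κ θ K3 A0 R (1 / ((k : ℝ) + 1)) i := by
  obtain ⟨q1, q2, q3, q4, q5, q6⟩ := sc3 θ K3 A0 hθ hK hA0
  refine bc R (K := 1) le_rfl (B := fun ρ i => BadPI κ θ K3 A0 R ρ i)
    (fun ρ i => badP_open R _ _ _ _ _ _ _) (fun ρ hρ => ?_) hδ hlim hμ
  have h1 : ∀ᶠ i : ℕ in atTop, 20 ≤ i ∧ 80 ≤ kf K3 i ∧ A0 * (ww i * EE K3 i) ≤ ρ :=
    (eventually_ge_atTop 20).and ((q3.eventually (eventually_ge_atTop 80)).and (q6 ρ hρ))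
  rw [eventually_atTop] at h1
  obtain ⟨j1, hj1⟩ := h1
  refine ⟨A, j1, hA, fun j hj => ?_⟩
  obtain ⟨g1, g2, g3⟩ := hj1 j hj
  obtain ⟨δ1, hδ1, h4⟩ := hlat (kf K3 j) (NN j) (ww j) ρ g2
    (by have := NN_big g1; omega) (ww_pos j)
    (by
      have h5 : ww j ≤ (1/2) ^ 1 := by
        unfold ww
        refine pow_le_pow_of_le_one (by norm_num) (by norm_num) ?_
        have : 1 ≤ j ^ 2 := Nat.one_le_pow _ _ (by omega)
        omega
      simpa using h5) g3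
  refine ⟨δ1, hδ1, fun δ hδ hδ' => ?_⟩
  exact (h4 δ hδ hδ').trans (pr_bound hA g1)

/-- the pieces are short compared with the dyadic intervals -/
theorem ev_ell {K3 A0 T : ℝ} (hK : 1 ≤ K3) (hA : 0 < A0) (hT : 0 < T) : ∀ᶠ i : ℕ in atTop,
    ell A0 K3 i < T * (1/2) ^ lv i := by
  obtain ⟨i1, hi1⟩ := exists_nat_gt ((A0 / T) ^ 4)
  filter_upwards [eventually_ge_atTop (max i1 1)] with i hi
  have hi2 : 1 ≤ i := (le_max_right _ _).trans hi
  have hi3 : (A0 / T) ^ 4 < i := by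
    have : (i1 : ℝ) ≤ i := by exact_mod_cast (le_max_left _ _).trans hi
    linarith
  have hi0 : (0 : ℝ) < i := by exact_mod_cast hi2
  have hs : (0 : ℝ) < ((Nat.sqrt i : ℕ) : ℝ) + 1 := by positivity
  have h1 := EEp_le hK hi2
  have h2 := NN_le i
  have h3 := sq_ge i
  have h4 : (NN i : ℝ) * Real.sqrt i ≤ 2 ^ i :=
    (mul_le_mul_of_nonneg_left h3 (Nat.cast_nonneg _)).trans h2
  -- A0 < T i^(1/4)
  obtain ⟨y, hy⟩ : ∃ y : ℝ, y = (i : ℝ) ^ (1/4 : ℝ) := ⟨_, rfl⟩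
  have hy0 : 0 < y := by rw [hy]; positivity
  have hy4 : y ^ 4 = i := by
    rw [hy, ← Real.rpow_natCast, ← Real.rpow_mul hi0.le]
    norm_num
  have hy2 : Real.sqrt i = y ^ 2 := by
    rw [← hy4, show y ^ 4 = (y ^ 2) ^ 2 by ring, Real.sqrt_sq (by positivity)]
  have h5 : A0 < T * y := by
    have h6 : A0 / T < y := by
      rw [← hy4] at hi3
      exact lt_of_pow_lt_pow_left₀ 4 hy0.le hi3
    rw [div_lt_iff₀ hT] at h6
    linarith
  rw [ell_eq hK, lv_pow]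
  have hp : (0:ℝ) < (1/2) ^ (7 * i ^ 2) := by positivity
  have h7 : (NN i : ℝ) * y ^ 2 ≤ 2 ^ i := by rw [← hy2]; exact h4
  have hN0 : 0 < (NN i : ℝ) := by
    have h8 := NN_ge i
    have h9 : (0:ℝ) < 2 ^ i := by positivity
    by_contra hcon
    push Not at hcon
    have : (NN i : ℝ) = 0 := le_antisymm hcon (Nat.cast_nonneg _)
    rw [this] at h8
    linarith
  rw [← hy] at h1
  calc A0 * ((1/2) ^ (7 * i ^ 2) * EE K3 i ^ (7/4 : ℝ) * NN i)
      ≤ A0 * ((1/2) ^ (7 * i ^ 2) * y * NN i) := by gcongr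
    _ = ((1/2) ^ (7 * i ^ 2) * (NN i * y)) * A0 := by ring
    _ < ((1/2) ^ (7 * i ^ 2) * (NN i * y)) * (T * y) :=
        mul_lt_mul_of_pos_left h5 (by positivity)
    _ = T * ((1/2) ^ (7 * i ^ 2) * (NN i * y ^ 2)) := by ring
    _ ≤ T * ((1/2) ^ (7 * i ^ 2) * 2 ^ i) := by gcongr

theorem kf_le {K3 : ℝ} (hK : 1 ≤ K3) {i : ℕ} (hi : 1 ≤ i) : (kf K3 i : ℝ) ≤ Real.log i := by
  have hi' : (1:ℝ) ≤ i := by exact_mod_cast hi
  have hl : 0 ≤ Real.log i := Real.log_nonneg hi'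
  unfold kf
  have h1 : (⌊Real.log i / (14 * K3)⌋₊ : ℝ) ≤ Real.log i / (14 * K3) :=
    Nat.floor_le (by positivity)
  refine h1.trans ?_
  rw [div_le_iff₀ (by positivity)]
  nlinarith

/-- a lower bound for the power of the number of teeth -/
theorem kf_pow {K3 : ℝ} (hK : 1 ≤ K3) {i : ℕ} (hi : 1 ≤ i) (hk : 1 ≤ kf K3 i) :
    1 / (2 * Real.sqrt i) ≤ (kf K3 i : ℝ) ^ (-(3/4) : ℝ) := by
  have hi' : (1:ℝ) ≤ i := by exact_mod_cast hi
  have hk' : (1:ℝ) ≤ kf K3 i := by exact_mod_cast hk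
  have hs : 1 ≤ Real.sqrt i := by rw [Real.one_le_sqrt]; exact hi'
  have h1 : Real.log i ≤ 2 * Real.sqrt i := by
    have h2 : Real.log (i : ℝ) = 2 * Real.log (Real.sqrt i) := by
      rw [Real.log_sqrt (by linarith)]; ring
    rw [h2]
    have := Real.log_le_sub_one_of_pos (show (0:ℝ) < Real.sqrt i by linarith)
    linarith
  have h3 := kf_le hK hi
  have h4 : (kf K3 i : ℝ) ^ (3/4 : ℝ) ≤ 2 * Real.sqrt i := by
    have := Real.rpow_le_rpow_of_exponent_le hk' (show (3/4 : ℝ) ≤ 1 by norm_num)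
    rw [Real.rpow_one] at this
    linarith
  rw [Real.rpow_neg (by linarith), one_div]
  exact inv_anti₀ (by positivity) h4

theorem ev_small' {κ K3 T : ℝ} (hκ : 0 < κ) (hK : 1 ≤ K3) (hT : 0 < T)
    (hkf : Tendsto (kf K3) atTop atTop) : ∀ᶠ i : ℕ in atTop,
    12 * (T * (1/2) ^ lv (i + 1)) ≤ tau κ K3 i := by
  have h1 : Tendsto (fun i : ℕ => (12 * T) * ((1:ℝ)/2) ^ i) atTop (𝓝 ((12 * T) * 0)) :=
    half_tend.const_mul _
  rw [mul_zero] at h1
  filter_upwards [h1.eventually (ge_mem_nhds hκ), hkf.eventually (eventually_ge_atTop 1),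
    eventually_ge_atTop 1] with i h2 h3 hi
  have h4 : ((1:ℝ)/2) ^ lv (i + 1) ≤ (1/2) ^ (7 * i ^ 2) * ((1/2) ^ i * (1/2) ^ (i + 1)) := by
    rw [← pow_add, ← pow_add]
    refine pow_le_pow_of_le_one (by norm_num) (by norm_num) ?_
    have g1 := lv_eq i
    have g2 := lv_succ i
    omega
  have hi' : (1:ℝ) ≤ i := by exact_mod_cast hi
  have h5 := kf_pow hK hi h3
  have h6 : ((1:ℝ)/2) ^ (i + 1) ≤ (kf K3 i : ℝ) ^ (-(3/4) : ℝ) := by
    refine le_trans ?_ h5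
    have hs : Real.sqrt i ≤ 2 ^ i := by
      rw [Real.sqrt_le_left (by positivity)]
      have g : (i : ℝ) ≤ 2 ^ i := by exact_mod_cast (Nat.lt_two_pow_self (n := i)).le
      have g2 : (1:ℝ) ≤ 2 ^ i := one_le_pow₀ (by norm_num)
      nlinarith
    have hs0 : 0 < Real.sqrt i := Real.sqrt_pos.mpr (by linarith)
    rw [pow_succ, one_div, inv_pow, one_div, ← mul_inv, mul_comm 2 (Real.sqrt i)]
    exact inv_anti₀ (by positivity) (by linarith)
  unfold tau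
  rw [ww_pow]
  have hp : (0:ℝ) < (1/2) ^ (7 * i ^ 2) := by positivity
  calc 12 * (T * (1/2) ^ lv (i + 1)) ≤
        12 * (T * ((1/2) ^ (7 * i ^ 2) * ((1/2) ^ i * (1/2) ^ (i + 1)))) := by
        gcongr
    _ = (12 * T * (1/2) ^ i) * ((1/2) ^ (i + 1) * (1/2) ^ (7 * i ^ 2)) := by ring
    _ ≤ κ * ((1/2) ^ (i + 1) * (1/2) ^ (7 * i ^ 2)) :=
        mul_le_mul_of_nonneg_right h2 (by positivity)
    _ ≤ κ * ((kf K3 i : ℝ) ^ (-(3/4) : ℝ) * (1/2) ^ (7 * i ^ 2)) := by gcongr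

theorem gain_ok' {K3 κ T : ℝ} (hκ : 0 < κ) (hK : 1 ≤ K3) (hT : 0 < T) {i : ℕ} (hi : 1 ≤ i)
    (hk : 1 ≤ kf K3 i) :
    κ / (96 * T) / ((i : ℝ) + 1) * (1/2) ^ lv i ≤ NN i * tau κ K3 i / (6 * T) := by
  have h1 := NN_ge i
  have h2 := kf_pow hK hi hk
  have hi' : (1:ℝ) ≤ i := by exact_mod_cast hi
  have hs : 1 ≤ Real.sqrt i := by rw [Real.one_le_sqrt]; exact hi'
  have hss : Real.sqrt i * Real.sqrt i = i := Real.mul_self_sqrt (by linarith)
  have h3 := sq_le i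
  obtain ⟨y, hy⟩ : ∃ y : ℝ, y = Real.sqrt i := ⟨_, rfl⟩
  rw [← hy] at h2 h3 hs hss
  have hy0 : 0 < y := by linarith
  unfold tau
  rw [ww_pow, lv_pow]
  have hp : (0:ℝ) < (1/2) ^ (7 * i ^ 2) := by positivity
  obtain ⟨v, hv⟩ : ∃ v : ℝ, v = ((1:ℝ)/2) ^ (7 * i ^ 2) := ⟨_, rfl⟩
  rw [← hv] at hp ⊢
  have hN : (0:ℝ) ≤ NN i := Nat.cast_nonneg _
  have h5 : (2:ℝ) ^ i ≤ 4 * (NN i * y) := by nlinarith
  have h6 : (NN i : ℝ) * (1 / (2 * y)) ≤ NN i * (kf K3 i : ℝ) ^ (-(3/4) : ℝ) :=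
    mul_le_mul_of_nonneg_left h2 hN
  have h7 : (2:ℝ) ^ i / (8 * y ^ 2) ≤ NN i * (1 / (2 * y)) := by
    rw [div_le_iff₀ (by positivity)]
    have : (NN i : ℝ) * (1 / (2 * y)) * (8 * y ^ 2) = 4 * (NN i * y) := by
      field_simp; ring
    rw [this]; exact h5
  have h8 : (2:ℝ) ^ i / (8 * ((i : ℝ) + 1)) ≤ NN i * (kf K3 i : ℝ) ^ (-(3/4) : ℝ) := by
    refine le_trans ?_ (h7.trans h6)
    refine div_le_div_of_nonneg_left (by positivity) (by positivity) ?_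
    nlinarith
  have h9 : κ * v / (6 * T) * ((2:ℝ) ^ i / (8 * ((i : ℝ) + 1))) ≤
      κ * v / (6 * T) * (NN i * (kf K3 i : ℝ) ^ (-(3/4) : ℝ)) :=
    mul_le_mul_of_nonneg_left h8 (by positivity)
  have e1 : κ / (96 * T) / ((i : ℝ) + 1) * (v * 2 ^ i) =
      κ * v / (6 * T) * ((2:ℝ) ^ i / (8 * ((i : ℝ) + 1))) / 2 := by
    field_simp
    ring
  have e2 : NN i * (κ * ((kf K3 i : ℝ) ^ (-(3/4) : ℝ) * v)) / (6 * T) =
      κ * v / (6 * T) * (NN i * (kf K3 i : ℝ) ^ (-(3/4) : ℝ)) := by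
    field_simp
  rw [e1, e2]
  have h10 : 0 ≤ κ * v / (6 * T) * ((2:ℝ) ^ i / (8 * ((i : ℝ) + 1))) := by positivity
  linarith

/-- the product tends to zero -/
theorem prod_harm {a : ℝ} (ha : 0 < a) {i : ℕ} (hq1 : ∀ j, i ≤ j → a / ((j : ℝ) + 1) ≤ 1) :
    Tendsto (fun m => ∏ j ∈ Finset.range m, (1 - a / (((i + j : ℕ) : ℝ) + 1))) atTop (𝓝 0) := by
  have h0 : Tendsto (fun m : ℕ => ∑ j ∈ Finset.range m, (1:ℝ) / (((i + j : ℕ) : ℝ) + 1))
      atTop atTop := by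
    rw [← not_summable_iff_tendsto_nat_atTop_of_nonneg (fun k => by positivity)]
    intro hs
    have h1 : Summable (fun k : ℕ => (1:ℝ) / ((k : ℕ) : ℝ)) := by
      rw [← summable_nat_add_iff (i + 1)]
      refine hs.congr fun k => ?_
      congr 1
      push_cast
      ring
    exact Real.not_summable_one_div_natCast h1
  have h1 : Tendsto (fun m : ℕ => Real.exp (-(a * ∑ j ∈ Finset.range m,
      (1:ℝ) / (((i + j : ℕ) : ℝ) + 1)))) atTop (𝓝 0) :=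
    Real.tendsto_exp_neg_atTop_nhds_zero.comp (h0.const_mul_atTop ha)
  refine squeeze_zero (fun m => Finset.prod_nonneg fun j _ => ?_) (fun m => ?_) h1
  · have := hq1 (i + j) (by omega)
    linarith
  · rw [Finset.mul_sum, ← Finset.sum_neg_distrib, Real.exp_sum]
    refine Finset.prod_le_prod (fun j _ => ?_) fun j _ => ?_
    · have := hq1 (i + j) (by omega)
      linarith
    · have h6 := Real.add_one_le_exp (-(a * (1 / (((i + j : ℕ) : ℝ) + 1))))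
      have e : a * (1 / (((i + j : ℕ) : ℝ) + 1)) = a / (((i + j : ℕ) : ℝ) + 1) := by ring
      rw [e] at h6 ⊢
      linarith

/-- the property of the pieces -/
def QQ (f : C(unitInterval, ℂ)) (T w τ2 : ℝ) (u v : unitInterval) : Prop :=
  (∀ x : unitInterval, dist (f u) (f (max u (min x v))) ≤ w) ∧
    T * Jo (5 / 4 * w) 0 1 f (f u) ≤ τ2

/-- Almost every time in the bulk is in the middle third of infinitely many pieces. -/
theorem typp {κ θ K3 A0 : ℝ} (hκ : 0 < κ) (hθ : 0 < θ) (hK : 1 ≤ K3) (hA : 1 ≤ A0) {R : Rect}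
    {p : X} (hp : 0 < p.2)
    (hbad : ∀ k : ℕ, ∀ᶠ i : ℕ in atTop, p ∉ BadPI κ θ K3 A0 R (1 / ((k : ℝ) + 1)) i) :
    ∀ᵐ t : unitInterval, 0 < dep R (p.1 t) →
      ∃ᶠ i : ℕ in atTop, t ∈ GG (QQ p.1 p.2 (ww i) (tau θ K3 i)) p.2 (tau κ K3 i) := by
  classical
  obtain ⟨q1, q2, q3, q4, q5, q6⟩ := sc3 κ K3 A0 hκ hK hA
  obtain ⟨T, hT⟩ : ∃ T, T = p.2 := ⟨_, rfl⟩
  rw [← hT] at hp
  have key : ∀ k i0 : ℕ, volume {t : unitInterval | 1 / ((k : ℝ) + 1) < dep R (p.1 t) ∧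
      ∀ i, i0 ≤ i → t ∉ GG (QQ p.1 p.2 (ww i) (tau θ K3 i)) p.2 (tau κ K3 i)} = 0 := by
    intro k i0
    obtain ⟨ρ, hρ⟩ : ∃ ρ : ℝ, ρ = 1 / ((k : ℝ) + 1) := ⟨_, rfl⟩
    have hb := hbad k
    rw [← hρ] at hb ⊢
    obtain ⟨B, hB⟩ : ∃ B : Set unitInterval,
      B = {t | ∀ i, i0 ≤ i → t ∉ GG (QQ p.1 p.2 (ww i) (tau θ K3 i)) p.2 (tau κ K3 i)} :=
      ⟨_, rfl⟩
    obtain ⟨O, hO⟩ : ∃ O : Set unitInterval, O = {t | ρ < dep R (p.1 t)} := ⟨_, rfl⟩
    have hOo : IsOpen O := by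
      rw [hO]
      exact isOpen_lt continuous_const ((Pool.Agent.Y287.EV.dep_cont' R).comp p.1.continuous)
    obtain ⟨a, ha⟩ : ∃ a : ℝ, a = κ / (96 * T) := ⟨_, rfl⟩
    have ha0 : 0 < a := by rw [ha]; positivity
    have hq : ∀ᶠ i : ℕ in atTop, a / ((i : ℝ) + 1) ≤ 1 := by
      obtain ⟨b, hb⟩ := exists_nat_gt a
      filter_upwards [eventually_ge_atTop b] with i hi
      have h2 : (b : ℝ) ≤ (i : ℝ) := by exact_mod_cast hi
      rw [div_le_one (by positivity)]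
      linarith
    have hall := ((((hb.and (ev_ell (A0 := A0) hK (by linarith) hp)).and (ev_small' hκ hK hp q3)).and hq).and
      ((q3.eventually (eventually_ge_atTop 1)).and (eventually_ge_atTop 1)))
    obtain ⟨i1, hi1⟩ := eventually_atTop.1 hall
    obtain ⟨i2, hi2⟩ : ∃ i2, i2 = max i0 i1 := ⟨_, rfl⟩
    have hsc : GScales B (fun i => QQ p.1 p.2 (ww i) (tau θ K3 i)) T lv (fun i => 14 * i + 6) NN
        (tau κ K3) (fun i => a / ((i : ℝ) + 1)) i2 O := by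
      refine ⟨lv_succ, ?_, ?_, ?_, ?_, ?_, ?_⟩
      · intro j hj
        obtain ⟨⟨⟨⟨h1, h2⟩, h3⟩, h4⟩, h5, -⟩ := hi1 j (by omega)
        have h12 : (0:ℝ) < (kf K3 j : ℝ) := by
          have : 0 < kf K3 j := h5
          exact_mod_cast this
        have := ww_pos j
        unfold tau
        positivity
      · intro j hj
        exact (hi1 j (by omega)).1.1.2
      · intro j hj t ht
        rw [hB] at ht
        rw [hT]
        exact ht j (by omega)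
      · intro j hj
        exact (hi1 j (by omega)).1.2
      · intro j hj
        obtain ⟨h5, h6⟩ := (hi1 j (by omega)).2
        have h7 := gain_ok' hκ hK hp h6 h5
        rw [← ha] at h7
        exact h7
      · intro j hj k' hk' hsub
        obtain ⟨⟨⟨⟨h1, h2⟩, h3⟩, h4⟩, h5⟩ := hi1 j (by omega)
        refine ⟨_, _, (Dy_Icc (by omega : k' + 1 ≤ 2 ^ lv j)).symm, ?_⟩
        by_contra hcon
        apply h1
        refine ⟨_, _, fun u hu1 hu2 => ?_, ?_, by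
          rw [hT] at hcon
          intro hh
          apply hcon
          exact hh⟩
        · have : u ∈ Dy (lv j) k' := by
            rw [Dy_Icc (by omega : k' + 1 ≤ 2 ^ lv j)]
            exact ⟨hu1, hu2⟩
          have := hsub this
          rw [hO] at this
          exact this
        · rw [← hT]
          refine lt_of_lt_of_eq h2 ?_
          congr 1
          change _ = ((k' + 1 : ℕ) : ℝ) / ((2 ^ lv j : ℕ) : ℝ) - (k' : ℝ) / ((2 ^ lv j : ℕ) : ℝ)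
          push_cast
          rw [one_div, inv_pow]
          field_simp
          ring
    have hnull : ∀ i, i2 ≤ i → ∀ k' < 2 ^ lv i, Dy (lv i) k' ⊆ O →
        volume (B ∩ Dy (lv i) k') = 0 := by
      intro i hi k' hk' hsub
      have h1 := fun m => grec hp hsc m i hi k' hk' hsub
      have h2 := prod_harm (a := a) ha0 (i := i) (fun j hj => hsc.q_le j (by omega))
      have h3 : Tendsto (fun m : ℕ => ENNReal.ofReal ((∏ j ∈ Finset.range m,
          (1 - a / (((i + j : ℕ) : ℝ) + 1))) * (1/2) ^ lv i)) atTop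
          (𝓝 (ENNReal.ofReal (0 * (1/2) ^ lv i))) :=
        ENNReal.tendsto_ofReal (h2.mul_const _)
      rw [zero_mul, ENNReal.ofReal_zero] at h3
      exact le_antisymm (ge_of_tendsto' h3 h1) bot_le
    have hcov : {t : unitInterval | ρ < dep R (p.1 t) ∧
        ∀ i, i0 ≤ i → t ∉ GG (QQ p.1 p.2 (ww i) (tau θ K3 i)) p.2 (tau κ K3 i)} ⊆
        ⋃ (x : ℕ × ℕ) (_ : i2 ≤ x.1 ∧ x.2 < 2 ^ lv x.1 ∧ Dy (lv x.1) x.2 ⊆ O),
          B ∩ Dy (lv x.1) x.2 := by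
      rintro t ⟨ht1, ht2⟩
      have htO : t ∈ O := by rw [hO]; exact ht1
      obtain ⟨ε, hε, hball⟩ := Metric.isOpen_iff.1 hOo t htO
      have h1 : ∀ᶠ i : ℕ in atTop, 1 * ((1:ℝ)/2) ^ lv i < ε :=
        (h_tend 1).eventually (gt_mem_nhds hε)
      obtain ⟨i, hi1', hi2'⟩ := (h1.and (eventually_ge_atTop i2)).exists
      obtain ⟨k', hk', hk2⟩ := Dy_all (lv i) t
      simp only [Set.mem_iUnion]
      refine ⟨(i, k'), ⟨hi2', hk', fun u hu => hball ?_⟩, ?_, hk2⟩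
      · rw [Metric.mem_ball, Subtype.dist_eq, Real.dist_eq]
        have := Dy_dist hu hk2
        linarith
      · rw [hB]; exact ht2
    refine measure_mono_null hcov (measure_iUnion_null fun x => measure_iUnion_null fun hx => ?_)
    exact hnull x.1 hx.1 x.2 hx.2.1 hx.2.2
  rw [ae_iff]
  refine measure_mono_null (t := ⋃ (k : ℕ) (i0 : ℕ), {t : unitInterval |
    1 / ((k : ℝ) + 1) < dep R (p.1 t) ∧
      ∀ i, i0 ≤ i → t ∉ GG (QQ p.1 p.2 (ww i) (tau θ K3 i)) p.2 (tau κ K3 i)}) ?_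
    (measure_iUnion_null fun k => measure_iUnion_null fun i0 => key k i0)
  intro t ht
  simp only [Set.mem_ofPred_eq, Classical.not_imp, not_frequently] at ht
  obtain ⟨h1, h2⟩ := ht
  obtain ⟨k, hk⟩ := exists_nat_one_div_lt h1
  rw [eventually_atTop] at h2
  obtain ⟨i0, hi0⟩ := h2
  simp only [Set.mem_iUnion]
  exact ⟨k, i0, hk, hi0⟩

end Pool.Agent.K9h27.PK
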