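import Pool.Agent.K9h27.PK.PackU
import Pool.Agent.K9h27.PK.Typ

/-!
The lower limit of the occupation measure at typical times.
-/

set_option autoImplicit false

namespace Pool.Agent.K9h27.PK

open MeasureTheory Filter Topology Pool.Agent.Y41.EV Pool.Agent.Y995.HG
open scoped ENNReal

/-- Few visits near a time in an isolated fast piece. -/
theorem gg_vol {f : C(unitInterval, ℂ)} {T w τ1 τ2 : ℝ} (hT : 0 < T) (hw : 0 < w)
    {t : unitInterval} (h : t ∈ GG (QQ f T w τ2) T τ1) :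
    T * (volume {x : unitInterval | dist (f x) (f t) ≤ w / 4}).toReal ≤ τ2 := by
  obtain ⟨u, v, huv, ⟨h1, h2⟩, -, h3, h4⟩ := h
  have huv' : (u : ℝ) ≤ v := huv
  have hut : u ≤ t := by
    show (u : ℝ) ≤ t
    linarith
  have htv : t ≤ v := by
    show (t : ℝ) ≤ v
    linarith
  have h5 := h1 t
  rw [min_eq_left htv, max_eq_right hut] at h5
  have hsub : {x : unitInterval | dist (f x) (f t) ≤ w / 4} ⊆
      {x : unitInterval | dist (f x) (f u) ≤ 5 / 4 * w} := by
    intro x hx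
    have h6 : dist (f x) (f t) ≤ w / 4 := hx
    show dist (f x) (f u) ≤ 5 / 4 * w
    have h7 := dist_triangle (f x) (f t) (f u)
    rw [dist_comm (f t) (f u)] at h7
    linarith
  have h8 := ENNReal.toReal_mono (measure_ne_top _ _) (measure_mono (μ := volume) hsub)
  have h9 := Jo_ge_vol (w := 5 / 4 * w) (by positivity) f (f u)
  exact (mul_le_mul_of_nonneg_left (h8.trans h9) hT.le).trans h2

/-- The durations of the fast pieces are at most of the order of the gauge. -/
theorem tau_psi {θ K : ℝ} (hθ : 0 < θ) (hK : 1 ≤ K) : ∃ C : ℝ, 0 < C ∧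
    ∀ᶠ i : ℕ in atTop, tau θ K i ≤ C * psi (ww i / 4) := by
  obtain ⟨c0, hc0, h1⟩ := Pool.Agent.R965.EV.sc1 θ K 1 hθ hK le_rfl
  obtain ⟨-, -, -, -, h5, -⟩ := Pool.Agent.R965.EV.sc3 θ K 1 hθ hK le_rfl
  obtain ⟨r5, hr5, h2⟩ := psi_doub
  refine ⟨25 / c0, by positivity, ?_⟩
  have hz : Tendsto (fun i : ℕ => ww i) atTop (𝓝 0) := by
    have h3 : Tendsto (fun i : ℕ => ((1:ℝ)/2) ^ i) atTop (𝓝 0) :=
      tendsto_pow_atTop_nhds_zero_of_lt_one (by norm_num) (by norm_num)
    refine squeeze_zero (fun i => (ww_pos i).le) (fun i => ?_) h3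
    unfold ww
    exact pow_le_pow_of_le_one (by norm_num) (by norm_num) (by nlinarith)
  have h5' : ∀ᶠ i : ℕ in atTop, 0 < ell 1 K (i + 1) :=
    (tendsto_add_atTop_nat 1).eventually h5
  filter_upwards [h1, h5', hz.eventually (ge_mem_nhds (lt_min hr5 one_half_pos))] with i g1 g2 g3
  have hw := ww_pos i
  have g4 : ww i ≤ r5 := g3.trans (min_le_left _ _)
  have g5 : ww i ≤ 1 / 2 := g3.trans (min_le_right _ _)
  have g6 : psi (ww i) ≤ psi (5 * (ww i / 4)) := psi_mono hw.le (by linarith) (by linarith)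
  have g7 := h2 (ww i / 4) (by positivity) (by linarith)
  have g8 : c0 * (2 * tau θ K i) ≤ 50 * psi (ww i / 4) := by
    have : c0 * (2 * tau θ K i) ≤ c0 * (2 * tau θ K i + 4 * ell 1 K (i + 1)) :=
      mul_le_mul_of_nonneg_left (by linarith) hc0.le
    linarith
  rw [div_mul_eq_mul_div, le_div_iff₀ hc0]
  linarith

/-- The lower limit at typical times. -/
theorem low_freq {θ K κ : ℝ} (hθ : 0 < θ) (hK : 1 ≤ K) : ∃ C : ℝ, 0 < C ∧
    ∀ (f : C(unitInterval, ℂ)) (T : ℝ), 0 < T → ∀ t : unitInterval,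
      (∃ᶠ i : ℕ in atTop, t ∈ GG (QQ f T (ww i) (tau θ K i)) T (tau κ K i)) →
      ∃ᶠ r : ℝ in 𝓝[>] 0,
        T * (volume {x : unitInterval | dist (f x) (f t) ≤ r}).toReal ≤ C * psi r := by
  obtain ⟨C, hC, hev⟩ := tau_psi hθ hK
  refine ⟨C, hC, fun f T hT t h => ?_⟩
  have hz : Tendsto (fun i : ℕ => ww i / 4) atTop (𝓝[>] 0) := by
    refine tendsto_nhdsWithin_iff.2 ⟨?_, Eventually.of_forall fun i => ?_⟩
    · have h3 : Tendsto (fun i : ℕ => ((1:ℝ)/2) ^ i) atTop (𝓝 0) :=
        tendsto_pow_atTop_nhds_zero_of_lt_one (by norm_num) (by norm_num)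
      refine squeeze_zero (fun i => by have := ww_pos i; positivity) (fun i => ?_) h3
      have h4 := ww_pos i
      have h5 : ww i ≤ (1/2) ^ i := by
        unfold ww
        exact pow_le_pow_of_le_one (by norm_num) (by norm_num) (by nlinarith)
      linarith
    · have := ww_pos i
      show 0 < ww i / 4
      positivity
  refine hz.frequently ?_
  refine (h.and_eventually hev).mono fun i hi => ?_
  exact (gg_vol hT (ww_pos i) hi.1).trans hi.2

end Pool.Agent.K9h27.PK
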