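import Pool.Agent.Y41.EV.StmL
import Pool.Agent.Y41.EV.ManyD
import Pool.Agent.K9h27.PK.Blk

/-!
A long piece of the path contains many isolated fast pieces (adaptation of
`Pool.Agent.R965.CS.ManyD`).
-/

set_option autoImplicit false

namespace Pool.Agent.K9h27.PK

open H974 Finset H342P H984P H984N TH992.L Y994.MC Y994.MD Pool.Agent.Y995.FS
open Pool.Agent.Y995.HG Pool.Agent.Y41.EV

/-- `N` disjoint pairs `(i, j)`, `k ≤ i ≤ j ≤ l`, of duration at least `M`, with the path in the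
ball of radius `r` around its position at time `i` between the times `i` and `j`, and this position
isolated. -/
def SPI (D : Dm) (F : Finset Edg) (r ρ s0 : ℤ) (M N1 : ℝ) (N k l : ℕ) : Prop :=
  ∃ Z : Finset (ℕ × ℕ), N ≤ Z.card ∧
    (∀ z ∈ Z, ∀ z' ∈ Z, z ≠ z' → z.2 < z'.1 ∨ z'.2 < z.1) ∧
    ∀ z ∈ Z, k ≤ z.1 ∧ z.1 ≤ z.2 ∧ z.2 ≤ l ∧ M ≤ ((z.2 - z.1 : ℕ) : ℝ) ∧
      (∀ s, z.1 ≤ s → s ≤ z.2 → sd (D.walk F z.1).1 (D.walk F s).1 ≤ r) ∧
      Is ρ s0 N1 (D.cfg F) (D.walk F z.1).1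

/-- A long piece in the bulk with few isolated pieces. -/
def FewI (D : Dm) (L : ℤ) (W : ℕ) (r ρ s0 : ℤ) (N : ℕ) (K1 M N1 : ℝ) (F : Finset Edg) : Prop :=
  ∃ k l : ℕ, k ≤ l ∧ l ≤ D.len F ∧ (∀ t, k ≤ t → t ≤ l → 4 * L ≤ D.bd (D.walk F t).1) ∧
    (W : ℝ) ^ (7/4 : ℝ) * (K1 * (98 * N)) < ((l - k + 1 : ℕ) : ℝ) ∧
    ¬ SPI D F r ρ s0 M N1 N k l

open Classical in
/-- Outside the exceptional events a piece of the path contains many slow pieces. -/
theorem manyI_det {M N1 : ℝ} {m : ℕ} {r ρ s0 : ℤ} (hs0 : 0 ≤ s0) (hρ : 0 ≤ ρ) {D : Dm} (hD : D.Ok) {F : Finset Edg} (hF : F ⊆ D.edges)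
    {R L : ℤ} {W : ℕ} (hW : (W : ℤ) = 2 * L) (hR : 1 ≤ R) (hRL : 3 * R + 60 * m ≤ L) (hRρ : R + (ρ + s0) + 2 ≤ L)
    {N0 Nm : ℕ} (hNm : D.len F + 1 ≤ Nm) {k l : ℕ} (hkl : k ≤ l) (hl : l ≤ D.len F)
    (hbd : ∀ t, k ≤ t → t ≤ l → 4 * L ≤ D.bd (D.walk F t).1)
    (hn : ¬ HolesB D W (BdI (gI r ρ s0 M N1) R L D) N0 Nm (Y994.MC.bk W (D.walk F k).1) F)
    (hA : 36 ≤ (vb D W F k l).card) (hA2 : N0 ≤ (vb D W F k l).card) :
    ∃ Z : Finset (ℕ × ℕ), (vb D W F k l).card ≤ 98 * Z.card ∧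
      (∀ z ∈ Z, ∀ z' ∈ Z, z ≠ z' → z.2 < z'.1 ∨ z'.2 < z.1) ∧
      ∀ z ∈ Z, k ≤ z.1 ∧ z.1 ≤ z.2 ∧ z.2 ≤ l ∧
        M ≤ ((z.2 - z.1 : ℕ) : ℝ) ∧
        (∀ s, z.1 ≤ s → s ≤ z.2 → sd (D.walk F z.1).1 (D.walk F s).1 ≤ r) ∧
        Is ρ s0 N1 (D.cfg F) (D.walk F z.1).1 := by
  have hL0 : 0 < L := by omega
  have hW1 : 1 ≤ W := by
    have : (0 : ℤ) < W := by omega
    exact_mod_cast this
  have hW' : (1 : ℤ) ≤ W := by exact_mod_cast hW1
  have hg := gI_good (r := r) (ρ := ρ) (s := s0) (M := M) (N := N1) hs0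
  set g := gI r ρ s0 M N1 with hgdef
  set A := vb D W F k l with hAdef
  set Bb := A.filter (fun q => BdI g R L D q F) with hBd
  set G := A.filter (fun q => ¬ BdI g R L D q F) with hG
  have c2 : Bb.card + G.card = A.card := card_filter_add_card_filter_not _
  have c4 : 4 * Bb.card ≤ max A.card N0 := by
    obtain ⟨c, hc⟩ := TH992.L.pigeon (le_refl Bb.card)
    by_contra hcon
    push Not at hcon
    apply hn
    obtain ⟨h2, h3⟩ := vb_AS (D := D) (F := F) hW1 hkl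
    have h4 := vb_card (D := D) (F := F) (W := W) (k := k) hl
    rw [← hAdef] at h2 h3 h4
    refine ⟨A.card, mem_range.mpr ?_, A, h3, rfl, Bb.filter (fun q => TH992.L.cls q = c), ?_,
      ⟨?_, ?_, ?_⟩, ?_⟩
    · omega
    · rw [mem_powerset]
      intro q hq
      exact (mem_filter.mp (mem_filter.mp hq).1).1
    · intro q hq r hr
      rw [(mem_filter.mp hq).2, (mem_filter.mp hr).2]
    · intro q hq
      exact vb_Bks hD hF hW1 (mem_filter.mp (mem_filter.mp hq).1).1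
    · omega
    · intro q hq
      exact (mem_filter.mp (mem_filter.mp hq).1).2
  set ql := Y994.MC.bk W (D.walk F l).1 with hql
  set G1 := G \ TH992.L.nb9 ql with hG1
  have c5 : G.card ≤ G1.card + 9 := by
    have h1 := card_le_card_sdiff_add_card (s := G) (t := TH992.L.nb9 ql)
    rw [TH992.L.card_nb9] at h1
    exact h1
  have c6 : A.card ≤ 2 * G1.card := by omega
  obtain ⟨c, hc⟩ := TH992.L.pigeon (le_refl G1.card)
  set G2 := G1.filter (fun q => TH992.L.cls q = c) with hG2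
  -- the pairs
  have hz : ∀ q ∈ G2, ∃ z : ℕ × ℕ, (∃ u : Vtx, Y994.MC.bk (2 * L) u = q ∧
      ∀ r, z.1 ≤ r → r ≤ z.2 → sd u (D.walk F r).1 ≤ R + 1) ∧
      k ≤ z.1 ∧ z.1 ≤ z.2 ∧ z.2 ≤ l ∧
        M ≤ ((z.2 - z.1 : ℕ) : ℝ) ∧
        (∀ s, z.1 ≤ s → s ≤ z.2 → sd (D.walk F z.1).1 (D.walk F s).1 ≤ r) ∧
        Is ρ s0 N1 (D.cfg F) (D.walk F z.1).1 := by
    intro q hq
    have hq1 := (mem_filter.mp hq).1
    rw [hG1, mem_sdiff, hG, mem_filter] at hq1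
    obtain ⟨⟨hqA, hqB⟩, hqn⟩ := hq1
    rw [hAdef] at hqA
    unfold vb at hqA
    rw [mem_vset] at hqA
    obtain ⟨τ, t1, t2, t3⟩ := hqA
    have hfar : (W:ℤ) ≤ sd (D.walk F τ).1 (D.walk F l).1 := by
      by_contra hcon
      push Not at hcon
      apply hqn
      rw [TH992.L.mem_nb9]
      have h5 := bk_step hW' hcon.le
      rw [t3, ← hql] at h5
      refine le_trans (le_of_eq (H984H.det_sd_comm _ _)) h5
    rw [hW] at t3
    obtain ⟨t, ht, ⟨i, j, g1, g2, g3, g4, g5⟩, hin⟩ := good_blockI hg hR (by omega)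
      (by omega) hRρ (F := F) t2 (hbd τ t1 t2) t3 (far_of_sd hfar (by omega)) hqB
    refine ⟨(τ + i, τ + j), ⟨(D.walk F τ).1, t3, ?_⟩, ?_, ?_, ?_, ?_, ?_, g5⟩
    · intro r hr1 hr2
      simp only at hr1 hr2
      have h6 := hin (r - τ) (by omega)
      rwa [Nat.add_sub_cancel' (by omega)] at h6
    · simp only
      omega
    · simp only
      omega
    · simp only
      omega
    · simp only
      rw [Nat.add_sub_add_left]
      exact g3
    · intro s hs1 hs2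
      simp only at hs1 hs2 ⊢
      have h6 := g4 (s - τ) (by omega) (by omega)
      simp only at h6
      rwa [Nat.add_sub_cancel' (by omega)] at h6
  choose! zf hzf using hz
  have hcommon : ∀ q ∈ G2, ∀ q' ∈ G2, q ≠ q' → (zf q).2 < (zf q').1 ∨ (zf q').2 < (zf q).1 := by
    intro q hq q' hq' hne
    obtain ⟨⟨u, hu1, hu2⟩, a1, a2, -⟩ := hzf q hq
    obtain ⟨⟨u', hu1', hu2'⟩, b1, b2, -⟩ := hzf q' hq'
    have h7 : (7 : ℤ) ≤ sd q q' := TH992.L.cls_far (by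
      rw [(mem_filter.mp hq).2, (mem_filter.mp hq').2]) hne
    have h8 := blocks_far hL0 hu1 hu1' h7
    by_contra hcon
    push Not at hcon
    obtain ⟨r, hr⟩ : ∃ r, r = max (zf q).1 (zf q').1 := ⟨_, rfl⟩
    have r1 := hu2 r (by omega) (by omega)
    have r2 := hu2' r (by omega) (by omega)
    have t1 : sd u u' ≤ sd u (D.walk F r).1 + sd (D.walk F r).1 u' := H984H.det_sd_tri _ _ _
    have t3 : sd (D.walk F r).1 u' = sd u' (D.walk F r).1 := H984H.det_sd_comm _ _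
    generalize sd u u' = x1 at *
    generalize sd u (D.walk F r).1 = x2 at *
    generalize sd (D.walk F r).1 u' = x3 at *
    generalize sd u' (D.walk F r).1 = x4 at *
    clear hn hbd hc c6 c5 c4 c2 hA hA2 hNm hu2 hu2' hr hcon
    omega
  refine ⟨G2.image zf, ?_, ?_, ?_⟩
  · rw [card_image_of_injOn]
    · omega
    · intro q hq q' hq' h
      by_contra hne
      have h1 := hcommon q hq q' hq' hne
      obtain ⟨-, -, a2, -⟩ := hzf q hq
      obtain ⟨-, -, b2, -⟩ := hzf q' hq'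
      rw [h] at h1 a2
      omega
  · intro z hz z' hz' hne
    rw [mem_image] at hz hz'
    obtain ⟨q, hq, rfl⟩ := hz
    obtain ⟨q', hq', rfl⟩ := hz'
    exact hcommon q hq q' hq' (fun h => hne (by rw [h]))
  · intro z hz
    rw [mem_image] at hz
    obtain ⟨q, hq, rfl⟩ := hz
    exact (hzf q hq).2

end Pool.Agent.K9h27.PK
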