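import Pool.Agent.K9h27.PK.Tr
import Pool.Agent.Y995.FS.FastPr

/-!
Isolated fast pieces: the trial.
-/

set_option autoImplicit false
set_option linter.unusedVariables false

namespace Pool.Agent.K9h27.PK

open H974 hiding RB
open Finset H342P H984P H984N Pool.Agent.Y995.FS Pool.Agent.R965.CS TH992.T

theorem Bl_le {X Y : ℤ} {a m : ℕ} (ham : a ≤ m) : Bl X Y a ⊆ Bl X Y m := by
  have ham' : (a : ℤ) ≤ m := by exact_mod_cast ham
  unfold Bl
  exact RE_sub_RE (by omega) (by omega) (by omega) (by omega)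

theorem Wr_PR {X Y : ℤ} {a m : ℕ} (ham : 40 * a ≤ m) {v : Vtx} (h : v ∈ Wr X Y a m) :
    PR v a ⊆ RB X Y m := by
  have ham' : 40 * (a : ℤ) ≤ m := by exact_mod_cast ham
  rw [mem_Wr] at h
  unfold PR RB
  exact RE_sub_RE (by omega) (by omega) (by omega) (by omega)

theorem Wr_DR {X Y : ℤ} {a m : ℕ} (ha : 1 ≤ a) (ham : 40 * a ≤ m) {v : Vtx}
    (h : v ∈ Wr X Y a m) {e : Edg} (he : dl e ∈ DR v a) : e ∈ RB X Y m := by
  have ha' : (1 : ℤ) ≤ a := by exact_mod_cast ha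
  have ham' : 40 * (a : ℤ) ≤ m := by exact_mod_cast ham
  rw [mem_Wr] at h
  obtain ⟨x, y, _ | _⟩ := e
  · simp only [DR, dl_f, mem_RE_true] at he
    simp only [RB, mem_RE_false]
    omega
  · simp only [DR, dl_t, mem_RE_false] at he
    simp only [RB, mem_RE_true]
    omega

open Classical in
theorem Qp_loc {a m kk : ℕ} {M N : ℝ} (ha : 1 ≤ a) (ham : 40 * a ≤ m) :
    LocQ m (Qp a m kk M N) := by
  intro A y0 X Y T F G h1 h2 h
  obtain ⟨⟨hL, hU⟩, ⟨hLL, hUU⟩, ⟨hAL, hAU⟩, ⟨hne, hM⟩, hN⟩ := h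
  have hB : ∀ e ∈ Bl X Y a, (e ∈ F ↔ e ∈ G) := fun e he => h2 e (Bl_le (by omega) he)
  have hLR : ∀ e ∈ RB X Y m, (e ∈ F ↔ e ∈ G) := fun e he => h2 e (RB_Bl he)
  have kL : ∀ (S : Finset Edg), (∀ e ∈ S, e ∈ WLm X Y a m) → ∀ (u w : Vtx),
      Reach (F ∩ ↑S) u w → Reach (G ∩ ↑S) u w := by
    intro S hS u w hr
    refine hr.mono ?_
    rintro e ⟨he, he'⟩
    exact ⟨(hLR e (WLm_sub ha ham (hS e he'))).1 he, he'⟩
  have kU : ∀ (S : Finset Edg), (∀ e ∈ S, e ∈ WUm X Y a m) → ∀ (u w : Vtx),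
      DReach (dE S \ F) u w → DReach (dE S \ G) u w := by
    intro S hS u w hr
    refine hr.mono ?_
    rintro e ⟨he, he'⟩
    exact ⟨he, fun h => he' ((hLR e (WUm_sub ha ham (hS _ he))).2 h)⟩
  have c3 : LgL X Y a m G := by
    obtain ⟨⟨y1, y2, hr⟩, x1, x2, hr'⟩ := hLL
    refine ⟨⟨y1, y2, kL _ (fun e he => ?_) _ _ hr⟩, x1, x2, kL _ (fun e he => ?_) _ _ hr'⟩
    all_goals simp only [WLm, mem_union]; tauto
  have c4 : LgU X Y a m G := by
    obtain ⟨⟨y1, y2, hr⟩, x1, x2, hr'⟩ := hUU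
    refine ⟨⟨y1, y2, kU _ (fun e he => ?_) _ _ hr⟩, x1, x2, kU _ (fun e he => ?_) _ _ hr'⟩
    all_goals simp only [WUm, mem_union]; tauto
  have c5 : ArL X Y a m G := by
    obtain ⟨⟨x3, x4, hx3, hx4, h3⟩, ⟨x5, x6, hx5, hx6, h4⟩, y7, y8, hy7, hy8, h5⟩ := hAL
    refine ⟨⟨x3, x4, hx3, hx4, kL _ (fun e he => ?_) _ _ h3⟩,
      ⟨x5, x6, hx5, hx6, kL _ (fun e he => ?_) _ _ h4⟩,
      y7, y8, hy7, hy8, kL _ (fun e he => ?_) _ _ h5⟩
    all_goals simp only [WLm, mem_union]; tauto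
  have c6 : ArU X Y a m G := by
    obtain ⟨⟨x3, x4, hx3, hx4, h3⟩, ⟨x5, x6, hx5, hx6, h4⟩, y7, y8, hy7, hy8, h5⟩ := hAU
    refine ⟨⟨x3, x4, hx3, hx4, kU _ (fun e he => ?_) _ _ h3⟩,
      ⟨x5, x6, hx5, hx6, kU _ (fun e he => ?_) _ _ h4⟩,
      y7, y8, hy7, hy8, kU _ (fun e he => ?_) _ _ h5⟩
    all_goals simp only [WUm, mem_union]; tauto
  have c7 : ((Wr X Y a m).filter (fun v => RA v a F)).card ≤
      ((Wr X Y a m).filter (fun v => RA v a G)).card := by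
    refine Finset.card_le_card fun v hv => ?_
    rw [mem_filter] at hv ⊢
    exact ⟨hv.1, RA_mono' (fun e he he' => (hLR e (Wr_PR ham hv.1 he)).1 he')
      (fun e he he' => (hLR e (Wr_DR ha ham hv.1 he)).2 he') hv.2⟩
  refine ⟨⟨baseL_congr ha le_rfl h1 hB hL, baseU_congr ha le_rfl h1 hB hU⟩, ⟨c3, c4⟩, ⟨c5, c6⟩,
    ⟨hne.trans c7, hM.trans ?_⟩, ?_⟩
  · exact_mod_cast c7
  · rw [← cn_congr (F := F) (G := G) hLR]
    exact hN

/-- The probability of the trial. -/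
theorem pk_tr {c C : ℝ} (hc : 0 < c) (hC : 0 < C) (hL : LowA c (1/4)) (hU : TwoUp C (1/4)) :
    ∃ κ θ K3 : ℝ, 0 < κ ∧ 0 < θ ∧ 1 ≤ K3 ∧ ∀ a m kk : ℕ, 1 ≤ a → 40 * a ≤ m → m ≤ a * kk →
      a * kk ≤ 2 * m → 60 ≤ kk → ∀ (S : Finset Edg) (A y0 : ℤ),
        TrQ S A y0 m (Qp a m kk (κ * kk * (a : ℝ) ^ (7/4 : ℝ) - 1)
          (θ * kk * (a : ℝ) ^ (7/4 : ℝ))) (Real.exp (-(K3 * kk))) := by
  classical
  obtain ⟨M, hM1, hM⟩ := mom_xw hC hU
  have hM0 : 0 < M := by linarith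
  obtain ⟨c3, hc3, hra⟩ := nra_prob (c := c) (C := C) (s := 1/4) (t := 1/4) hc hC (by norm_num)
    (by norm_num) (by norm_num) le_rfl hL hU
  have hlM : 0 ≤ Real.log M := Real.log_nonneg hM1
  have hlq : Real.log q0 ≤ 0 := Real.log_nonpos q0_pos.le q0_le
  -- constants
  obtain ⟨L3, hL3⟩ : ∃ L3 : ℝ, L3 = |Real.log c3| := ⟨_, rfl⟩
  have hL30 : 0 ≤ L3 := by rw [hL3]; exact abs_nonneg _
  have hL3' : Real.exp (-L3) ≤ c3 := by
    rw [← Real.exp_log hc3]
    refine Real.exp_le_exp.mpr ?_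
    rw [hL3]
    exact neg_abs_le _
  obtain ⟨θ0, hθ0⟩ : ∃ θ0 : ℝ, θ0 = 952 * Real.log M - 34 * Real.log q0 + L3 + 3 := ⟨_, rfl⟩
  refine ⟨c3 / 120, 18 * θ0, -34 * Real.log q0 + L3 + 1, by positivity, by linarith, by linarith,
    ?_⟩
  intro a m kk ha ham hmk hkm hkk S A y0 k F0 X Y T hF0 hk hst hA hBl hent hEk hkE
  have ha0 : (0 : ℝ) < a := by exact_mod_cast ha
  have ha' : (1 : ℤ) ≤ a := by exact_mod_cast ha
  have hm1 : 1 ≤ m := by omega
  have ham' : 40 * (a : ℤ) ≤ m := by exact_mod_cast ham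
  have hkk1 : (60 : ℝ) ≤ kk := by exact_mod_cast hkk
  obtain ⟨I, hI⟩ : ∃ I, I = kk / 60 := ⟨_, rfl⟩
  have hI1 : 60 * I ≤ kk := by omega
  have hI2 : kk ≤ 120 * I := by omega
  have hI0 : 1 ≤ I := by omega
  have hIm : 30 * (a * I) ≤ m := by
    have h1 : a * (60 * I) ≤ a * kk := Nat.mul_le_mul_left _ hI1
    have h2 : 60 * (a * I) = a * (60 * I) := by ring
    omega
  obtain ⟨w, hw⟩ : ∃ w : ℝ, w = c3 * (a : ℝ) ^ (7/4 : ℝ) := ⟨_, rfl⟩
  have hapos : 0 < (a : ℝ) ^ (7/4 : ℝ) := Real.rpow_pos_of_pos ha0 _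
  have hw0 : 0 < w := by rw [hw]; positivity
  have hp : ∀ z : Vtx, c3 ≤ Pr (fun _ => (1/2:ℝ)) (NB z a)
      (fun G => w ≤ (nRA z a (↑G) : ℝ)) := by
    intro z
    have h1 := hra z a ha
    have e1 : ((a:ℝ)) ^ (-(2 * (1/4:ℝ) - 2 * (1/4))) = 1 := by
      rw [show (-(2 * (1/4:ℝ) - 2 * (1/4))) = 0 by norm_num, Real.rpow_zero]
    rw [e1, mul_one, show (2 - 1/4 : ℝ) = 7/4 by norm_num, ← hw] at h1
    exact h1
  have hNPp := pr_NP (X := X) (Y := Y) (w := w) ha ham hmk hIm hc3.le hp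
  -- fresh edges
  have fresh : ∀ e ∈ RB X Y m, e ∉ k := by
    intro e he hek
    have h1 := hkE e hek (RB_Bl he)
    have h2 := (exm_loc hst h1).2.1
    have h3 : X ≤ e.1 := by
      obtain ⟨x, y, _ | _⟩ := e
      · rw [RB, mem_RE_false] at he; exact he.1
      · rw [RB, mem_RE_true] at he; exact he.1
    omega
  have hRB : RB X Y m ⊆ S \ k := by
    intro e he
    rw [mem_sdiff]
    exact ⟨hBl (RB_Bl he), fresh e he⟩
  have e1 : Pr (fun _ => (1/2:ℝ)) (S \ k) (NP X Y a m I w) =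
      Pr (fun _ => (1/2:ℝ)) (RB X Y m) (NP X Y a m I w) := by
    refine Pr_local hRB fun F _ => ⟨?_, ?_⟩
    · exact NP_mono
        (fun i hi v hv e he h => mem_inter.2 ⟨h, cb_NB ham hIm hi (PR_NB hv he)⟩)
        (fun i hi v _ e _ h => (mem_inter.1 h).1)
        (fun e he h => mem_inter.2 ⟨h, WLm_sub ha ham he⟩) (fun e _ h => (mem_inter.1 h).1)
    · exact NP_mono
        (fun i hi v _ e _ h => (mem_inter.1 h).1)
        (fun i hi v hv e he h => mem_inter.2 ⟨h, cb_NB ham hIm hi (DR_NB ha hv he)⟩)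
        (fun e _ h => (mem_inter.1 h).1) (fun e he h => mem_inter.2 ⟨h, WUm_sub ha ham he⟩)
  -- the hooks are to the left
  have hHL : ∀ e ∈ HL X Y a a, e.1 ≤ X + 56 * a := by
    rintro ⟨x, y, _ | _⟩ h
    · simp only [HL, Finset.mem_union, mem_RE_false] at h
      simp only
      omega
    · simp only [HL, Finset.mem_union, mem_RE_true] at h
      simp only
      omega
  have hHL' : ∀ e, dl e ∈ HL' X Y a a → e.1 ≤ X + 56 * a := by
    rintro ⟨x, y, _ | _⟩ h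
    · simp only [HL', dl_f, Finset.mem_union, mem_RE_true] at h
      simp only
      omega
    · simp only [HL', dl_t, Finset.mem_union, mem_RE_false] at h
      simp only
      omega
  have hNBx : ∀ i ∈ range I, ∀ e ∈ NB (cb X Y a m i) a, X + 39 * m ≤ e.1 := by
    intro i hi e he
    have h := cb_bd (X := X) (Y := Y) hIm hi
    obtain ⟨x, y, _ | _⟩ := e
    · rw [NB, mem_RE_false] at he; simp only; omega
    · rw [NB, mem_RE_true] at he; simp only; omega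
  have hWLn : ∀ e ∈ WLm X Y a m, dl e ∉ HL' X Y a a := by
    rintro ⟨x, y, _ | _⟩ h h'
    · simp only [WLm, Finset.mem_union, mem_LRE_false, mem_TBE_false] at h
      simp only [HL', dl_f, Finset.mem_union, mem_RE_true] at h'
      omega
    · simp only [WLm, Finset.mem_union, mem_LRE_true, mem_TBE_true] at h
      simp only [HL', dl_t, Finset.mem_union, mem_RE_false] at h'
      omega
  have hWUn : ∀ e, dl e ∈ WUm X Y a m → e ∉ HL X Y a a := by
    rintro ⟨x, y, _ | _⟩ h h'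
    · simp only [WUm, dl_f, Finset.mem_union, mem_LRE_true, mem_TBE_true] at h
      simp only [HL, Finset.mem_union, mem_RE_false] at h'
      omega
    · simp only [WUm, dl_t, Finset.mem_union, mem_LRE_false, mem_TBE_false] at h
      simp only [HL, Finset.mem_union, mem_RE_true] at h'
      omega
  have key := trialG (n := 1) (N := NP X Y a m I w) ha le_rfl (by omega) hF0 hk hst (by
      omega)
    ((Bl_le (by omega)).trans hBl) hent hEk (fun e he he' => hkE e he (Bl_le (by omega) he')) (by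
      intro F G h1 h2
      have r1 : ∀ e, X + 39 * m ≤ e.1 → e ∈ F → e ∈ G := by
        intro e he heF
        by_contra hcon
        have := hHL' e (h1 e heF hcon)
        omega
      have r2 : ∀ e, X + 39 * m ≤ e.1 → e ∈ G → e ∈ F := by
        intro e he heG
        by_contra hcon
        have := hHL e (h2 e heG hcon)
        omega
      refine NP_mono ?_ ?_ ?_ ?_
      · exact fun i hi v hv e he => r1 e (hNBx i hi e (PR_NB hv he))
      · exact fun i hi v hv e he => r2 e (hNBx i hi e (DR_NB ha hv he))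
      · intro e he heF
        by_contra hcon
        exact hWLn e he (h1 e heF hcon)
      · intro e he heG
        by_contra hcon
        exact hWUn e he (h2 e heG hcon))
  rw [e1] at key
  -- the count
  have hcn := cn_pr hM1 hC hU hM (X := X) (Y := Y) (a := a) (m := m) (kk := kk) ha hRB
    (θ0 * kk)
  -- combination
  obtain ⟨Ab, hAb⟩ : ∃ Ab : Finset Edg → Prop, Ab = fun G : Finset Edg =>
    NP X Y a m I w G ∧
        (BaseL A y0 X Y T a a (↑((F0 ∩ k) ∪ G)) ∧ BaseU A y0 X Y T a a (↑((F0 ∩ k) ∪ G))) :=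
    ⟨_, rfl⟩
  obtain ⟨Bb, hBb⟩ : ∃ Bb : Finset Edg → Prop, Bb = fun G : Finset Edg =>
    18 * (θ0 * kk) * (a : ℝ) ^ (7/4 : ℝ) ≤ Cn X Y a m kk (↑G : Set Edg) := ⟨_, rfl⟩
  rw [← hAb] at key
  rw [← hBb] at hcn
  obtain ⟨Qv, hQv⟩ : ∃ Qv : Finset Edg → Prop, Qv = fun G : Finset Edg =>
    Qp a m kk (c3 / 120 * kk * (a : ℝ) ^ (7/4 : ℝ) - 1) (18 * θ0 * kk * (a : ℝ) ^ (7/4 : ℝ))
      A y0 X Y T (↑((F0 ∩ k) ∪ G)) := ⟨_, rfl⟩
  have hAQ : ∀ G, Ab G → ¬ Bb G → Qv G := by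
    intro G h1 h2
    rw [hAb] at h1
    rw [hBb] at h2
    rw [hQv]
    obtain ⟨⟨hNI, hPL, hPU⟩, hBL, hBU⟩ := h1
    have hFG : ∀ e ∈ RB X Y m, (e ∈ G ↔ e ∈ (↑((F0 ∩ k) ∪ G) : Set Edg)) := by
      intro e he
      rw [Finset.mem_coe, mem_union, mem_inter]
      exact ⟨Or.inr, fun h => h.elim (fun h => absurd h.2 (fresh e he)) id⟩
    obtain ⟨a1, a2⟩ := PLm_long (G := (↑((F0 ∩ k) ∪ G) : Set Edg))
      (fun e he h => (hFG e (WLm_sub ha ham he)).1 h) hPL
    obtain ⟨a3, a4⟩ := PUm_long (G := (↑((F0 ∩ k) ∪ G) : Set Edg))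
      (fun e he h => (hFG e he).2 h) hPU
    have h5 := NI_card ha ham hIm hFG hNI
    have h6 : c3 / 120 * kk * (a : ℝ) ^ (7/4 : ℝ) ≤ w * I := by
      rw [hw]
      have h7 : (kk : ℝ) ≤ 120 * I := by exact_mod_cast hI2
      have h8 : 0 < c3 * (a : ℝ) ^ (7/4 : ℝ) := by positivity
      nlinarith
    have h9 : 0 < w * I := by
      have : (1 : ℝ) ≤ I := by exact_mod_cast hI0
      nlinarith
    refine ⟨⟨hBL, hBU⟩, ⟨a1, a3⟩, ⟨a2, a4⟩, ⟨?_, ?_⟩, ?_⟩
    · have := lt_of_lt_of_le h9 h5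
      have h10 : 0 < ((Wr X Y a m).filter
        (fun v => RA v a (↑((F0 ∩ k) ∪ G) : Set Edg))).card := by exact_mod_cast this
      exact h10
    · rw [sub_add_cancel]
      exact h6.trans h5
    · rw [← cn_congr (F := (↑G : Set Edg)) (G := (↑((F0 ∩ k) ∪ G) : Set Edg)) (fun e he => by
        rw [Finset.mem_coe]; exact hFG e he)]
      have e9 : 18 * θ0 * kk * (a : ℝ) ^ (7/4 : ℝ) = 18 * (θ0 * kk) * (a : ℝ) ^ (7/4 : ℝ) := by
        ring
      rw [e9]
      exact (not_le.1 h2).le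
  rw [← hQv]
  have s6 : Pr (fun _ => (1/2:ℝ)) (S \ k) Ab - Pr (fun _ => (1/2:ℝ)) (S \ k) Bb ≤
      Pr (fun _ => (1/2:ℝ)) (S \ k) Qv := by
    unfold Pr
    rw [← Ex_sub]
    refine Ex_mono two_ok fun G hG => ?_
    by_cases h1 : Ab G
    · by_cases h2 : Bb G
      · rw [ind_of h1, ind_of h2]
        have := ind_nonneg (Qv G)
        linarith
      · rw [ind_of h1, ind_of (hAQ G h1 h2)]
        have := ind_nonneg (Bb G)
        linarith
    · rw [ind_not_of h1]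
      have h2 := ind_nonneg (Qv G)
      have h3 := ind_nonneg (Bb G)
      linarith
  refine le_trans ?_ s6
  have h7 : Real.exp (34 * Real.log q0 * kk - L3 * kk) ≤
      Pr (fun _ => (1/2:ℝ)) (S \ k) Ab := by
    refine le_trans ?_ key
    have h9 : Real.exp (-(L3 * kk)) ≤ c3 ^ I := by
      have h10 : Real.exp (-L3) ^ I ≤ c3 ^ I := pow_le_pow_left₀ (Real.exp_pos _).le hL3' I
      refine le_trans ?_ h10
      rw [← Real.exp_nat_mul]
      refine Real.exp_le_exp.mpr ?_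
      have h11 : (I : ℝ) ≤ kk := by
        have : I ≤ kk := by omega
        exact_mod_cast this
      nlinarith
    have e : q0 ^ (2 * 1 + 4) * q0 ^ (2 * 1 + 4) * q0 ^ (8 * kk + 14) =
        Real.exp (((8 * kk + 26 : ℕ) : ℝ) * Real.log q0) := by
      rw [← pow_add, ← pow_add, Real.exp_nat_mul, Real.exp_log q0_pos]
      congr 1
      ring
    have h8 : Real.exp (34 * Real.log q0 * kk) ≤
        Real.exp (((8 * kk + 26 : ℕ) : ℝ) * Real.log q0) := by
      refine Real.exp_le_exp.mpr ?_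
      push_cast
      nlinarith
    have hq : 0 ≤ q0 ^ (2 * 1 + 4) * q0 ^ (2 * 1 + 4) :=
      mul_nonneg (pow_nonneg q0_pos.le _) (pow_nonneg q0_pos.le _)
    calc Real.exp (34 * Real.log q0 * kk - L3 * kk) =
        Real.exp (34 * Real.log q0 * kk) * Real.exp (-(L3 * kk)) := by
          rw [← Real.exp_add]; congr 1
      _ ≤ (q0 ^ (2 * 1 + 4) * q0 ^ (2 * 1 + 4) * q0 ^ (8 * kk + 14)) * c3 ^ I := by
          rw [e]
          exact mul_le_mul h8 h9 (Real.exp_pos _).le (Real.exp_pos _).le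
      _ = q0 ^ (2 * 1 + 4) * q0 ^ (2 * 1 + 4) * (c3 ^ I * q0 ^ (8 * kk + 14)) := by ring
      _ ≤ _ := mul_le_mul_of_nonneg_left hNPp hq
  have h8 : Pr (fun _ => (1/2:ℝ)) (S \ k) Bb ≤
      1 / 2 * Real.exp (34 * Real.log q0 * kk - L3 * kk) := by
    refine hcn.trans ?_
    have e : M ^ (952 * kk) = Real.exp (952 * Real.log M * kk) := by
      have e2 : 952 * Real.log M * kk = ((952 * kk : ℕ) : ℝ) * Real.log M := by
        push_cast; ring
      rw [e2, Real.exp_nat_mul, Real.exp_log hM0]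
    rw [e, ← Real.exp_add]
    have e3 : -(θ0 * kk) + 952 * Real.log M * kk =
        (34 * Real.log q0 * kk - L3 * kk) + -(3 * kk) := by rw [hθ0]; ring
    rw [e3, Real.exp_add]
    have h9 : Real.exp (-(3 * (kk : ℝ))) ≤ Real.exp (-3) :=
      Real.exp_le_exp.mpr (by linarith)
    have h10 : 9 * Real.exp (-3) ≤ 1 / 2 := by
      have h11 : (18 : ℝ) ≤ Real.exp 3 := by
        have h12 : Real.exp 3 = Real.exp 1 ^ 3 := by rw [← Real.exp_nat_mul]; norm_num
        have h13 := Real.exp_one_gt_d9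
        rw [h12]
        have h14 : (2.7 : ℝ) ^ 3 ≤ Real.exp 1 ^ 3 := pow_le_pow_left₀ (by norm_num) (by linarith) 3
        norm_num at h14 ⊢
        linarith
      rw [Real.exp_neg, ← div_eq_mul_inv, div_le_div_iff₀ (Real.exp_pos _) (by norm_num)]
      linarith
    have h15 := Real.exp_pos (34 * Real.log q0 * kk - L3 * kk)
    nlinarith
  have h9 : Real.exp (-((-34 * Real.log q0 + L3 + 1) * kk)) ≤
      1 / 2 * Real.exp (34 * Real.log q0 * kk - L3 * kk) := by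
    have e1 : -((-34 * Real.log q0 + L3 + 1) * (kk : ℝ)) =
        (34 * Real.log q0 * kk - L3 * kk) + -(kk : ℝ) := by ring
    rw [e1, Real.exp_add]
    have h10 : Real.exp (-(kk : ℝ)) ≤ 1 / 2 := by
      have h11 : Real.exp (-(kk : ℝ)) ≤ Real.exp (-1) := Real.exp_le_exp.mpr (by linarith)
      have h12 := Real.exp_neg_one_lt_d9
      linarith
    have h15 := Real.exp_pos (34 * Real.log q0 * kk - L3 * kk)
    nlinarith
  linarith

end Pool.Agent.K9h27.PK
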