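import Pool.Agent.Y41.EV.Base
import Mathlib.MeasureTheory.Covering.Vitali

/-!
The packing measure with the gauge `ψ(r) = r ^ (7/4) (log log (1/r)) ^ (-3/4)`.
-/

set_option autoImplicit false

namespace Pool.Agent.K9h27.PK

open MeasureTheory Filter Topology Pool.Agent.Y41.EV
open scoped ENNReal

/-- `x i` and `r i` are the centres, in `A`, and the radii, at most `η`, of disjoint closed
balls. -/
def IsPack (A : Set ℂ) (η : ℝ) (n : ℕ) (x : Fin n → ℂ) (r : Fin n → ℝ) : Prop :=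
  (∀ i, x i ∈ A ∧ 0 < r i ∧ r i ≤ η) ∧
    ∀ i j, i ≠ j → Disjoint (Metric.closedBall (x i) (r i)) (Metric.closedBall (x j) (r j))

/-- The packing premeasure with the gauge `ψ`. -/
noncomputable def prePack (A : Set ℂ) : ℝ≥0∞ :=
  ⨅ η : ℝ, ⨅ _ : 0 < η, ⨆ n : ℕ, ⨆ x : Fin n → ℂ, ⨆ r : Fin n → ℝ, ⨆ _ : IsPack A η n x r,
    ENNReal.ofReal (∑ i, psi (r i))

theorem prePack_empty : prePack ∅ = 0 := by
  unfold prePack
  refine le_antisymm ?_ zero_le
  refine (iInf₂_le (1:ℝ) one_pos).trans ?_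
  refine iSup_le fun n => iSup_le fun x => iSup_le fun r => iSup_le fun h => ?_
  rcases Nat.eq_zero_or_pos n with h0 | h0
  · subst h0
    simp
  · exact absurd (h.1 ⟨0, h0⟩).1 (Set.notMem_empty _)

/-- The packing measure with the gauge `ψ`. -/
noncomputable def packM : OuterMeasure ℂ := OuterMeasure.ofFunction prePack prePack_empty

theorem packM_apply (A : Set ℂ) :
    packM A = ⨅ (E : ℕ → Set ℂ) (_ : A ⊆ ⋃ n, E n), ∑' n, prePack (E n) := rfl

/-- `ψ` is doubling near `0`. -/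
theorem psi_doub : ∃ r5 : ℝ, 0 < r5 ∧ ∀ r : ℝ, 0 < r → r ≤ r5 → psi (5 * r) ≤ 50 * psi r := by
  refine ⟨1 / 25, by norm_num, fun r hr hr5 => ?_⟩
  unfold psi
  have e5 : (5 * r) ^ (7/4 : ℝ) = 5 ^ (7/4 : ℝ) * r ^ (7/4 : ℝ) :=
    Real.mul_rpow (by norm_num) hr.le
  have h5 : (5:ℝ) ^ (7/4 : ℝ) ≤ 25 := by
    have := Real.rpow_le_rpow_of_exponent_le (show (1:ℝ) ≤ 5 by norm_num)
      (show (7/4 : ℝ) ≤ 2 by norm_num)
    have e : (5:ℝ) ^ (2:ℝ) = 25 := by norm_num
    rwa [e] at this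
  -- comparison of the logarithms
  have hl : ll r ≤ 2 * ll (5 * r) := by
    unfold ll
    have a1 : Real.log (1 / r) = Real.log 5 + Real.log (1 / (5 * r)) := by
      rw [← Real.log_mul (by norm_num) (by positivity)]
      congr 1
      field_simp
    have a2 : Real.log 5 ≤ Real.log (1 / (5 * r)) := by
      refine Real.log_le_log (by norm_num) ?_
      rw [le_div_iff₀ (by positivity)]
      linarith
    have a3 : 1 < Real.log 5 := by
      rw [Real.lt_log_iff_exp_lt (by norm_num)]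
      have := Real.exp_one_lt_d9
      linarith
    obtain ⟨y, hy⟩ : ∃ y, y = Real.log (1 / (5 * r)) := ⟨_, rfl⟩
    rw [← hy] at a1 a2 ⊢
    have hy1 : 1 < y := lt_of_lt_of_le a3 a2
    have a4 : Real.log (1 / r) ≤ 2 * y := by rw [a1]; linarith
    have a5 : Real.log (Real.log (1 / r)) ≤ Real.log 2 + Real.log y := by
      rw [← Real.log_mul (by norm_num) (by linarith)]
      exact Real.log_le_log (by rw [a1]; linarith) a4
    have a6 : Real.log 2 ≤ 1 := by have := Real.log_two_lt_d9; linarith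
    have a7 : 0 ≤ Real.log y := Real.log_nonneg hy1.le
    have m1 := le_max_left (1:ℝ) (Real.log y)
    have m2 := le_max_right (1:ℝ) (Real.log y)
    refine max_le (by linarith) ?_
    linarith
  have hl0 := ll_pos r
  have hl5 := ll_pos (5 * r)
  have h2 : ll r ^ (3/4 : ℝ) ≤ 2 * ll (5 * r) ^ (3/4 : ℝ) := by
    have g1 := Real.rpow_le_rpow hl0.le hl (show (0:ℝ) ≤ 3/4 by norm_num)
    rw [Real.mul_rpow (by norm_num) hl5.le] at g1
    have g2 : (2:ℝ) ^ (3/4 : ℝ) ≤ 2 := by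
      have := Real.rpow_le_rpow_of_exponent_le (show (1:ℝ) ≤ 2 by norm_num)
        (show (3/4 : ℝ) ≤ 1 by norm_num)
      rwa [Real.rpow_one] at this
    exact g1.trans (mul_le_mul_of_nonneg_right g2 (by positivity))
  rw [e5, ← mul_div_assoc, div_le_div_iff₀ (by positivity) (by positivity)]
  have hr7 : 0 ≤ r ^ (7/4 : ℝ) := by positivity
  calc 5 ^ (7/4 : ℝ) * r ^ (7/4 : ℝ) * ll r ^ (3/4 : ℝ) ≤
      25 * r ^ (7/4 : ℝ) * (2 * ll (5 * r) ^ (3/4 : ℝ)) := by gcongr
    _ = 50 * r ^ (7/4 : ℝ) * ll (5 * r) ^ (3/4 : ℝ) := by ring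

/-- The sums over the finite subfamilies. -/
theorem tsum_le_sup {ι : Type*} {A : Set ℂ} {η : ℝ} {u : Set ι} {x : ι → ℂ} {r : ι → ℝ}
    (hx : ∀ a ∈ u, x a ∈ A ∧ 0 < r a ∧ r a ≤ η)
    (hd : u.PairwiseDisjoint fun a => Metric.closedBall (x a) (r a)) :
    ∑' a : u, ENNReal.ofReal (psi (r a)) ≤
      ⨆ n : ℕ, ⨆ x : Fin n → ℂ, ⨆ r : Fin n → ℝ, ⨆ _ : IsPack A η n x r,
        ENNReal.ofReal (∑ i, psi (r i)) := by
  classical
  rw [ENNReal.tsum_eq_iSup_sum]
  refine iSup_le fun s => ?_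
  have eqv := s.equivFin
  have e1 : ∑ a ∈ s, ENNReal.ofReal (psi (r a)) =
      ENNReal.ofReal (∑ i : Fin s.card, psi (r ((eqv.symm i : s) : u))) := by
    rw [ENNReal.ofReal_sum_of_nonneg fun i _ => ?_, ← Finset.sum_coe_sort s]
    · exact (Equiv.sum_comp eqv.symm
        (fun a : s => ENNReal.ofReal (psi (r ((a : u) : ι))))).symm
    · exact psi_nonneg (hx _ ((eqv.symm i : s) : u).2).2.1.le
  rw [e1]
  refine le_trans ?_ (le_iSup _ s.card)
  refine le_trans ?_ (le_iSup _ (fun i : Fin s.card => x ((eqv.symm i : s) : u)))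
  refine le_trans ?_ (le_iSup _ (fun i : Fin s.card => r ((eqv.symm i : s) : u)))
  refine le_iSup_of_le ⟨fun i => hx _ ((eqv.symm i : s) : u).2, fun i j hij => ?_⟩ le_rfl
  refine hd ((eqv.symm i : s) : u).2 ((eqv.symm j : s) : u).2 ?_
  intro h
  exact hij (eqv.symm.injective (Subtype.ext (Subtype.ext h)))

/-- The covering argument. -/
theorem pre_low {f : C(unitInterval, ℂ)} {T C : ℝ} (hT : 0 < T) (hC : 0 < C)
    {G : Set unitInterval} (hG : ∀ t ∈ G, ∃ᶠ r : ℝ in 𝓝[>] 0,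
      T * (volume {x : unitInterval | dist (f x) (f t) ≤ r}).toReal ≤ C * psi r) (E : Set ℂ) :
    ENNReal.ofReal T * volume (f ⁻¹' E ∩ G) ≤ ENNReal.ofReal (50 * C) * prePack E := by
  obtain ⟨r5, hr5, hdoub⟩ := psi_doub
  have hC0 : ENNReal.ofReal (50 * C) ≠ 0 := by
    rw [Ne, ENNReal.ofReal_eq_zero]; linarith
  rw [← ENNReal.inv_mul_le_iff hC0 ENNReal.ofReal_ne_top]
  unfold prePack
  refine le_iInf₂ fun η hη => ?_
  rw [ENNReal.inv_mul_le_iff hC0 ENNReal.ofReal_ne_top]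
  -- the radii
  have key : ∀ t ∈ G, ∃ r : ℝ, (0 < r ∧ r ≤ η ∧ r ≤ r5) ∧
      T * (volume {x : unitInterval | dist (f x) (f t) ≤ 5 * r}).toReal ≤ C * psi (5 * r) := by
    intro t ht
    have h1 : ∀ᶠ r : ℝ in 𝓝[>] 0, 0 < r ∧ r < 5 * min η r5 := by
      have h5 : (0:ℝ) < 5 * min η r5 := by have := lt_min hη hr5; linarith
      filter_upwards [self_mem_nhdsWithin, (eventually_lt_nhds h5).filter_mono
        nhdsWithin_le_nhds] with r g1 g2
      exact ⟨g1, g2⟩
    obtain ⟨r, hr, h2, h3⟩ := ((hG t ht).and_eventually h1).exists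
    have m1 := min_le_left η r5
    have m2 := min_le_right η r5
    refine ⟨r / 5, ⟨by positivity, by linarith, by linarith⟩, ?_⟩
    have e : 5 * (r / 5) = r := by ring
    rw [e]
    exact hr
  choose! ρ hρ1 hρ2 using key
  obtain ⟨u, hu1, hu2, hu3⟩ := Vitali.exists_disjoint_subfamily_covering_enlargement_closedBall
    (f ⁻¹' E ∩ G) (fun t => f t) ρ η (fun a ha => (hρ1 a ha.2).2.1) 5 (by norm_num)
  have hcount : u.Countable := by
    refine hu2.countable_of_nonempty_interior fun a ha => ?_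
    refine ⟨f a, ?_⟩
    exact Metric.ball_subset_interior_closedBall
      (Metric.mem_ball_self (hρ1 a (hu1 ha).2).1)
  have hcov : f ⁻¹' E ∩ G ⊆ ⋃ a ∈ u, {x : unitInterval | dist (f x) (f a) ≤ 5 * ρ a} := by
    intro x hx
    obtain ⟨b, hb, hsub⟩ := hu3 x hx
    rw [Set.mem_iUnion₂]
    refine ⟨b, hb, ?_⟩
    have h1 : f x ∈ Metric.closedBall (f x) (ρ x) :=
      Metric.mem_closedBall_self (hρ1 x hx.2).1.le
    exact Metric.mem_closedBall.1 (hsub h1)
  have h1 : volume (f ⁻¹' E ∩ G) ≤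
      ∑' a : u, volume {x : unitInterval | dist (f x) (f a) ≤ 5 * ρ a} :=
    (measure_mono hcov).trans (measure_biUnion_le _ hcount _)
  calc ENNReal.ofReal T * volume (f ⁻¹' E ∩ G) ≤ ENNReal.ofReal T *
        ∑' a : u, volume {x : unitInterval | dist (f x) (f a) ≤ 5 * ρ a} := by gcongr
    _ = ∑' a : u, ENNReal.ofReal T * volume {x : unitInterval | dist (f x) (f a) ≤ 5 * ρ a} :=
        ENNReal.tsum_mul_left.symm
    _ ≤ ∑' a : u, ENNReal.ofReal (50 * C) * ENNReal.ofReal (psi (ρ a)) := by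
        refine ENNReal.tsum_le_tsum fun a => ?_
        have haG := (hu1 a.2).2
        have h2 := hρ2 a haG
        obtain ⟨g1, g2, g3⟩ := hρ1 a haG
        have h3 := hdoub (ρ a) g1 g3
        rw [← ENNReal.ofReal_toReal (measure_ne_top volume
          {x : unitInterval | dist (f x) (f a) ≤ 5 * ρ a}), ← ENNReal.ofReal_mul hT.le,
          ← ENNReal.ofReal_mul (by positivity)]
        refine ENNReal.ofReal_le_ofReal (h2.trans ?_)
        calc C * psi (5 * ρ a) ≤ C * (50 * psi (ρ a)) := mul_le_mul_of_nonneg_left h3 hC.le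
          _ = _ := by ring
    _ = ENNReal.ofReal (50 * C) * ∑' a : u, ENNReal.ofReal (psi (ρ a)) := ENNReal.tsum_mul_left
    _ ≤ _ := by
        refine mul_le_mul_right ?_ _
        exact tsum_le_sup (fun a ha => ⟨(hu1 ha).1, (hρ1 a (hu1 ha).2).1,
          (hρ1 a (hu1 ha).2).2.1⟩) hu2

/-- Lower bound for the packing measure of the images of all sets of times. -/
theorem pack_low {f : C(unitInterval, ℂ)} {T C : ℝ} (hT : 0 < T) (hC : 0 < C)
    (h : ∀ᵐ t : unitInterval, ∃ᶠ r : ℝ in 𝓝[>] 0,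
      T * (volume {x : unitInterval | dist (f x) (f t) ≤ r}).toReal ≤ C * psi r)
    (S : Set unitInterval) :
    ENNReal.ofReal (1 / (50 * C) * T) * volume S ≤ packM (f '' S) := by
  obtain ⟨G, hG⟩ : ∃ G : Set unitInterval, G = {t | ∃ᶠ r : ℝ in 𝓝[>] 0,
      T * (volume {x : unitInterval | dist (f x) (f t) ≤ r}).toReal ≤ C * psi r} := ⟨_, rfl⟩
  have hGae : volume Gᶜ = 0 := by
    rw [hG]
    exact h
  have hC0 : ENNReal.ofReal (50 * C) ≠ 0 := by
    rw [Ne, ENNReal.ofReal_eq_zero]; linarith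
  have e : ENNReal.ofReal (1 / (50 * C) * T) = (ENNReal.ofReal (50 * C))⁻¹ * ENNReal.ofReal T := by
    rw [← ENNReal.ofReal_inv_of_pos (by positivity), ← ENNReal.ofReal_mul (by positivity),
      one_div]
  rw [e, mul_assoc, packM_apply]
  refine le_iInf₂ fun E hE => ?_
  rw [ENNReal.inv_mul_le_iff hC0 ENNReal.ofReal_ne_top, ← ENNReal.tsum_mul_left]
  have hsub : S ⊆ (⋃ n, (f ⁻¹' E n ∩ G)) ∪ Gᶜ := by
    intro t ht
    by_cases htG : t ∈ G
    · left
      have h2 := hE ⟨t, ht, rfl⟩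
      rw [Set.mem_iUnion] at h2 ⊢
      obtain ⟨n, hn⟩ := h2
      exact ⟨n, hn, htG⟩
    · exact Or.inr htG
  have h1 : volume S ≤ ∑' n, volume (f ⁻¹' E n ∩ G) := by
    refine (measure_mono hsub).trans ((measure_union_le _ _).trans ?_)
    rw [hGae, add_zero]
    exact measure_iUnion_le _
  calc ENNReal.ofReal T * volume S ≤ ENNReal.ofReal T * ∑' n, volume (f ⁻¹' E n ∩ G) := by
        gcongr
    _ = ∑' n, ENNReal.ofReal T * volume (f ⁻¹' E n ∩ G) := ENNReal.tsum_mul_left.symm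
    _ ≤ _ := by
        refine ENNReal.tsum_le_tsum fun n => ?_
        refine pre_low hT hC (fun t ht => ?_) (E n)
        rw [hG] at ht
        exact ht

end Pool.Agent.K9h27.PK
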