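import Pool.Agent.K9h27.PK.PackM
import Pool.Agent.Y995.HG.UpS

/-!
Upper bound for the packing measure from the upper bound for the `ψ`-variation.
-/

set_option autoImplicit false

namespace Pool.Agent.K9h27.PK

open MeasureTheory Filter Topology Pool.Agent.Y41.EV
open scoped ENNReal

/-- The first exit from a ball. -/
theorem exit_time {f : C(unitInterval, ℂ)} {t t' : unitInterval} (htt : t ≤ t') {r : ℝ}
    (hr : 0 < r) (h : r < dist (f t') (f t)) : ∃ s : unitInterval, t ≤ s ∧ s ≤ t' ∧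
      dist (f s) (f t) = r ∧ ∀ x : unitInterval, t ≤ x → x ≤ s → dist (f x) (f t) ≤ r := by
  have hc : Continuous (fun x : unitInterval => dist (f x) (f t)) :=
    f.continuous.dist continuous_const
  obtain ⟨K, hK⟩ : ∃ K : Set unitInterval, K = Set.Icc t t' ∩ {s | r ≤ dist (f s) (f t)} :=
    ⟨_, rfl⟩
  have hKc : IsCompact K := by
    rw [hK]
    exact isCompact_Icc.inter_right (isClosed_le continuous_const hc)
  have hKne : K.Nonempty := ⟨t', by rw [hK]; exact ⟨⟨htt, le_rfl⟩, h.le⟩⟩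
  obtain ⟨s, hs1, hs2⟩ := hKc.exists_isLeast hKne
  have hsK := hs1
  rw [hK] at hsK
  obtain ⟨⟨h1, h2⟩, h3⟩ := hsK
  have h3' : r ≤ dist (f s) (f t) := h3
  have h4 := intermediate_value_Icc h1 hc.continuousOn
    (show r ∈ Set.Icc (dist (f t) (f t)) (dist (f s) (f t)) by
      rw [dist_self]; exact ⟨hr.le, h3'⟩)
  obtain ⟨x, hx, hxr⟩ := h4
  have hxs : s ≤ x := hs2 (by
    rw [hK]
    exact ⟨⟨hx.1, hx.2.trans h2⟩, hxr.ge⟩)
  have hse : x = s := le_antisymm hx.2 hxs
  rw [hse] at hxr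
  refine ⟨s, h1, h2, hxr, fun y hy1 hy2 => ?_⟩
  rcases hy2.lt_or_eq with h5 | h5
  · by_contra hcon
    push Not at hcon
    have : s ≤ y := hs2 (by
      rw [hK]
      exact ⟨⟨hy1, hy2.trans h2⟩, hcon.le⟩)
    exact absurd h5 (not_lt.2 this)
  · rw [h5]
    exact hxr.le

theorem sum_len (a b : ℕ → unitInterval) : ∀ m : ℕ, (∀ i < m, b i ≤ a (i + 1)) →
    ∑ i ∈ Finset.range m, ((b i : ℝ) - a i) ≤ (a m : ℝ) - a 0 := by
  intro m
  induction m with
  | zero => intro _; simp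
  | succ m ih =>
    intro h
    rw [Finset.sum_range_succ]
    have h1 := ih fun i hi => h i (by omega)
    have h2 : (b m : ℝ) ≤ a (m + 1) := h m (by omega)
    linarith

/-- The sum over a packing. -/
theorem pack_sum {f : C(unitInterval, ℂ)} {T C ε η' η : ℝ} (hCT : 0 ≤ C * T)
    (hup : ∀ (n : ℕ) (a b : ℕ → unitInterval),
    (∀ i < n, a i ≤ b i ∧ (b i : ℝ) - a i ≤ η') → (∀ i j, i < j → j < n → b i ≤ a j) →
    ∑ i ∈ Finset.range n, psi (dist (f (a i)) (f (b i))) ≤
      C * T * ∑ i ∈ Finset.range n, ((b i : ℝ) - a i) + ε) (hη1 : η ≤ 1)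
    (hocc : ∀ z : ℂ, (volume {x : unitInterval | dist (f x) z ≤ η}).toReal ≤ η')
    (hε : 0 ≤ ε) (hψ : psi η ≤ ε)
    {s t : unitInterval} (hst : s ≤ t) {n : ℕ} {x : Fin n → ℂ} {r : Fin n → ℝ}
    (h : IsPack (f '' Set.Icc s t) η n x r) :
    ∑ i, psi (r i) ≤ C * T * ((t : ℝ) - s) + 2 * ε := by
  obtain ⟨h1, h2⟩ := h
  have hst' : (s : ℝ) ≤ t := hst
  have hnn : 0 ≤ C * T * ((t : ℝ) - s) := mul_nonneg hCT (by linarith)
  rcases Nat.eq_zero_or_pos n with h0 | h0
  · subst h0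
    simp only [Finset.univ_eq_empty, Finset.sum_empty]
    linarith
  obtain ⟨m, rfl⟩ : ∃ m, n = m + 1 := ⟨n - 1, by omega⟩
  have hx : ∀ i, ∃ u : unitInterval, (s ≤ u ∧ u ≤ t) ∧ f u = x i := by
    intro i
    obtain ⟨⟨u, hu, hu2⟩, -, -⟩ := h1 i
    exact ⟨u, hu, hu2⟩
  choose τ hτ1 hτ2 using hx
  obtain ⟨σ, hσ⟩ : ∃ σ : Equiv.Perm (Fin (m + 1)), σ = Tuple.sort τ := ⟨_, rfl⟩
  have hmono : Monotone (τ ∘ σ) := by rw [hσ]; exact Tuple.monotone_sort τ
  -- exits
  have hex : ∀ i : Fin m, ∃ u : unitInterval, τ (σ i.castSucc) ≤ u ∧ u ≤ τ (σ i.succ) ∧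
      dist (f u) (f (τ (σ i.castSucc))) = r (σ i.castSucc) ∧
      ∀ y : unitInterval, τ (σ i.castSucc) ≤ y → y ≤ u →
        dist (f y) (f (τ (σ i.castSucc))) ≤ r (σ i.castSucc) := by
    intro i
    have hne : σ i.castSucc ≠ σ i.succ := fun h => by
      have := σ.injective h
      have h5 : (i.castSucc : Fin (m + 1)).val = (i.succ : Fin (m + 1)).val := by rw [this]
      simp at h5
    refine exit_time (hmono (Fin.castSucc_lt_succ (i := i)).le) (h1 _).2.1 ?_
    by_contra hcon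
    push Not at hcon
    have h3 := Set.disjoint_left.1 (h2 _ _ hne)
    refine h3 (a := x (σ i.succ)) ?_ (Metric.mem_closedBall_self (h1 _).2.1.le)
    rw [Metric.mem_closedBall, ← hτ2 (σ i.succ), ← hτ2 (σ i.castSucc)]
    exact hcon
  choose e he1 he2 he3 he4 using hex
  obtain ⟨a, ha⟩ : ∃ a : ℕ → unitInterval, a = fun i => if hi : i < m + 1 then τ (σ ⟨i, hi⟩)
    else 1 := ⟨_, rfl⟩
  obtain ⟨b, hb⟩ : ∃ b : ℕ → unitInterval, b = fun i => if hi : i < m then e ⟨i, hi⟩
    else 1 := ⟨_, rfl⟩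
  have ha' : ∀ i (hi : i < m + 1), a i = τ (σ ⟨i, hi⟩) := by
    intro i hi
    rw [ha]
    simp only [hi, dif_pos]
  have hb' : ∀ i (hi : i < m), b i = e ⟨i, hi⟩ := by
    intro i hi
    rw [hb]
    simp only [hi, dif_pos]
  have hab : ∀ i < m, a i ≤ b i ∧ b i ≤ a (i + 1) := by
    intro i hi
    rw [ha' i (by omega), hb' i hi, ha' (i + 1) (by omega)]
    exact ⟨he1 ⟨i, hi⟩, he2 ⟨i, hi⟩⟩
  have hamono : ∀ i j, i ≤ j → j < m + 1 → a i ≤ a j := by
    intro i j hij hj
    rw [ha' i (by omega), ha' j hj]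
    exact hmono (show (⟨i, by omega⟩ : Fin (m + 1)) ≤ ⟨j, hj⟩ from hij)
  have hsum := hup m a b (fun i hi => ⟨(hab i hi).1, ?_⟩) (fun i j hij hj =>
    (hab i (by omega)).2.trans (hamono (i + 1) j (by omega) (by omega)))
  · have hlen := sum_len a b m fun i hi => (hab i hi).2
    have e0 : (s : ℝ) ≤ a 0 := by rw [ha' 0 (by omega)]; exact (hτ1 _).1
    have e1 : (a m : ℝ) ≤ t := by rw [ha' m (by omega)]; exact (hτ1 _).2
    have e2 : ∑ i, psi (r i) = ∑ i, psi (r (σ i)) := (Equiv.sum_comp σ (fun i => psi (r i))).symm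
    rw [e2, Fin.sum_univ_castSucc]
    have e3 : ∑ i : Fin m, psi (r (σ i.castSucc)) =
        ∑ i ∈ Finset.range m, psi (dist (f (a i)) (f (b i))) := by
      rw [Finset.sum_range]
      refine Finset.sum_congr rfl fun i _ => ?_
      rw [ha' i (by omega), hb' i i.2, dist_comm]
      have h5 := he3 i
      congr 1
      rw [← h5]
      rfl
    have e4 : psi (r (σ (Fin.last m))) ≤ psi η :=
      psi_mono (h1 _).2.1.le (h1 _).2.2 hη1
    have e5 : C * T * ∑ i ∈ Finset.range m, ((b i : ℝ) - a i) ≤ C * T * ((t : ℝ) - s) :=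
      mul_le_mul_of_nonneg_left (by linarith) hCT
    rw [e3]
    linarith
  · -- the mesh
    have hle : (a i : ℝ) ≤ b i := (hab i hi).1
    have hsub : Set.Icc (a i) (b i) ⊆ {y : unitInterval | dist (f y) (f (a i)) ≤ η} := by
      intro y hy
      have h5 := he4 ⟨i, hi⟩ y (by
        have := hy.1
        rw [ha' i (by omega)] at this
        exact this) (by
        have := hy.2
        rw [hb' i hi] at this
        exact this)
      have h6 := (h1 (σ (⟨i, hi⟩ : Fin m).castSucc)).2.2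
      rw [Set.mem_setOf_eq, ha' i (by omega)]
      exact h5.trans h6
    have h7 := ENNReal.toReal_mono (measure_ne_top _ _) (measure_mono (μ := volume) hsub)
    rw [unitInterval.volume_Icc, ENNReal.toReal_ofReal (by linarith)] at h7
    exact h7.trans (hocc _)

theorem psi_tend : Tendsto psi (𝓝[>] 0) (𝓝 0) := by
  have h1 : Tendsto (fun x : ℝ => x ^ (7/4 : ℝ)) (𝓝[>] 0) (𝓝 0) := by
    have h2 := (Real.continuousAt_rpow_const 0 (7/4 : ℝ) (Or.inr (by norm_num))).tendsto
    rw [Real.zero_rpow (by norm_num)] at h2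
    exact h2.mono_left nhdsWithin_le_nhds
  refine squeeze_zero' ?_ ?_ h1
  · filter_upwards [self_mem_nhdsWithin] with x hx
    exact psi_nonneg (le_of_lt hx)
  · filter_upwards [self_mem_nhdsWithin] with x hx
    exact psi_le (le_of_lt hx)

/-- Upper bound for arcs. -/
theorem pack_arc {f : C(unitInterval, ℂ)} {T C : ℝ} (hT : 0 < T) (hC : 0 < C)
    (hup : UPF f T C) (hocc : ∀ y : ℝ, 0 < y → ∃ η : ℝ, 0 < η ∧ ∀ z : ℂ,
      (volume {x : unitInterval | dist (f x) z ≤ η}).toReal ≤ y)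
    {s t : unitInterval} (hst : s ≤ t) :
    packM (f '' Set.Icc s t) ≤ ENNReal.ofReal (C * T * ((t : ℝ) - s)) := by
  refine (OuterMeasure.ofFunction_le _).trans ?_
  have hst' : (s : ℝ) ≤ t := hst
  refine ENNReal.le_of_forall_pos_le_add fun ε hε _ => ?_
  have hε' : (0:ℝ) < ε := hε
  obtain ⟨η', hη', h1⟩ := hup (ε / 2) (by positivity)
  obtain ⟨η1, hη1, h2⟩ := hocc η' hη'
  have h3 : ∀ᶠ x : ℝ in 𝓝[>] 0, psi x < ε / 2 ∧ 0 < x ∧ x < min η1 1 := by
    filter_upwards [psi_tend.eventually (gt_mem_nhds (show (0:ℝ) < ε / 2 by positivity)),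
      self_mem_nhdsWithin, (eventually_lt_nhds (lt_min hη1 one_pos)).filter_mono
        nhdsWithin_le_nhds] with x g1 g2 g3
    exact ⟨g1, g2, g3⟩
  obtain ⟨η, h4, h5, h6⟩ := h3.exists
  unfold prePack
  refine (iInf₂_le η h5).trans ?_
  refine iSup_le fun n => iSup_le fun x => iSup_le fun r => iSup_le fun h => ?_
  have h7 := pack_sum (η' := η') (ε := ε / 2) (by positivity) h1
    (h6.le.trans (min_le_right _ _)) (fun z => by
      refine le_trans ?_ (h2 z)
      refine ENNReal.toReal_mono (measure_ne_top _ _) (measure_mono fun y hy => ?_)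
      exact le_trans (show dist (f y) z ≤ η from hy) (h6.le.trans (min_le_left _ _)))
    (by positivity) h4.le hst h
  have h8 : 0 ≤ C * T * ((t : ℝ) - s) := mul_nonneg (by positivity) (by linarith)
  have h9 : ENNReal.ofReal (C * T * ((t : ℝ) - s)) + (ε : ℝ≥0∞) =
      ENNReal.ofReal (C * T * ((t : ℝ) - s) + ε) := by
    have h10 := ENNReal.ofReal_add h8 (show (0:ℝ) ≤ (ε : ℝ) from ε.2)
    rw [h10, ENNReal.ofReal_coe_nnreal]
  rw [h9]
  refine ENNReal.ofReal_le_ofReal (h7.trans (le_of_eq ?_))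
  ring

/-- From arcs to all sets of times (adaptation of `Pool.Agent.Y995.HG.up_set`). -/
theorem outer_set {f : C(unitInterval, ℂ)} {m0 : OuterMeasure ℂ} {K : ℝ}
    (h : ∀ s t : unitInterval, s ≤ t → m0 (f '' Set.Icc s t) ≤ ENNReal.ofReal (K * ((t : ℝ) - s)))
    (hK : 0 ≤ K) (S : Set unitInterval) : m0 (f '' S) ≤ ENNReal.ofReal K * volume S := by
  obtain ⟨m, hm⟩ : ∃ m : OuterMeasure ℝ, m = OuterMeasure.map (Subtype.val : unitInterval → ℝ)
    (OuterMeasure.comap f m0) := ⟨_, rfl⟩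
  have hmv : ∀ A : Set ℝ, m A = m0 (f '' (Subtype.val ⁻¹' A)) := by
    intro A
    rw [hm, OuterMeasure.map_apply, OuterMeasure.comap_apply]
  have h1 := Pool.Agent.Y995.HG.vol_real m (c := ENNReal.ofReal K) ENNReal.ofReal_ne_top
    (fun a b s hs => by
    rw [hmv]
    rcases (Subtype.val ⁻¹' s : Set unitInterval).eq_empty_or_nonempty with h0 | ⟨u0, hu0⟩
    · rw [h0, Set.image_empty, measure_empty]
      exact zero_le
    · have hab := hs hu0
      obtain ⟨x, hx⟩ : ∃ x : unitInterval, x = ⟨max a 0, le_max_right _ _,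
        max_le (hab.1.le.trans u0.2.2) zero_le_one⟩ := ⟨_, rfl⟩
      obtain ⟨y, hy⟩ : ∃ y : unitInterval, y = ⟨min b 1, le_min (u0.2.1.trans hab.2) zero_le_one,
        min_le_right _ _⟩ := ⟨_, rfl⟩
      have hxv : (x : ℝ) = max a 0 := by rw [hx]
      have hyv : (y : ℝ) = min b 1 := by rw [hy]
      have hsub : (Subtype.val ⁻¹' s : Set unitInterval) ⊆ Set.Icc x y := by
        intro u hu
        have h2 := hs hu
        constructor
        · show (x : ℝ) ≤ u
          rw [hxv]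
          exact max_le h2.1.le u.2.1
        · show (u : ℝ) ≤ y
          rw [hyv]
          exact le_min h2.2 u.2.2
      have hxy : x ≤ y := (hsub hu0).1.trans (hsub hu0).2
      refine (measure_mono (Set.image_mono hsub)).trans ((h x y hxy).trans ?_)
      rw [← ENNReal.ofReal_mul hK]
      refine ENNReal.ofReal_le_ofReal (mul_le_mul_of_nonneg_left ?_ hK)
      rw [hxv, hyv]
      have a1 := le_max_left a 0
      have a2 := min_le_left b 1
      linarith) (Subtype.val '' S)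
  rw [hmv, Set.preimage_image_eq _ Subtype.val_injective] at h1
  refine h1.trans (le_of_eq ?_)
  congr 1
  rw [Measure.Subtype.volume_def, comap_subtype_coe_apply measurableSet_Icc]

/-- Upper bound for the packing measure of the images of all sets of times. -/
theorem pack_up {f : C(unitInterval, ℂ)} {T C : ℝ} (hT : 0 < T) (hC : 0 < C)
    (hup : UPF f T C) (hocc : ∀ y : ℝ, 0 < y → ∃ η : ℝ, 0 < η ∧ ∀ z : ℂ,
      (volume {x : unitInterval | dist (f x) z ≤ η}).toReal ≤ y) (S : Set unitInterval) :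
    packM (f '' S) ≤ ENNReal.ofReal (C * T) * volume S :=
  outer_set (fun _ _ hst => pack_arc hT hC hup hocc hst) (by positivity) S

end Pool.Agent.K9h27.PK
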