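import Pool.Agent.K9h27.PK.Low
import Pool.Agent.R965.CS.Top

/-!
The exact packing gauge: all inputs put together (nothing is assumed).
-/

set_option autoImplicit false

namespace Pool.Agent.K9h27.PK

open H974 Finset H984P H984N Pool.Agent.Y985.ME Pool.Agent.Y995.FS Pool.Agent.Y995.HG
open Pool.Agent.Y41.EV
open MeasureTheory Filter Topology
open scoped ENNReal NNReal

/-- the occupation measure is diffuse -/
theorem hocc_of {f : C(unitInterval, ℂ)} {T C r0 : ℝ} (hT : 0 < T) (hC : 0 < C) (hr0 : 0 < r0)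
    (h : ∀ r : ℝ, 0 < r → r < r0 → ∀ z : ℂ,
      T * (volume {s : unitInterval | dist (f s) z ≤ r}).toReal ≤
        C * (r ^ (7/4 : ℝ) * Real.log (1 / r) ^ (1/8 : ℝ))) {y : ℝ} (hy : 0 < y) :
    ∃ η : ℝ, 0 < η ∧ ∀ z : ℂ,
      (volume {x : unitInterval | dist (f x) z ≤ η}).toReal ≤ y := by
  obtain ⟨η, hη⟩ : ∃ η : ℝ, η = min (min (1/2) (r0 / 2)) (T * y / C) := ⟨_, rfl⟩
  have h1 : η ≤ 1/2 := by rw [hη]; exact (min_le_left _ _).trans (min_le_left _ _)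
  have h2 : η ≤ r0 / 2 := by rw [hη]; exact (min_le_left _ _).trans (min_le_right _ _)
  have h3 : η ≤ T * y / C := by rw [hη]; exact min_le_right _ _
  have h4 : 0 < η := by rw [hη]; exact lt_min (lt_min (by norm_num) (by positivity)) (by positivity)
  refine ⟨η, h4, fun z => ?_⟩
  have h5 := h η h4 (by linarith) z
  have h6 : η ^ (7/4 : ℝ) * Real.log (1 / η) ^ (1/8 : ℝ) ≤ η := by
    have a1 : 1 ≤ 1 / η := by rw [le_div_iff₀ h4]; linarith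
    have a0 : 0 ≤ Real.log (1 / η) := Real.log_nonneg a1
    have a2 : Real.log (1 / η) ≤ 1 / η := by
      have := Real.log_le_sub_one_of_pos (show (0:ℝ) < 1 / η by positivity)
      linarith
    have a3 : Real.log (1 / η) ^ (1/8 : ℝ) ≤ (1 / η) ^ (3/4 : ℝ) :=
      (Real.rpow_le_rpow a0 a2 (by norm_num)).trans
        (Real.rpow_le_rpow_of_exponent_le a1 (by norm_num))
    have a4 : η ^ (7/4 : ℝ) * (1 / η) ^ (3/4 : ℝ) = η := by
      rw [one_div, Real.inv_rpow h4.le, ← Real.rpow_neg h4.le, ← Real.rpow_add h4]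
      norm_num
    calc η ^ (7/4 : ℝ) * Real.log (1 / η) ^ (1/8 : ℝ) ≤ η ^ (7/4 : ℝ) * (1 / η) ^ (3/4 : ℝ) :=
          mul_le_mul_of_nonneg_left a3 (by positivity)
      _ = η := a4
  have h7 : T * (volume {x : unitInterval | dist (f x) z ≤ η}).toReal ≤ T * y := by
    refine h5.trans ((mul_le_mul_of_nonneg_left (h6.trans h3) hC.le).trans (le_of_eq ?_))
    field_simp
  exact le_of_mul_le_mul_left h7 hT

/-- The exact packing gauge. -/
theorem packing_top : ∃ c C : ℝ, 0 < c ∧ 0 < C ∧ ∀ R : Rect,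
    (∀ δ : ℕ → ℝ, (∀ i, 0 < δ i) → Tendsto δ atTop (𝓝 0) →
      ∃ φ : ℕ → ℕ, StrictMono φ ∧ ∃ μ : ProbabilityMeasure X,
        Tendsto (fun i => R.law (δ (φ i))) atTop (𝓝 μ)) ∧
    ∀ δ : ℕ → ℝ, (∀ i, 0 < δ i) → Tendsto δ atTop (𝓝 0) → ∀ μ : ProbabilityMeasure X,
      Tendsto (fun i => R.law (δ i)) atTop (𝓝 μ) →
      ∀ᵐ p ∂(μ : Measure X), 0 < p.2 ∧ ∀ S : Set unitInterval,
        ENNReal.ofReal (c * p.2) * volume S ≤ packM (p.1 '' S) ∧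
        packM (p.1 '' S) ≤ ENNReal.ofReal (C * p.2) * volume S := by
  obtain ⟨⟨c, hc, hL⟩, ⟨C, hC, hU⟩, -⟩ := inputs
  obtain ⟨κ, θ, K3, A0, hκ, hθ, hK3, hA0, hlat⟩ := lat_p hc hC hL hU
  obtain ⟨C1, hC1, hlow⟩ := low_freq (κ := κ) hθ hK3
  obtain ⟨_, Cu, _, _, _, hCu, _, _, hev⟩ := Pool.Agent.R965.EV.ev_top
  refine ⟨1 / (50 * C1), Cu, by positivity, hCu, fun R => ?_⟩
  obtain ⟨h2, h3⟩ := hev R
  obtain ⟨A, hA1, hlatR⟩ := hlat R
  obtain ⟨C2, hC2, hocc⟩ := Pool.Agent.Y985.ME.occ_up R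
  refine ⟨h2, fun δ hδ hlim μ hμ => ?_⟩
  filter_upwards [h3 δ hδ hlim μ hμ, ae_typ hθ hK3 hA0 hA1 hlatR hδ hlim hμ,
    Pool.Agent.R965.EV.zero R δ hδ hlim μ hμ, hocc δ hδ hlim μ hμ] with p g1 g2 g3 g4
  obtain ⟨r0, hr0, g5⟩ := g4
  have h4 : ∀ᵐ t : unitInterval, 0 < dep R (p.1 t) := by
    rw [ae_iff]
    simp only [not_lt]
    exact g3
  refine ⟨g1.1, fun S => ⟨?_, ?_⟩⟩
  · refine pack_low g1.1 hC1 ?_ S
    filter_upwards [typp hκ hθ hK3 hA0 g1.1 g2, h4] with t k1 k2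
    exact hlow p.1 p.2 g1.1 t (k1 k2)
  · exact pack_up g1.1 hCu g1.2.1 (fun y hy => hocc_of g1.1 hC2 hr0 g5 hy) S

end Pool.Agent.K9h27.PK
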