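import Pool.Agent.K9h27.PK.Det
import Pool.Agent.R965.CS.Tr

/-!
Isolated fast pieces: probability of the trial.
-/

set_option autoImplicit false
set_option linter.unusedVariables false

namespace Pool.Agent.K9h27.PK

open H974 hiding RB
open Finset H342P H984P H984N Pool.Agent.Y995.FS Pool.Agent.R965.CS TH992.T

/-- the edges of the lower walls and arches -/
noncomputable def WLm (X Y : ℤ) (a m : ℕ) : Finset Edg :=
  (LRE (X + 40 * a) (X + 60 * m) (Y - 8 * a) (Y - 4 * a) ∪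
    TBE (X + 44 * a) (X + 48 * a) (Y - 8 * a) (Y - 4 * a)) ∪
  (TBE (X + 22 * m) (X + 26 * m) (Y - 18 * m) (Y - 4 * a) ∪
    (TBE (X + 54 * m) (X + 58 * m) (Y - 18 * m) (Y - 4 * a) ∪
      LRE (X + 22 * m) (X + 58 * m) (Y - 18 * m) (Y - 14 * m)))

/-- the edges of the upper walls and arches (faces) -/
noncomputable def WUm (X Y : ℤ) (a m : ℕ) : Finset Edg :=
  (LRE (X + 40 * a) (X + 60 * m) (Y + 4 * a) (Y + 8 * a) ∪
    TBE (X + 44 * a) (X + 48 * a) (Y + 4 * a) (Y + 8 * a)) ∪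
  (TBE (X + 22 * m) (X + 26 * m) (Y + 4 * a) (Y + 18 * m) ∪
    (TBE (X + 54 * m) (X + 58 * m) (Y + 4 * a) (Y + 18 * m) ∪
      LRE (X + 22 * m) (X + 58 * m) (Y + 14 * m) (Y + 18 * m)))

/-- lower walls and arches as an increasing event -/
def PLm (X Y : ℤ) (a m : ℕ) (F : Finset Edg) : Prop :=
  (LRc (X + 40 * a) (X + 60 * m) (Y - 8 * a) (Y - 4 * a) F ∧
    TBc (X + 44 * a) (X + 48 * a) (Y - 8 * a) (Y - 4 * a) F) ∧
  (TBc (X + 22 * m) (X + 26 * m) (Y - 18 * m) (Y - 4 * a) F ∧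
    (TBc (X + 54 * m) (X + 58 * m) (Y - 18 * m) (Y - 4 * a) F ∧
      LRc (X + 22 * m) (X + 58 * m) (Y - 18 * m) (Y - 14 * m) F))

/-- upper walls and arches in the dual lattice -/
def PUm0 (X Y : ℤ) (a m : ℕ) (F : Finset Edg) : Prop :=
  (LRc (X + 40 * a) (X + 60 * m) (Y + 4 * a) (Y + 8 * a) F ∧
    TBc (X + 44 * a) (X + 48 * a) (Y + 4 * a) (Y + 8 * a) F) ∧
  (TBc (X + 22 * m) (X + 26 * m) (Y + 4 * a) (Y + 18 * m) F ∧
    (TBc (X + 54 * m) (X + 58 * m) (Y + 4 * a) (Y + 18 * m) F ∧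
      LRc (X + 22 * m) (X + 58 * m) (Y + 14 * m) (Y + 18 * m) F))

/-- upper walls and arches -/
def PUm (X Y : ℤ) (a m : ℕ) (F : Finset Edg) : Prop := PUm0 X Y a m (dmp (RB X Y m \ F))

theorem PLm_mono {X Y : ℤ} {a m : ℕ} {F G : Finset Edg} (h : ∀ e ∈ WLm X Y a m, e ∈ F → e ∈ G)
    (hF : PLm X Y a m F) : PLm X Y a m G := by
  obtain ⟨⟨h1, h2⟩, h3, h4, h5⟩ := hF
  refine ⟨⟨LRc_mono' (fun e he => h e ?_) h1, TBc_mono' (fun e he => h e ?_) h2⟩,
    TBc_mono' (fun e he => h e ?_) h3, TBc_mono' (fun e he => h e ?_) h4,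
    LRc_mono' (fun e he => h e ?_) h5⟩
  all_goals simp only [WLm, mem_union]; tauto

theorem PUm_mono {X Y : ℤ} {a m : ℕ} {F G : Finset Edg}
    (h : ∀ e, dl e ∈ WUm X Y a m → e ∈ G → e ∈ F)
    (hF : PUm X Y a m F) : PUm X Y a m G := by
  have key : ∀ e ∈ WUm X Y a m, e ∈ dmp (RB X Y m \ F) → e ∈ dmp (RB X Y m \ G) := by
    intro e he he'
    rw [mem_dmp, mem_sdiff] at he' ⊢
    refine ⟨he'.1, fun h' => he'.2 (h _ ?_ h')⟩
    rw [Equiv.apply_symm_apply]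
    exact he
  obtain ⟨⟨h1, h2⟩, h3, h4, h5⟩ := hF
  refine ⟨⟨LRc_mono' (fun e he => key e ?_) h1, TBc_mono' (fun e he => key e ?_) h2⟩,
    TBc_mono' (fun e he => key e ?_) h3, TBc_mono' (fun e he => key e ?_) h4,
    LRc_mono' (fun e he => key e ?_) h5⟩
  all_goals simp only [WUm, mem_union]; tauto

theorem WLm_sub {X Y : ℤ} {a m : ℕ} (ha : 1 ≤ a) (ham : 40 * a ≤ m) :
    WLm X Y a m ⊆ RB X Y m := by
  have ha' : (1 : ℤ) ≤ a := by exact_mod_cast ha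
  have ham' : 40 * (a : ℤ) ≤ m := by exact_mod_cast ham
  rintro ⟨x, y, _ | _⟩ h
  · simp only [WLm, RB, mem_union, mem_RE_false, mem_LRE_false, mem_TBE_false] at h ⊢
    omega
  · simp only [WLm, RB, mem_union, mem_RE_true, mem_LRE_true, mem_TBE_true] at h ⊢
    omega

theorem WUm_sub {X Y : ℤ} {a m : ℕ} (ha : 1 ≤ a) (ham : 40 * a ≤ m) {e : Edg}
    (h : dl e ∈ WUm X Y a m) : e ∈ RB X Y m := by
  have ha' : (1 : ℤ) ≤ a := by exact_mod_cast ha
  have ham' : 40 * (a : ℤ) ≤ m := by exact_mod_cast ham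
  obtain ⟨x, y, _ | _⟩ := e
  · simp only [WUm, RB, dl_f, mem_union, mem_RE_false, mem_LRE_true, mem_TBE_true] at h ⊢
    omega
  · simp only [WUm, RB, dl_t, mem_union, mem_RE_true, mem_LRE_false, mem_TBE_false] at h ⊢
    omega

theorem WLm_WUm {X Y : ℤ} {a m : ℕ} (ha : 1 ≤ a) (ham : 40 * a ≤ m) {e : Edg}
    (h1 : e ∈ WLm X Y a m) (h2 : dl e ∈ WUm X Y a m) : False := by
  have ha' : (1 : ℤ) ≤ a := by exact_mod_cast ha
  have ham' : 40 * (a : ℤ) ≤ m := by exact_mod_cast ham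
  obtain ⟨x, y, _ | _⟩ := e
  · simp only [WLm, WUm, dl_f, mem_union, mem_LRE_false, mem_TBE_false, mem_LRE_true,
      mem_TBE_true] at h1 h2
    omega
  · simp only [WLm, WUm, dl_t, mem_union, mem_LRE_false, mem_TBE_false, mem_LRE_true,
      mem_TBE_true] at h1 h2
    omega

/-- A crossing of a box in the long direction. -/
theorem lr_ge {S : Finset Edg} {l r c d : ℤ} {M : ℕ} (hS : LRE l r c d ⊆ S) (hlr : l < r)
    (hcd : c < d) (h : r - l ≤ 8 * (d - c) * M + 8 * (d - c)) :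
    q0 ^ (2 * M + 1) ≤ Pr (fun _ => (1/2:ℝ)) S (LRc l r c d) := by
  rw [pr_LRc _ hS]
  exact hh_wide (by omega) (by omega) h

theorem tb_ge {S : Finset Edg} {l r c d : ℤ} {M : ℕ} (hS : TBE l r c d ⊆ S) (hlr : l < r)
    (hcd : c < d) (h : d - c ≤ 8 * (r - l) * M + 8 * (r - l)) :
    q0 ^ (2 * M + 1) ≤ Pr (fun _ => (1/2:ℝ)) S (TBc l r c d) := by
  rw [pr_TBc _ hS]
  exact hh_wide (by omega) (by omega) h

/-- Five increasing events. -/
theorem harris5 {S : Finset Edg} {A B C D E : Finset Edg → Prop} (hA : IncrE S A)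
    (hB : IncrE S B) (hC : IncrE S C) (hD : IncrE S D) (hE : IncrE S E) {n1 n2 n3 n4 n5 : ℕ}
    (h1 : q0 ^ n1 ≤ Pr (fun _ => (1/2:ℝ)) S A) (h2 : q0 ^ n2 ≤ Pr (fun _ => (1/2:ℝ)) S B)
    (h3 : q0 ^ n3 ≤ Pr (fun _ => (1/2:ℝ)) S C) (h4 : q0 ^ n4 ≤ Pr (fun _ => (1/2:ℝ)) S D)
    (h5 : q0 ^ n5 ≤ Pr (fun _ => (1/2:ℝ)) S E) :
    q0 ^ ((n1 + n2) + (n3 + (n4 + n5))) ≤
      Pr (fun _ => (1/2:ℝ)) S (fun F => (A F ∧ B F) ∧ (C F ∧ (D F ∧ E F))) := by
  have ok : Ok (fun _ : Edg => (1/2:ℝ)) := okq (by norm_num) (by norm_num)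
  have two : ∀ {P Q : Finset Edg → Prop} {n k : ℕ}, IncrE S P → IncrE S Q →
      q0 ^ n ≤ Pr (fun _ => (1/2:ℝ)) S P → q0 ^ k ≤ Pr (fun _ => (1/2:ℝ)) S Q →
      q0 ^ (n + k) ≤ Pr (fun _ => (1/2:ℝ)) S (fun F => P F ∧ Q F) := by
    intro P Q n k hP hQ hp hq
    rw [pow_add]
    exact (mul_le_mul hp hq (pow_nonneg q0_pos.le _) ((pow_nonneg q0_pos.le _).trans hp)).trans
      (Pr_harris ok (S := S) hP hQ)
  have inc : ∀ {P Q : Finset Edg → Prop}, IncrE S P → IncrE S Q →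
      IncrE S (fun F => P F ∧ Q F) := by
    intro P Q hP hQ F G h1 h2 h
    exact ⟨hP F G h1 h2 h.1, hQ F G h1 h2 h.2⟩
  exact two (inc hA hB) (inc hC (inc hD hE)) (two hA hB h1 h2)
    (two hC (inc hD hE) h3 (two hD hE h4 h5))

theorem pr_PLm {X Y : ℤ} {a m kk : ℕ} (ha : 1 ≤ a) (ham : 40 * a ≤ m) (hmk : m ≤ a * kk)
    {S : Finset Edg} (hS : WLm X Y a m ⊆ S) :
    q0 ^ (4 * kk + 7) ≤ Pr (fun _ => (1/2:ℝ)) S (PLm X Y a m) := by
  have ha' : (1 : ℤ) ≤ a := by exact_mod_cast ha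
  have ham' : 40 * (a : ℤ) ≤ m := by exact_mod_cast ham
  have hmk' : (m : ℤ) ≤ a * kk := by exact_mod_cast hmk
  have e : 4 * kk + 7 = ((2 * (2 * kk) + 1) + (2 * 0 + 1)) + ((2 * 0 + 1) + ((2 * 0 + 1) +
    (2 * 1 + 1))) := by ring
  rw [e]
  have hsub : ∀ {T : Finset Edg}, (∀ e ∈ T, e ∈ WLm X Y a m) → T ⊆ S := fun h e he => hS (h e he)
  refine harris5 (LRc_incr S _ _ _ _) (TBc_incr S _ _ _ _) (TBc_incr S _ _ _ _)
    (TBc_incr S _ _ _ _) (LRc_incr S _ _ _ _) ?_ ?_ ?_ ?_ ?_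
  · refine lr_ge (hsub fun e he => ?_) (by omega) (by omega) ?_
    · simp only [WLm, mem_union]; tauto
    · push_cast
      nlinarith
  · refine tb_ge (hsub fun e he => ?_) (by omega) (by omega) ?_
    · simp only [WLm, mem_union]; tauto
    · push_cast
      omega
  · refine tb_ge (hsub fun e he => ?_) (by omega) (by omega) ?_
    · simp only [WLm, mem_union]; tauto
    · push_cast
      omega
  · refine tb_ge (hsub fun e he => ?_) (by omega) (by omega) ?_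
    · simp only [WLm, mem_union]; tauto
    · push_cast
      omega
  · refine lr_ge (hsub fun e he => ?_) (by omega) (by omega) ?_
    · simp only [WLm, mem_union]; tauto
    · push_cast
      omega

theorem pr_PUm {X Y : ℤ} {a m kk : ℕ} (ha : 1 ≤ a) (ham : 40 * a ≤ m) (hmk : m ≤ a * kk) :
    q0 ^ (4 * kk + 7) ≤ Pr (fun _ => (1/2:ℝ)) (RB X Y m) (PUm X Y a m) := by
  have ha' : (1 : ℤ) ≤ a := by exact_mod_cast ha
  have ham' : 40 * (a : ℤ) ≤ m := by exact_mod_cast ham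
  have hmk' : (m : ℤ) ≤ a * kk := by exact_mod_cast hmk
  obtain ⟨S, hS⟩ : ∃ S : Finset Edg, S = dmp (RB X Y m) := ⟨_, rfl⟩
  have hsub0 : ∀ e, e ∈ WUm X Y a m → e ∈ S := by
    intro e he
    rw [hS, mem_dmp]
    exact WUm_sub ha ham (by rw [Equiv.apply_symm_apply]; exact he)
  have hsub : ∀ {T : Finset Edg}, (∀ e ∈ T, e ∈ WUm X Y a m) → T ⊆ S :=
    fun h e he => hsub0 e (h e he)
  have e := H12S.pr_dual (q := 1/2) (RB X Y m) (PUm0 X Y a m)
  have e1 : (1:ℝ) - 1/2 = 1/2 := by norm_num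
  rw [e1] at e
  unfold H12S.PQ at e
  have e2 : Pr (fun _ => (1/2:ℝ)) (RB X Y m) (PUm X Y a m) = Pr (fun _ => (1/2:ℝ)) S
    (PUm0 X Y a m) := by
    rw [hS, ← e]
    rfl
  rw [e2]
  have e : 4 * kk + 7 = ((2 * (2 * kk) + 1) + (2 * 0 + 1)) + ((2 * 0 + 1) + ((2 * 0 + 1) +
    (2 * 1 + 1))) := by ring
  rw [e]
  refine harris5 (LRc_incr S _ _ _ _) (TBc_incr S _ _ _ _) (TBc_incr S _ _ _ _)
    (TBc_incr S _ _ _ _) (LRc_incr S _ _ _ _) ?_ ?_ ?_ ?_ ?_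
  · refine lr_ge (hsub fun e he => ?_) (by omega) (by omega) ?_
    · simp only [WUm, mem_union]; tauto
    · push_cast
      nlinarith
  · refine tb_ge (hsub fun e he => ?_) (by omega) (by omega) ?_
    · simp only [WUm, mem_union]; tauto
    · push_cast
      omega
  · refine tb_ge (hsub fun e he => ?_) (by omega) (by omega) ?_
    · simp only [WUm, mem_union]; tauto
    · push_cast
      omega
  · refine tb_ge (hsub fun e he => ?_) (by omega) (by omega) ?_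
    · simp only [WUm, mem_union]; tauto
    · push_cast
      omega
  · refine lr_ge (hsub fun e he => ?_) (by omega) (by omega) ?_
    · simp only [WUm, mem_union]; tauto
    · push_cast
      omega

theorem PLm_long {X Y : ℤ} {a m : ℕ} {F : Finset Edg} {G : Set Edg}
    (h : ∀ e ∈ WLm X Y a m, e ∈ F → e ∈ G) (hF : PLm X Y a m F) :
    LgL X Y a m G ∧ ArL X Y a m G := by
  have key : ∀ (S : Finset Edg), (∀ e ∈ S, e ∈ WLm X Y a m) → ∀ (u w : Vtx),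
      Reach ((↑F : Set Edg) ∩ ↑S) u w → Reach (G ∩ ↑S) u w := by
    intro S hS u w hr
    refine hr.mono ?_
    rintro e ⟨he, he'⟩
    exact ⟨h e (hS e he') he, he'⟩
  obtain ⟨⟨⟨y1, y2, -, -, h1⟩, x1, x2, -, -, h2⟩, ⟨x3, x4, hx3, hx4, h3⟩,
    ⟨x5, x6, hx5, hx6, h4⟩, y7, y8, hy7, hy8, h5⟩ := hF
  refine ⟨⟨⟨y1, y2, key _ (fun e he => ?_) _ _ h1⟩, x1, x2, key _ (fun e he => ?_) _ _ h2⟩,
    ⟨x3, x4, hx3, hx4, key _ (fun e he => ?_) _ _ h3⟩,
    ⟨x5, x6, hx5, hx6, key _ (fun e he => ?_) _ _ h4⟩,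
    y7, y8, hy7, hy8, key _ (fun e he => ?_) _ _ h5⟩
  all_goals simp only [WLm, mem_union]; tauto

theorem PUm_long {X Y : ℤ} {a m : ℕ} {F : Finset Edg} {G : Set Edg}
    (h : ∀ e ∈ RB X Y m, e ∈ G → e ∈ F) (hF : PUm X Y a m F) :
    LgU X Y a m G ∧ ArU X Y a m G := by
  have key : ∀ (S : Finset Edg) (u w : Vtx),
      Reach ((↑(dmp (RB X Y m \ F)) : Set Edg) ∩ ↑S) u w → DReach (dE S \ G) u w := by
    intro S u w hr
    rw [← reach_dl]
    refine hr.mono ?_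
    rintro e ⟨h1, h2⟩
    rw [mem_coe, mem_dmp, mem_sdiff] at h1
    refine ⟨dl.symm e, ⟨?_, ?_⟩, by simp⟩
    · simp only [dE, Set.mem_ofPred_eq, Equiv.apply_symm_apply]
      exact Finset.mem_coe.1 h2
    · intro h3
      exact h1.2 (h _ h1.1 h3)
  obtain ⟨⟨⟨y1, y2, -, -, h1⟩, x1, x2, -, -, h2⟩, ⟨x3, x4, hx3, hx4, h3⟩,
    ⟨x5, x6, hx5, hx6, h4⟩, y7, y8, hy7, hy8, h5⟩ := hF
  exact ⟨⟨⟨y1, y2, key _ _ _ h1⟩, x1, x2, key _ _ _ h2⟩,
    ⟨x3, x4, hx3, hx4, key _ _ _ h3⟩, ⟨x5, x6, hx5, hx6, key _ _ _ h4⟩,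
    y7, y8, hy7, hy8, key _ _ _ h5⟩

/-! ### the row -/

theorem nra_mono {z : Vtx} {a : ℕ} {F G : Set Edg}
    (h1 : ∀ v ∈ ctr z a, ∀ e ∈ PR v a, e ∈ F → e ∈ G)
    (h2 : ∀ v ∈ ctr z a, ∀ e, dl e ∈ DR v a → e ∈ G → e ∈ F) : nRA z a F ≤ nRA z a G := by
  classical
  unfold nRA
  refine Finset.card_le_card fun v hv => ?_
  rw [mem_filter] at hv ⊢
  exact ⟨hv.1, RA_mono' (h1 v hv.1) (h2 v hv.1) hv.2⟩

theorem ctr_bd {z v : Vtx} {a : ℕ} (h : v ∈ ctr z a) :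
    (z.1 - a ≤ v.1 ∧ v.1 ≤ z.1 + a) ∧ (z.2 - a ≤ v.2 ∧ v.2 ≤ z.2 + a) := by
  simp only [ctr, Finset.mem_product, Finset.mem_Icc] at h
  exact h

theorem PR_NB {z v : Vtx} {a : ℕ} (h : v ∈ ctr z a) : PR v a ⊆ NB z a := by
  have hv := ctr_bd h
  unfold PR NB
  exact RE_sub_RE (by omega) (by omega) (by omega) (by omega)

theorem DR_NB {z v : Vtx} {a : ℕ} (ha : 1 ≤ a) (h : v ∈ ctr z a) {e : Edg}
    (he : dl e ∈ DR v a) : e ∈ NB z a := by
  have ha' : (1 : ℤ) ≤ a := by exact_mod_cast ha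
  have hv := ctr_bd h
  obtain ⟨x, y, _ | _⟩ := e
  · simp only [DR, dl_f, mem_RE_true] at he
    simp only [NB, mem_RE_false]
    omega
  · simp only [DR, dl_t, mem_RE_false] at he
    simp only [NB, mem_RE_true]
    omega

theorem nra_loc {z : Vtx} {a : ℕ} (ha : 1 ≤ a) (F : Finset Edg) :
    nRA z a (↑F : Set Edg) = nRA z a (↑(F ∩ NB z a) : Set Edg) := by
  refine le_antisymm (nra_mono ?_ ?_) (nra_mono ?_ ?_)
  · intro v hv e he h
    exact Finset.mem_coe.2 (mem_inter.2 ⟨Finset.mem_coe.1 h, PR_NB hv he⟩)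
  · intro v hv e he h
    exact Finset.mem_coe.2 (mem_inter.1 (Finset.mem_coe.1 h)).1
  · intro v hv e he h
    exact Finset.mem_coe.2 (mem_inter.1 (Finset.mem_coe.1 h)).1
  · intro v hv e he h
    exact Finset.mem_coe.2 (mem_inter.2 ⟨Finset.mem_coe.1 h, DR_NB ha hv he⟩)

/-- the centre of the `i`-th block -/
def cb (X Y : ℤ) (a m i : ℕ) : Vtx := (X + 39 * m + 20 * a + 30 * a * i, Y)

/-- every block of the row has many vertices with separated arms -/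
def NI (X Y : ℤ) (a m I : ℕ) (w : ℝ) (F : Finset Edg) : Prop :=
  ∀ i ∈ range I, w ≤ (nRA (cb X Y a m i) a (↑F : Set Edg) : ℝ)

theorem cb_bd {X Y : ℤ} {a m I i : ℕ} (hI : 30 * (a * I) ≤ m) (hi : i ∈ range I) :
    (X + 39 * m + 20 * a ≤ (cb X Y a m i).1 ∧ (cb X Y a m i).1 + 10 * a ≤ X + 40 * m) ∧
      (cb X Y a m i).2 = Y := by
  rw [mem_range] at hi
  have hi' : (i : ℤ) + 1 ≤ I := by exact_mod_cast hi
  have hI' : 30 * ((a : ℤ) * I) ≤ m := by exact_mod_cast hI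
  have h1 : (a : ℤ) * (i + 1) ≤ a * I := mul_le_mul_of_nonneg_left hi' (by positivity)
  have h0 : (0 : ℤ) ≤ a * i := by positivity
  unfold cb
  simp only
  refine ⟨⟨by nlinarith, by nlinarith⟩, trivial⟩

theorem cb_NB {X Y : ℤ} {a m I i : ℕ} (ham : 40 * a ≤ m) (hI : 30 * (a * I) ≤ m)
    (hi : i ∈ range I) : NB (cb X Y a m i) a ⊆ RB X Y m := by
  have ham' : 40 * (a : ℤ) ≤ m := by exact_mod_cast ham
  have h := cb_bd (X := X) (Y := Y) hI hi
  unfold NB RB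
  exact RE_sub_RE (by omega) (by omega) (by omega) (by omega)

theorem cb_disj {X Y : ℤ} {a m i j : ℕ} (ha : 1 ≤ a) (hij : i ≠ j) :
    Disjoint (NB (cb X Y a m i) a) (NB (cb X Y a m j) a) := by
  have ha' : (1 : ℤ) ≤ a := by exact_mod_cast ha
  have key : ∀ i j : ℕ, i < j → Disjoint (NB (cb X Y a m i) a) (NB (cb X Y a m j) a) := by
    intro i j h
    have h' : (i : ℤ) + 1 ≤ j := by exact_mod_cast h
    have h1 : (a : ℤ) * (i + 1) ≤ a * j := mul_le_mul_of_nonneg_left h' (by positivity)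
    have h2 : (a : ℤ) * (i + 1) = a * i + a := by ring
    obtain ⟨p, hp⟩ : ∃ p : ℤ, p = a * i := ⟨_, rfl⟩
    obtain ⟨q, hq⟩ : ∃ q : ℤ, q = a * j := ⟨_, rfl⟩
    have e1 : 30 * (a : ℤ) * i = 30 * p := by rw [hp]; ring
    have e2 : 30 * (a : ℤ) * j = 30 * q := by rw [hq]; ring
    rw [h2, ← hp, ← hq] at h1
    rw [Finset.disjoint_left]
    rintro ⟨x, y, _ | _⟩ h3 h4
    · simp only [NB, cb, mem_RE_false, e1, e2] at h3 h4
      omega
    · simp only [NB, cb, mem_RE_true, e1, e2] at h3 h4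
      omega
  rcases Nat.lt_or_gt_of_ne hij with h | h
  · exact key i j h
  · exact (key j i h).symm

theorem NI_mono {X Y : ℤ} {a m I : ℕ} {w : ℝ} {F G : Finset Edg}
    (h1 : ∀ i ∈ range I, ∀ v ∈ ctr (cb X Y a m i) a, ∀ e ∈ PR v a, e ∈ F → e ∈ G)
    (h2 : ∀ i ∈ range I, ∀ v ∈ ctr (cb X Y a m i) a, ∀ e, dl e ∈ DR v a → e ∈ G → e ∈ F)
    (h : NI X Y a m I w F) : NI X Y a m I w G := by
  intro i hi
  refine (h i hi).trans ?_
  have h3 : nRA (cb X Y a m i) a (↑F : Set Edg) ≤ nRA (cb X Y a m i) a (↑G : Set Edg) :=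
    nra_mono (fun v hv e he he' => Finset.mem_coe.2 (h1 i hi v hv e he (Finset.mem_coe.1 he')))
      (fun v hv e he he' => Finset.mem_coe.2 (h2 i hi v hv e he (Finset.mem_coe.1 he')))
  exact_mod_cast h3

theorem pr_block {X Y : ℤ} {a m I i : ℕ} {w p : ℝ} (ha : 1 ≤ a) (ham : 40 * a ≤ m)
    (hI : 30 * (a * I) ≤ m) (hi : i ∈ range I)
    (hp : ∀ z : Vtx, p ≤ Pr (fun _ => (1/2:ℝ)) (NB z a) (fun G => w ≤ (nRA z a (↑G) : ℝ))) :
    p ≤ Pr (fun _ => (1/2:ℝ)) (RB X Y m)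
      (fun G => w ≤ (nRA (cb X Y a m i) a (↑G : Set Edg) : ℝ)) := by
  refine (hp (cb X Y a m i)).trans (le_of_eq ?_)
  symm
  refine Pr_local (cb_NB ham hI hi) fun F _ => ?_
  have h := nra_loc (z := cb X Y a m i) ha F
  constructor
  · intro h'
    rw [h] at h'
    exact h'
  · intro h'
    rw [h]
    exact h'

/-- the row as a product -/
noncomputable def fI (X Y : ℤ) (a m : ℕ) (w : ℝ) (i : ℕ) (F : Finset Edg) : ℝ :=
  ind (w ≤ (nRA (cb X Y a m i) a (↑F : Set Edg) : ℝ))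

theorem NI_prod {X Y : ℤ} {a m I : ℕ} {w : ℝ} (F : Finset Edg) :
    ind (NI X Y a m I w F) = ∏ i ∈ range I, fI X Y a m w i F := by
  by_cases h : NI X Y a m I w F
  · rw [ind_of h]
    symm
    refine Finset.prod_eq_one fun i hi => ?_
    unfold fI
    exact ind_of (h i hi)
  · rw [ind_not_of h]
    unfold NI at h
    push Not at h
    obtain ⟨i, hi, h⟩ := h
    symm
    refine Finset.prod_eq_zero hi ?_
    unfold fI
    exact ind_not_of (not_le.2 h)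

/-- probability of the row -/
theorem pr_NI {X Y : ℤ} {a m I : ℕ} {w p : ℝ} (ha : 1 ≤ a) (ham : 40 * a ≤ m)
    (hI : 30 * (a * I) ≤ m) (hp0 : 0 ≤ p)
    (hp : ∀ z : Vtx, p ≤ Pr (fun _ => (1/2:ℝ)) (NB z a) (fun G => w ≤ (nRA z a (↑G) : ℝ))) :
    p ^ I ≤ Pr (fun _ => (1/2:ℝ)) (RB X Y m) (NI X Y a m I w) := by
  have e1 : Pr (fun _ => (1/2:ℝ)) (RB X Y m) (NI X Y a m I w) =
      Ex (fun _ => (1/2:ℝ)) (RB X Y m) (fun F => ∏ i ∈ range I, fI X Y a m w i F) := by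
    unfold Pr
    exact Ex_congr fun F _ => NI_prod F
  have e3 : Ex (fun _ => (1/2:ℝ)) (RB X Y m) (fun F => ∏ i ∈ range I, fI X Y a m w i F) =
      ∏ i ∈ range I, Ex (fun _ => (1/2:ℝ)) (RB X Y m) (fI X Y a m w i) := by
    refine Ex_prod_indep (range I) (fun i => NB (cb X Y a m i) a)
      (fun i hi => cb_NB ham hI hi) (fun i _ j _ hij => cb_disj ha hij)
      (fI X Y a m w) (fun i _ F _ => ?_)
    unfold fI
    rw [← nra_loc ha F]
  rw [e1, e3]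
  have e2 : p ^ I = ∏ _i ∈ range I, p := by rw [prod_const, card_range]
  rw [e2]
  refine Finset.prod_le_prod (fun _ _ => hp0) fun i hi => ?_
  exact pr_block ha ham hI hi hp

theorem NI_WU {X Y : ℤ} {a m I : ℕ} (ha : 1 ≤ a) (ham : 40 * a ≤ m) (hI : 30 * (a * I) ≤ m)
    {i : ℕ} (hi : i ∈ range I) {v : Vtx} (hv : v ∈ ctr (cb X Y a m i) a) {e : Edg}
    (he : e ∈ PR v a) : dl e ∉ WUm X Y a m := by
  have ha' : (1 : ℤ) ≤ a := by exact_mod_cast ha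
  have ham' : 40 * (a : ℤ) ≤ m := by exact_mod_cast ham
  have h := cb_bd (X := X) (Y := Y) hI hi
  have h2 := ctr_bd hv
  intro h'
  obtain ⟨x, y, _ | _⟩ := e
  · simp only [PR, mem_RE_false] at he
    simp only [WUm, dl_f, Finset.mem_union, mem_LRE_true, mem_TBE_true] at h'
    omega
  · simp only [PR, mem_RE_true] at he
    simp only [WUm, dl_t, Finset.mem_union, mem_LRE_false, mem_TBE_false] at h'
    omega

theorem NI_WL {X Y : ℤ} {a m I : ℕ} (ha : 1 ≤ a) (ham : 40 * a ≤ m) (hI : 30 * (a * I) ≤ m)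
    {i : ℕ} (hi : i ∈ range I) {v : Vtx} (hv : v ∈ ctr (cb X Y a m i) a) {e : Edg}
    (he : dl e ∈ DR v a) : e ∉ WLm X Y a m := by
  have ha' : (1 : ℤ) ≤ a := by exact_mod_cast ha
  have ham' : 40 * (a : ℤ) ≤ m := by exact_mod_cast ham
  have h := cb_bd (X := X) (Y := Y) hI hi
  have h2 := ctr_bd hv
  intro h'
  obtain ⟨x, y, _ | _⟩ := e
  · simp only [DR, dl_f, mem_RE_true] at he
    simp only [WLm, Finset.mem_union, mem_LRE_false, mem_TBE_false] at h'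
    omega
  · simp only [DR, dl_t, mem_RE_false] at he
    simp only [WLm, Finset.mem_union, mem_LRE_true, mem_TBE_true] at h'
    omega

/-- the static part of the trial -/
def NP (X Y : ℤ) (a m I : ℕ) (w : ℝ) (F : Finset Edg) : Prop :=
  NI X Y a m I w F ∧ (PLm X Y a m F ∧ PUm X Y a m F)

theorem NP_mono {X Y : ℤ} {a m I : ℕ} {w : ℝ} {F G : Finset Edg}
    (h1 : ∀ i ∈ range I, ∀ v ∈ ctr (cb X Y a m i) a, ∀ e ∈ PR v a, e ∈ F → e ∈ G)
    (h2 : ∀ i ∈ range I, ∀ v ∈ ctr (cb X Y a m i) a, ∀ e, dl e ∈ DR v a → e ∈ G → e ∈ F)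
    (h5 : ∀ e ∈ WLm X Y a m, e ∈ F → e ∈ G) (h6 : ∀ e, dl e ∈ WUm X Y a m → e ∈ G → e ∈ F)
    (h : NP X Y a m I w F) : NP X Y a m I w G :=
  ⟨NI_mono h1 h2 h.1, PLm_mono h5 h.2.1, PUm_mono h6 h.2.2⟩

theorem pr_NP {X Y : ℤ} {a m kk I : ℕ} {w p : ℝ} (ha : 1 ≤ a) (ham : 40 * a ≤ m)
    (hmk : m ≤ a * kk) (hI : 30 * (a * I) ≤ m) (hp0 : 0 ≤ p)
    (hp : ∀ z : Vtx, p ≤ Pr (fun _ => (1/2:ℝ)) (NB z a) (fun G => w ≤ (nRA z a (↑G) : ℝ))) :
    p ^ I * q0 ^ (8 * kk + 14) ≤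
      Pr (fun _ => (1/2:ℝ)) (RB X Y m) (NP X Y a m I w) := by
  classical
  obtain ⟨T2, hT2⟩ : ∃ T2 : Finset Edg, T2 = (RB X Y m).filter
    (fun e => dl e ∈ WUm X Y a m) := ⟨_, rfl⟩
  have mT2 : ∀ e, e ∈ T2 ↔ dl e ∈ WUm X Y a m := by
    intro e
    rw [hT2, mem_filter]
    exact ⟨fun h => h.2, fun h => ⟨WUm_sub ha ham h, h⟩⟩
  have key := harris_signed (p := fun _ : Edg => (1/2:ℝ)) two_ok (S := RB X Y m)
    (T₁ := WLm X Y a m) (T₂ := T2) (WLm_sub ha ham) (by rw [hT2]; exact filter_subset _ _)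
    (by
      rw [Finset.disjoint_left]
      intro e h1 h2
      exact WLm_WUm ha ham h1 ((mT2 e).1 h2))
    (N := NI X Y a m I w) (f := PLm X Y a m) (g := PUm X Y a m)
    (fun F _ => ⟨PLm_mono (fun e he h => mem_inter.2 ⟨h, he⟩),
      PLm_mono (fun e _ h => (mem_inter.1 h).1)⟩)
    (fun F G h hF => PLm_mono (fun e _ h' => h h') hF)
    (fun F _ => ⟨PUm_mono (fun e _ h => (mem_inter.1 h).1),
      PUm_mono (fun e he h => mem_inter.2 ⟨h, (mT2 e).2 he⟩)⟩)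
    (fun F G h hG => PUm_mono (fun e _ h' => h h') hG) (fun F G _ _ h0 h1 h2 h => by
      have f1 : ∀ e, e ∈ F → dl e ∉ WUm X Y a m → e ∈ G := by
        intro e heF hc2
        by_cases hc1 : e ∈ WLm X Y a m
        · exact (mem_inter.1 (h1 (mem_inter.2 ⟨heF, hc1⟩))).1
        · have h5 : e ∈ F \ (WLm X Y a m ∪ T2) := by
            rw [mem_sdiff, mem_union]
            exact ⟨heF, fun hc => hc.elim hc1 (fun h => hc2 ((mT2 e).1 h))⟩
          rw [h0] at h5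
          exact (mem_sdiff.1 h5).1
      have f2 : ∀ e, e ∈ G → e ∉ WLm X Y a m → e ∈ F := by
        intro e heG hc1
        by_cases hc2 : e ∈ T2
        · exact (mem_inter.1 (h2 (mem_inter.2 ⟨heG, hc2⟩))).1
        · have h5 : e ∈ G \ (WLm X Y a m ∪ T2) := by
            rw [mem_sdiff, mem_union]
            exact ⟨heG, fun hc => hc.elim hc1 hc2⟩
          rw [← h0] at h5
          exact (mem_sdiff.1 h5).1
      exact NI_mono (fun i hi v hv e he heF => f1 e heF (NI_WU ha ham hI hi hv he))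
        (fun i hi v hv e he heG => f2 e heG (NI_WL ha ham hI hi hv he)) h)
  refine le_trans ?_ key
  refine mul_le_mul (pr_NI ha ham hI hp0 hp) ?_ (pow_nonneg q0_pos.le _)
    (Pr_nonneg two_ok _ _)
  rw [show 8 * kk + 14 = (4 * kk + 7) + (4 * kk + 7) by ring, pow_add]
  have p1 := pr_PLm ha ham hmk (WLm_sub (X := X) (Y := Y) ha ham)
  exact mul_le_mul p1 (pr_PUm ha ham hmk) (pow_nonneg q0_pos.le _)
    ((pow_nonneg q0_pos.le _).trans p1)

/-- the vertices of the row -/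
theorem NI_card {X Y : ℤ} {a m I : ℕ} {w : ℝ} (ha : 1 ≤ a) (ham : 40 * a ≤ m)
    (hI : 30 * (a * I) ≤ m) {F : Finset Edg} {G : Set Edg}
    (hFG : ∀ e ∈ RB X Y m, (e ∈ F ↔ e ∈ G)) (h : NI X Y a m I w F) [DecidablePred fun v => RA v a G] :
    w * I ≤ (((Wr X Y a m).filter (fun v => RA v a G)).card : ℝ) := by
  classical
  have ha' : (1 : ℤ) ≤ a := by exact_mod_cast ha
  have ham' : 40 * (a : ℤ) ≤ m := by exact_mod_cast ham
  obtain ⟨U, hU⟩ : ∃ U : ℕ → Finset Vtx, U = fun i => (ctr (cb X Y a m i) a).filter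
    (fun v => RA v a G) := ⟨_, rfl⟩
  have hdis : ∀ i ∈ range I, ∀ j ∈ range I, i ≠ j → Disjoint (U i) (U j) := by
    have key : ∀ i j : ℕ, i < j → Disjoint (U i) (U j) := by
      intro i j hij
      have h' : (i : ℤ) + 1 ≤ j := by exact_mod_cast hij
      have h1 : (a : ℤ) * (i + 1) ≤ a * j := mul_le_mul_of_nonneg_left h' (by positivity)
      have h2 : (a : ℤ) * (i + 1) = a * i + a := by ring
      obtain ⟨p, hp⟩ : ∃ p : ℤ, p = a * i := ⟨_, rfl⟩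
      obtain ⟨q, hq⟩ : ∃ q : ℤ, q = a * j := ⟨_, rfl⟩
      have e1 : 30 * (a : ℤ) * i = 30 * p := by rw [hp]; ring
      have e2 : 30 * (a : ℤ) * j = 30 * q := by rw [hq]; ring
      rw [h2, ← hp, ← hq] at h1
      rw [Finset.disjoint_left]
      intro v h3 h4
      simp only [hU, mem_filter] at h3 h4
      have h5 := ctr_bd h3.1
      have h6 := ctr_bd h4.1
      simp only [cb, e1, e2] at h5 h6
      omega
    intro i _ j _ hij
    rcases Nat.lt_or_gt_of_ne hij with h | h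
    · exact key i j h
    · exact (key j i h).symm
  have h1 : ((range I).biUnion U) ⊆ (Wr X Y a m).filter (fun v => RA v a G) := by
    intro v hv
    rw [mem_biUnion] at hv
    obtain ⟨i, hi, hv⟩ := hv
    simp only [hU, mem_filter] at hv
    have h2 := cb_bd (X := X) (Y := Y) hI hi
    have h3 := ctr_bd hv.1
    rw [mem_filter, mem_Wr]
    exact ⟨by omega, hv.2⟩
  have h2 := Finset.card_le_card h1
  rw [Finset.card_biUnion hdis] at h2
  have h3 : w * I ≤ ((∑ i ∈ range I, (U i).card : ℕ) : ℝ) := by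
    push_cast
    have : w * I = ∑ _i ∈ range I, w := by rw [sum_const, card_range, nsmul_eq_mul]; ring
    rw [this]
    refine Finset.sum_le_sum fun i hi => (h i hi).trans ?_
    have h4 : nRA (cb X Y a m i) a (↑F : Set Edg) ≤ (U i).card := by
      unfold nRA
      refine Finset.card_le_card fun v hv => ?_
      simp only [hU]
      rw [mem_filter] at hv ⊢
      have hNB := cb_NB (X := X) (Y := Y) ham hI hi
      refine ⟨hv.1, RA_mono' (fun e he he' => ?_) (fun e he he' => ?_) hv.2⟩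
      · exact (hFG e (hNB (PR_NB hv.1 he))).1 (Finset.mem_coe.1 he')
      · exact Finset.mem_coe.2 ((hFG e (hNB (DR_NB ha hv.1 he))).2 he')
    exact_mod_cast h4
  refine h3.trans ?_
  exact_mod_cast h2

end Pool.Agent.K9h27.PK
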