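import Pool.Agent.R965.CS.Tree

/-!
Almost every time is in the middle third of infinitely many pieces with a given property
(adaptation of `Pool.Agent.R965.CS.Tree`).
-/

set_option autoImplicit false
set_option linter.unusedVariables false

namespace Pool.Agent.K9h27.PK

open MeasureTheory Filter Topology Pool.Agent.Y995.FS Pool.Agent.Y995.HG
open scoped ENNReal

/-- `N` disjoint time intervals in `[s, t]` with the property `Q`, of natural duration at least
`τ`. -/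
def SPG (Q : unitInterval → unitInterval → Prop) (T τ : ℝ) (N : ℕ) (s t : unitInterval) : Prop :=
  ∃ u v : Fin N → unitInterval, (∀ a, s ≤ u a ∧ u a ≤ v a ∧ v a ≤ t) ∧
    (∀ a b, a ≠ b → v a ≤ u b ∨ v b ≤ u a) ∧
    ∀ a, Q (u a) (v a) ∧ τ ≤ T * ((v a : ℝ) - u a)

/-- The times in the middle third of a piece with the property `Q`. -/
def GG (Q : unitInterval → unitInterval → Prop) (T τ : ℝ) : Set unitInterval :=
  {t | ∃ u v : unitInterval, u ≤ v ∧ Q u v ∧ τ ≤ T * ((v : ℝ) - u) ∧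
    (u : ℝ) + ((v : ℝ) - u) / 3 ≤ t ∧ (t : ℝ) ≤ v - ((v : ℝ) - u) / 3}

/-- One step. -/
theorem gstep {B : Set unitInterval} {Q : unitInterval → unitInterval → Prop} {n d k N : ℕ} (hk : k < 2 ^ n)
    {τ T V : ℝ} (hT : 0 < T) (hτ : 0 < τ) (hV : 0 ≤ V)
    (hx : 12 * (T * (1/2) ^ (n + d)) ≤ τ) (hB : ∀ t ∈ B, t ∉ GG Q T τ)
    (hch : ∀ j < 2 ^ d, volume (B ∩ Dy (n + d) (k * 2 ^ d + j)) ≤
      ENNReal.ofReal (V * (1/2) ^ (n + d)))
    (hs : ∃ s t : unitInterval, Set.Icc s t = Dy n k ∧ SPG Q T τ N s t) :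
    volume (B ∩ Dy n k) ≤ ENNReal.ofReal (V * ((1/2) ^ n - N * τ / (6 * T))) := by
  classical
  obtain ⟨s, t, hI, u, v, z1, z2, z3⟩ := hs
  obtain ⟨x, hxd⟩ : ∃ x : ℝ, x = (1/2) ^ (n + d) := ⟨_, rfl⟩
  have hx0 : 0 < x := by rw [hxd]; positivity
  rw [← hxd] at hx hch
  have hlen : ∀ a, 12 * x ≤ (v a : ℝ) - u a ∧ τ / T ≤ (v a : ℝ) - u a := by
    intro a
    have h1 := (z3 a).2
    constructor
    · have h2 : T * (12 * x) ≤ T * ((v a : ℝ) - u a) := by linarith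
      exact le_of_mul_le_mul_left h2 hT
    · rw [div_le_iff₀ hT]; linarith
  obtain ⟨S, hS⟩ : ∃ S : Fin N → Finset ℕ, S = fun a => (Finset.range (2 ^ d)).filter
    (fun j => ∀ y ∈ Dy (n + d) (k * 2 ^ d + j), (u a : ℝ) + ((v a : ℝ) - u a) / 3 ≤ y ∧
      (y : ℝ) ≤ v a - ((v a : ℝ) - u a) / 3) := ⟨_, rfl⟩
  have hSm : ∀ a j, j ∈ S a ↔ j < 2 ^ d ∧ ∀ y ∈ Dy (n + d) (k * 2 ^ d + j),
      (u a : ℝ) + ((v a : ℝ) - u a) / 3 ≤ y ∧ (y : ℝ) ≤ v a - ((v a : ℝ) - u a) / 3 := by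
    intro a j
    rw [hS]
    simp only [Finset.mem_filter, Finset.mem_range]
  have hdis : ∀ a b, a ≠ b → Disjoint (S a) (S b) := by
    intro a b hab
    rw [Finset.disjoint_left]
    intro j ha hb
    rw [hSm] at ha hb
    obtain ⟨hj, ha⟩ := ha
    obtain ⟨-, hb⟩ := hb
    have hne : (Dy (n + d) (k * 2 ^ d + j)).Nonempty := by
      refine nonempty_of_measure_ne_zero (μ := volume) ?_
      rw [Dy_vol (child_lt hk hj), Ne, ENNReal.ofReal_eq_zero]
      push Not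
      positivity
    obtain ⟨y, hy⟩ := hne
    have h1 := ha y hy
    have h2 := hb y hy
    have h3 := (hlen a).1
    have h4 := (hlen b).1
    rcases z2 a b hab with h | h
    · have h' : (v a : ℝ) ≤ u b := h
      linarith
    · have h' : (v b : ℝ) ≤ u a := h
      linarith
  obtain ⟨U, hU⟩ : ∃ U : Finset ℕ, U = Finset.univ.biUnion S := ⟨_, rfl⟩
  have hUr : U ⊆ Finset.range (2 ^ d) := by
    intro j hj
    rw [hU, Finset.mem_biUnion] at hj
    obtain ⟨a, -, ha⟩ := hj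
    exact Finset.mem_range.mpr ((hSm a j).1 ha).1
  have hUc : U.card = ∑ a, (S a).card := by
    rw [hU]
    exact Finset.card_biUnion fun a _ b _ hab => hdis a b hab
  -- every set of children is large
  have hbig : ∀ a, τ / (6 * T) ≤ (S a).card * x := by
    intro a
    obtain ⟨g1, g2⟩ := hlen a
    have hu0 := (u a).2.1
    have hv1 := (v a).2.2
    obtain ⟨m1, hm1⟩ : ∃ m : unitInterval, (m : ℝ) = (u a : ℝ) + ((v a : ℝ) - u a) / 3 + x :=
      ⟨⟨(u a : ℝ) + ((v a : ℝ) - u a) / 3 + x, by constructor <;> linarith⟩, rfl⟩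
    obtain ⟨m2, hm2⟩ : ∃ m : unitInterval, (m : ℝ) = (v a : ℝ) - ((v a : ℝ) - u a) / 3 - x :=
      ⟨⟨(v a : ℝ) - ((v a : ℝ) - u a) / 3 - x, by constructor <;> linarith⟩, rfl⟩
    have h1 : Set.Icc m1 m2 ⊆ ⋃ j ∈ S a, Dy (n + d) (k * 2 ^ d + j) := by
      intro y hy
      have hy1 : (m1 : ℝ) ≤ y := hy.1
      have hy2 : (y : ℝ) ≤ m2 := hy.2
      have hyD : y ∈ Dy n k := by
        rw [← hI]
        refine ⟨(z1 a).1.trans ?_, le_trans ?_ (z1 a).2.2⟩
        · show (u a : ℝ) ≤ y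
          linarith
        · show (y : ℝ) ≤ v a
          linarith
      obtain ⟨j, hj, hj2⟩ := Dy_cover n d k hyD
      rw [Set.mem_iUnion₂]
      refine ⟨j, (hSm a j).2 ⟨hj, fun z hz => ?_⟩, hj2⟩
      have h5 := Dy_dist hj2 hz
      rw [← hxd, abs_le] at h5
      constructor <;> linarith [h5.1, h5.2]
    have h2 : volume (Set.Icc m1 m2) ≤ ENNReal.ofReal ((S a).card * x) := by
      refine (measure_mono h1).trans ((measure_biUnion_finset_le _ _).trans ?_)
      rw [Finset.sum_congr rfl (fun j hj => Dy_vol (n := n + d) (k := k * 2 ^ d + j)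
        (child_lt hk ((hSm a j).1 hj).1)), Finset.sum_const, ← hxd, nsmul_eq_mul,
        ENNReal.ofReal_mul (Nat.cast_nonneg _), ENNReal.ofReal_natCast]
    rw [unitInterval.volume_Icc, ENNReal.ofReal_le_ofReal_iff (by positivity), hm1, hm2] at h2
    have h3 : τ / (6 * T) = (τ / T) / 6 := by field_simp
    rw [h3]
    linarith
  have hUx : N * τ / (6 * T) ≤ U.card * x := by
    have h1 : ∑ _a : Fin N, τ / (6 * T) ≤ ∑ a : Fin N, ((S a).card : ℝ) * x :=
      Finset.sum_le_sum fun a _ => hbig a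
    rw [Finset.sum_const, Finset.card_univ, Fintype.card_fin, nsmul_eq_mul] at h1
    rw [hUc]
    push_cast
    rw [Finset.sum_mul]
    calc N * τ / (6 * T) = N * (τ / (6 * T)) := by ring
      _ ≤ _ := h1
  -- the covering
  have hcov : B ∩ Dy n k ⊆
      ⋃ j ∈ Finset.range (2 ^ d) \ U, B ∩ Dy (n + d) (k * 2 ^ d + j) := by
    rintro y ⟨hyB, hy⟩
    obtain ⟨j, hj, hj2⟩ := Dy_cover n d k hy
    rw [Set.mem_iUnion₂]
    refine ⟨j, Finset.mem_sdiff.mpr ⟨Finset.mem_range.mpr hj, fun hjU => ?_⟩, hyB, hj2⟩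
    rw [hU, Finset.mem_biUnion] at hjU
    obtain ⟨a, -, ha⟩ := hjU
    obtain ⟨-, h1⟩ := (hSm a j).1 ha
    obtain ⟨h2, h3⟩ := h1 y hj2
    exact hB y hyB ⟨u a, v a, (z1 a).2.1, (z3 a).1, (z3 a).2, h2, h3⟩
  have hsum : volume (B ∩ Dy n k) ≤
      ENNReal.ofReal (((Finset.range (2 ^ d) \ U).card : ℝ) * (V * x)) := by
    refine (measure_mono hcov).trans ((measure_biUnion_finset_le _ _).trans ?_)
    have h1 : ∀ j ∈ Finset.range (2 ^ d) \ U, volume (B ∩ Dy (n + d) (k * 2 ^ d + j)) ≤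
        ENNReal.ofReal (V * x) := by
      intro j hj
      exact hch j (Finset.mem_range.mp (Finset.mem_sdiff.mp hj).1)
    refine (Finset.sum_le_sum h1).trans ?_
    rw [Finset.sum_const, nsmul_eq_mul,
      ENNReal.ofReal_mul (Nat.cast_nonneg _), ENNReal.ofReal_natCast]
  refine hsum.trans (ENNReal.ofReal_le_ofReal ?_)
  have hc1 : ((Finset.range (2 ^ d) \ U).card : ℝ) = 2 ^ d - U.card := by
    rw [Finset.card_sdiff_of_subset hUr, Finset.card_range, Nat.cast_sub]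
    · push_cast; ring
    · have := Finset.card_le_card hUr
      rwa [Finset.card_range] at this
  have hxd2 : (2 : ℝ) ^ d * x = (1/2) ^ n := by
    rw [hxd, pow_add]
    have : (2 : ℝ) ^ d * (1/2) ^ d = 1 := by rw [← mul_pow]; norm_num
    calc (2 : ℝ) ^ d * ((1/2) ^ n * (1/2) ^ d) = (1/2) ^ n * ((2 : ℝ) ^ d * (1/2) ^ d) := by ring
      _ = _ := by rw [this, mul_one]
  rw [hc1]
  have h5 : V * (N * τ / (6 * T)) ≤ V * (U.card * x) := mul_le_mul_of_nonneg_left hUx hV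
  calc (2 ^ d - (U.card : ℝ)) * (V * x) = V * ((2 : ℝ) ^ d * x) - V * (U.card * x) := by ring
    _ ≤ V * (1/2) ^ n - V * (N * τ / (6 * T)) := by rw [hxd2]; linarith
    _ = _ := by ring

/-- The data of the recursion. -/
structure GScales (B : Set unitInterval) (Q : ℕ → unitInterval → unitInterval → Prop) (T : ℝ)
    (lv dd N : ℕ → ℕ) (τ q : ℕ → ℝ) (i0 : ℕ) (I0 : Set unitInterval) : Prop where
  lv_succ : ∀ i, lv (i + 1) = lv i + dd i
  τ_pos : ∀ i, i0 ≤ i → 0 < τ i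
  small : ∀ i, i0 ≤ i → 12 * (T * (1/2) ^ lv (i + 1)) ≤ τ i
  bad : ∀ i, i0 ≤ i → ∀ t ∈ B, t ∉ GG (Q i) T (τ i)
  q_le : ∀ i, i0 ≤ i → q i ≤ 1
  gain : ∀ i, i0 ≤ i → q i * (1/2) ^ lv i ≤ N i * τ i / (6 * T)
  succ : ∀ i, i0 ≤ i → ∀ k < 2 ^ lv i, Dy (lv i) k ⊆ I0 →
    ∃ s t : unitInterval, Set.Icc s t = Dy (lv i) k ∧ SPG (Q i) T (τ i) (N i) s t

theorem grec {B : Set unitInterval} {Q : ℕ → unitInterval → unitInterval → Prop} {T : ℝ}
    {lv dd N : ℕ → ℕ} {τ q : ℕ → ℝ} {i0 : ℕ} {I0 : Set unitInterval} (hT : 0 < T)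
    (h : GScales B Q T lv dd N τ q i0 I0) : ∀ m i : ℕ, i0 ≤ i → ∀ k < 2 ^ lv i,
      Dy (lv i) k ⊆ I0 → volume (B ∩ Dy (lv i) k) ≤ ENNReal.ofReal
        ((∏ j ∈ Finset.range m, (1 - q (i + j))) * (1/2) ^ lv i) := by
  intro m
  induction m with
  | zero =>
    intro i hi k hk hI
    rw [Finset.prod_range_zero, one_mul, ← Dy_vol hk]
    exact measure_mono Set.inter_subset_right
  | succ m ih =>
    intro i hi k hk hI
    have hlv := h.lv_succ i
    have hP0 : 0 ≤ ∏ j ∈ Finset.range m, (1 - q (i + 1 + j)) :=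
      Finset.prod_nonneg fun j _ => by
        have := h.q_le (i + 1 + j) (by omega)
        linarith
    have h1 := gstep (n := lv i) (d := dd i) (k := k) (N := N i) hk (τ := τ i)
      (V := ∏ j ∈ Finset.range m, (1 - q (i + 1 + j))) hT (h.τ_pos i hi) hP0
      (by rw [← hlv]; exact h.small i hi) (h.bad i hi) (fun j hj => by
        have h2 := ih (i + 1) (by omega) (k * 2 ^ dd i + j)
          (by rw [hlv]; exact child_lt hk hj) (by rw [hlv]; exact (Dy_sub hj).trans hI)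
        rw [hlv] at h2
        exact h2) (h.succ i hi k hk hI)
    refine h1.trans (ENNReal.ofReal_le_ofReal ?_)
    rw [Finset.prod_range_succ']
    have e1 : ∏ j ∈ Finset.range m, (1 - q (i + (j + 1))) =
        ∏ j ∈ Finset.range m, (1 - q (i + 1 + j)) := by
      refine Finset.prod_congr rfl fun j _ => ?_
      rw [show i + (j + 1) = i + 1 + j by ring]
    rw [e1, add_zero, mul_assoc]
    refine mul_le_mul_of_nonneg_left ?_ hP0
    have := h.gain i hi
    linarith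

end Pool.Agent.K9h27.PK
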