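import Pool.Agent.K9h27.PK.Bar

/-!
The walls of a long thin tube.
-/

set_option autoImplicit false
set_option linter.unusedVariables false

namespace Pool.Agent.K9h27.PK

open H974 Finset H342P H984P H984N Pool.Agent.Y995.FS Pool.Agent.R965.CS

/-- A path to the right can be stopped at the first visit of a column. -/
theorem hit_col {G : Set Edg} {u w : Vtx} {x : ℤ} (hu : u.1 < x) (hw : x ≤ w.1)
    (h : Reach G u w) : ∃ y, Reach (G ∩ {e | e.1 < x}) u (x, y) := by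
  have key : ∀ w, Reach G u w → (w.1 < x ∧ Reach (G ∩ {e | e.1 < x}) u w) ∨
      ∃ y, Reach (G ∩ {e | e.1 < x}) u (x, y) := by
    intro w hw
    induction hw with
    | refl => exact Or.inl ⟨hu, Reach.refl _ _⟩
    | @tail w w' hw hs ih =>
      rcases ih with ⟨ih1, ih2⟩ | ih
      · obtain ⟨e, he, hc⟩ := hs
        obtain ⟨w1, w2⟩ := w
        obtain ⟨z1, z2⟩ := w'
        have hex : e.1 < x ∧ z1 ≤ x := by
          obtain ⟨x0, y0, _ | _⟩ := e
          · simp only [src_mk, tgt_false, Prod.mk.injEq] at hc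
            simp only at ih1 ⊢
            omega
          · simp only [src_mk, tgt_true, Prod.mk.injEq] at hc
            simp only at ih1 ⊢
            omega
        have h2 : Reach (G ∩ {e | e.1 < x}) u (z1, z2) :=
          ih2.trans (Adj.reach ⟨e, ⟨he, hex.1⟩, hc⟩)
        rcases lt_or_eq_of_le hex.2 with h3 | h3
        · exact Or.inl ⟨h3, h2⟩
        · right
          rw [h3] at h2
          exact ⟨z2, h2⟩
      · exact Or.inr ih
  rcases key w h with h1 | h1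
  · omega
  · exact h1

/-- long lower wall and the connection with the short one -/
def LgL (X Y : ℤ) (a m : ℕ) (F : Set Edg) : Prop :=
  (∃ y1 y2 : ℤ, Reach (F ∩ ↑(LRE (X + 40 * a) (X + 60 * m) (Y - 8 * a) (Y - 4 * a)))
    (X + 40 * a, y1) (X + 60 * m, y2)) ∧
  ∃ x1 x2 : ℤ, Reach (F ∩ ↑(TBE (X + 44 * a) (X + 48 * a) (Y - 8 * a) (Y - 4 * a)))
    (x1, Y - 8 * a) (x2, Y - 4 * a)

/-- long upper wall and the connection with the short one -/
def LgU (X Y : ℤ) (a m : ℕ) (F : Set Edg) : Prop :=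
  (∃ y1 y2 : ℤ, DReach (dE (LRE (X + 40 * a) (X + 60 * m) (Y + 4 * a) (Y + 8 * a)) \ F)
    (X + 40 * a, y1) (X + 60 * m, y2)) ∧
  ∃ x1 x2 : ℤ, DReach (dE (TBE (X + 44 * a) (X + 48 * a) (Y + 4 * a) (Y + 8 * a)) \ F)
    (x1, Y + 4 * a) (x2, Y + 8 * a)

/-- The part of the lower wall between two columns. -/
theorem wallL {F : Set Edg} {A y0 X Y X'' Y'' A' : ℤ} {T T'' a m : ℕ} (ha : 1 ≤ a)
    (hst'' : Strand F A y0 X'' Y'' T'') (hT : T ≤ T'')
    (hA : A + 60 * a ≤ X) (hL : BaseL A y0 X Y T a a F) (hLL : LgL X Y a m F)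
    (h1 : X + 60 * a < A') (h2 : A' < X'') (h3 : X'' ≤ X + 60 * m) :
    ∃ y1 y2 : ℤ, (Y - 8 * a ≤ y1 ∧ y1 ≤ Y - 4 * a) ∧ (Y - 8 * a ≤ y2 ∧ y2 ≤ Y - 4 * a) ∧
      Reach (F ∩ ↑(LRE A' X'' (Y - 8 * a) (Y - 4 * a))) (A', y1) (X'', y2) ∧ y2 ≤ Y'' := by
  have ha' : (1 : ℤ) ≤ a := by exact_mod_cast ha
  obtain ⟨⟨u1, u2, hr⟩, x1, x2, hc⟩ := hLL
  obtain ⟨z, hz⟩ := hit_col (x := X'') (by simp only; omega) (by simp only; omega) hr
  obtain ⟨z1, z2, hz1, hz2, h4, h5⟩ := sub_LR (a := A') (b := X'') (c := Y - 8 * a)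
    (d := Y - 4 * a) h2 (by
      rintro x y ⟨⟨-, h⟩, -⟩ _ _
      rw [Finset.mem_coe, mem_LRE_true] at h; omega) (by
      rintro x y ⟨⟨-, h⟩, -⟩ _ _
      rw [Finset.mem_coe, mem_LRE_false] at h; omega) hz (by simp only; omega) (by simp)
  refine ⟨z1, z2, hz1, hz2, h4.mono ?_, ?_⟩
  · rintro e ⟨⟨⟨h5, -⟩, -⟩, h6⟩
    exact ⟨h5, h6⟩
  obtain ⟨yb, yc, hyb, hyc, hR1, c, ⟨s, hs, rfl⟩, hR2⟩ := hL
  obtain ⟨hv, hf, hS⟩ := side_exists hst''
  obtain ⟨St, hStd⟩ : ∃ St : Finset Edg, St =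
    (LRE (X + 40 * a) (X + 60 * m) (Y - 8 * a) (Y - 4 * a)).filter (fun e => e.1 < X'') := ⟨_, rfl⟩
  obtain ⟨S, hSd⟩ : ∃ S : Finset Edg, S = (Bl X Y a ∪ St) := ⟨_, rfl⟩
  have mSt : ∀ e, e ∈ St ↔ e ∈ LRE (X + 40 * a) (X + 60 * m) (Y - 8 * a) (Y - 4 * a) ∧
      e.1 < X'' := by
    intro e
    rw [hStd, mem_filter]
  have hSA : (↑S : Set Edg) ⊆ Adm F A y0 X'' Y'' T'' := by
    intro e he
    rw [hSd, Finset.mem_coe, mem_union, mSt] at he
    have h3 : A ≤ e.1 ∧ e.1 < X'' := by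
      obtain ⟨x, y, _ | _⟩ := e
      · rw [Bl, mem_RE_false, mem_LRE_false] at he; simp only at he ⊢; omega
      · rw [Bl, mem_RE_true, mem_LRE_true] at he; simp only at he ⊢; omega
    exact ⟨Or.inl h3.1, fun h => by omega⟩
  have hTB : TBE (X + 44 * a) (X + 48 * a) (Y - 8 * a) (Y - 4 * a) ⊆ S := by
    rintro ⟨x, y, _ | _⟩ h
    · rw [mem_TBE_false] at h
      rw [hSd, mem_union, Bl, mem_RE_false]; omega
    · rw [mem_TBE_true] at h
      rw [hSd, mem_union, Bl, mem_RE_true]; omega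
  have hRE : RE (X + 44 * a) (X + 48 * a) (Y - 8 * a) (Y - 4 * a) ⊆ S := by
    rintro ⟨x, y, _ | _⟩ h
    · rw [mem_RE_false] at h
      rw [hSd, mem_union, Bl, mem_RE_false]; omega
    · rw [mem_RE_true] at h
      rw [hSd, mem_union, Bl, mem_RE_true]; omega
  have hLS : LSm X Y a a ⊆ S := by
    rintro ⟨x, y, _ | _⟩ h
    · rw [LSm, mem_LRE_false] at h
      rw [hSd, mem_union, Bl, mem_RE_false]; omega
    · rw [LSm, mem_LRE_true] at h
      rw [hSd, mem_union, Bl, mem_RE_true]; omega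
  have hw : Reach (F ∩ ↑St) (X + 40 * a, u1) (X'', z2) := by
    refine (h5.mono ?_).trans (h4.mono ?_)
    · rintro e ⟨⟨g1, g2⟩, g3⟩
      exact ⟨g1, by rw [Finset.mem_coe, mSt]; exact ⟨g2, g3⟩⟩
    · rintro e ⟨⟨⟨g1, g2⟩, g3⟩, -⟩
      exact ⟨g1, by rw [Finset.mem_coe, mSt]; exact ⟨g2, g3⟩⟩
  have e1 : Reach (F ∩ ↑S) (x1, Y - 8 * a) (X + 8 * a, yc) := by
    refine meet_gen (p := X + 44 * a) (q := X + 48 * a) (c := Y - 8 * a) (d := Y - 4 * a)
      (by omega) (by omega) hTB hLS hRE ?_ ?_ ?_ ?_ hc (by simp) (by simp) hR1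
      (by simp only; omega) (by simp only; omega)
    · intro x y h; rw [mem_TBE_false] at h; omega
    · intro x y h; rw [mem_TBE_true] at h; omega
    · intro x y h; rw [LSm, mem_LRE_true] at h; omega
    · intro x y h; rw [LSm, mem_LRE_false] at h; omega
  have e2 : Reach (F ∩ ↑S) (x1, Y - 8 * a) (X + 40 * a, u1) := by
    refine meet_gen (p := X + 44 * a) (q := X + 48 * a) (c := Y - 8 * a) (d := Y - 4 * a)
      (by omega) (by omega) hTB (Hh := St)
      (by rw [hSd]; exact subset_union_right) hRE ?_ ?_ ?_ ?_ hc (by simp) (by simp) hw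
      (by simp only; omega) (by simp only; omega)
    · intro x y h; rw [mem_TBE_false] at h; omega
    · intro x y h; rw [mem_TBE_true] at h; omega
    · intro x y h; rw [mSt, mem_LRE_true] at h; omega
    · intro x y h; rw [mSt, mem_LRE_false] at h; omega
  have e3 : Reach (F ∩ ↑S) (X + 40 * a, u1) (X'', z2) := hw.mono (by
    rintro e ⟨h3, h4⟩
    refine ⟨h3, ?_⟩
    rw [hSd, Finset.mem_coe, mem_union]
    exact Or.inr h4)
  have e4 : Reach (F ∩ ↑S) (X + 8 * a, yc) (orb F (st0 A y0) s).1 := hR2.mono (by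
    rintro e ⟨h3, h4⟩
    refine ⟨h3, ?_⟩
    rw [hSd, Finset.mem_coe, mem_union]
    exact Or.inl h4)
  have e5 := hv_reach hS hSA (((e4.symm.trans e1.symm).trans e2).trans e3)
  rw [(hS.strand s (hs.trans hT)).1] at e5
  exact (hS.rightv X'' z2 le_rfl).1 e5.symm

/-- The part of the upper wall between two columns. -/
theorem wallU {F : Set Edg} {A y0 X Y X'' Y'' A' : ℤ} {T T'' a m : ℕ} (ha : 1 ≤ a)
    (hst'' : Strand F A y0 X'' Y'' T'') (hT : T ≤ T'')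
    (hA : A + 60 * a ≤ X) (hU : BaseU A y0 X Y T a a F) (hUU : LgU X Y a m F)
    (h1 : X + 60 * a < A') (h2 : A' < X'') (h3 : X'' ≤ X + 60 * m) :
    ∃ y1 y2 : ℤ, (Y + 4 * a ≤ y1 ∧ y1 ≤ Y + 8 * a) ∧ (Y + 4 * a ≤ y2 ∧ y2 ≤ Y + 8 * a) ∧
      DReach (dE (LRE A' X'' (Y + 4 * a) (Y + 8 * a)) \ F) (A', y1) (X'', y2) ∧ Y'' ≤ y2 := by
  have ha' : (1 : ℤ) ≤ a := by exact_mod_cast ha
  obtain ⟨⟨u1, u2, hr⟩, x1, x2, hc⟩ := hUU
  obtain ⟨z, hz⟩ := hit_col (x := X'') (by simp only; omega) (by simp only; omega)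
    (hreach_iff.2 hr)
  obtain ⟨z1, z2, hz1, hz2, h4, h5⟩ := sub_LR (a := A') (b := X'') (c := Y + 4 * a)
    (d := Y + 8 * a) h2 (by
      rintro x y ⟨⟨-, h⟩, -⟩ _ _
      rw [Finset.mem_coe, mem_LRE_true] at h; omega) (by
      rintro x y ⟨⟨-, h⟩, -⟩ _ _
      rw [Finset.mem_coe, mem_LRE_false] at h; omega) hz (by simp only; omega) (by simp)
  refine ⟨z1, z2, hz1, hz2, hreach_iff.1 (h4.mono ?_), ?_⟩
  · rintro e ⟨⟨⟨h5, -⟩, -⟩, h6⟩
    exact ⟨h5, h6⟩
  obtain ⟨yb, yc, hyb, hyc, hR1, c, ⟨s, hs, rfl⟩, hR2⟩ := hU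
  obtain ⟨hv, hf, hS⟩ := side_exists hst''
  obtain ⟨St, hStd⟩ : ∃ St : Finset Edg, St =
    (LRE (X + 40 * a) (X + 60 * m) (Y + 4 * a) (Y + 8 * a)).filter (fun e => e.1 < X'') := ⟨_, rfl⟩
  obtain ⟨S, hSd⟩ : ∃ S : Finset Edg, S =
    (RE (X - 59 * a) (X + 59 * a) (Y - 59 * a) (Y + 59 * a) ∪ St) := ⟨_, rfl⟩
  have mSt : ∀ e, e ∈ St ↔ e ∈ LRE (X + 40 * a) (X + 60 * m) (Y + 4 * a) (Y + 8 * a) ∧
      e.1 < X'' := by
    intro e
    rw [hStd, mem_filter]
  have hSA : ∀ e ∈ dE S, e ∈ Adm F A y0 X'' Y'' T'' ∨ e = ((X'', Y'', false) : Edg) := by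
    intro e he
    obtain ⟨x, y, _ | _⟩ := e
    · rw [hSd] at he
      simp only [dE, Set.mem_ofPred_eq, dl_f, mem_union, mem_RE_true, mSt, mem_LRE_true] at he
      by_cases h3 : x = X'' ∧ y = Y''
      · right
        rw [h3.1, h3.2]
      · left
        refine ⟨Or.inl (by simp only; omega), fun h => ?_⟩
        simp only at h
        omega
    · rw [hSd] at he
      simp only [dE, Set.mem_ofPred_eq, dl_t, mem_union, mem_RE_false, mSt, mem_LRE_false] at he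
      left
      refine ⟨Or.inl (by simp only; omega), fun h => ?_⟩
      simp only at h
      omega
  have hTB : TBE (X + 44 * a) (X + 48 * a) (Y + 4 * a) (Y + 8 * a) ⊆ S := by
    rintro ⟨x, y, _ | _⟩ h
    · rw [mem_TBE_false] at h
      rw [hSd, mem_union, mem_RE_false]; omega
    · rw [mem_TBE_true] at h
      rw [hSd, mem_union, mem_RE_true]; omega
  have hRE : RE (X + 44 * a) (X + 48 * a) (Y + 4 * a) (Y + 8 * a) ⊆ S := by
    rintro ⟨x, y, _ | _⟩ h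
    · rw [mem_RE_false] at h
      rw [hSd, mem_union, mem_RE_false]; omega
    · rw [mem_RE_true] at h
      rw [hSd, mem_union, mem_RE_true]; omega
  have hLS : USm X Y a a ⊆ S := by
    rintro ⟨x, y, _ | _⟩ h
    · rw [USm, mem_LRE_false] at h
      rw [hSd, mem_union, mem_RE_false]; omega
    · rw [USm, mem_LRE_true] at h
      rw [hSd, mem_union, mem_RE_true]; omega
  have hw : DReach (dE St \ F) (X + 40 * a, u1) (X'', z2) := by
    refine hreach_iff.1 ((h5.mono ?_).trans (h4.mono ?_))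
    · rintro e ⟨⟨g1, g2⟩, g3⟩
      exact ⟨g1, by rw [Finset.mem_coe, mSt]; exact ⟨g2, g3⟩⟩
    · rintro e ⟨⟨⟨g1, g2⟩, g3⟩, -⟩
      exact ⟨g1, by rw [Finset.mem_coe, mSt]; exact ⟨g2, g3⟩⟩
  have e1 : DReach (dE S \ F) (x1, Y + 4 * a) (X + 8 * a, yc) := by
    refine dmeet_gen (p := X + 44 * a) (q := X + 48 * a) (c := Y + 4 * a) (d := Y + 8 * a)
      (by omega) (by omega) hTB hLS hRE ?_ ?_ ?_ ?_ hc (by simp) (by simp) hR1
      (by simp only; omega) (by simp only; omega)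
    · intro x y h; rw [mem_TBE_false] at h; omega
    · intro x y h; rw [mem_TBE_true] at h; omega
    · intro x y h; rw [USm, mem_LRE_true] at h; omega
    · intro x y h; rw [USm, mem_LRE_false] at h; omega
  have e2 : DReach (dE S \ F) (x1, Y + 4 * a) (X + 40 * a, u1) := by
    refine dmeet_gen (p := X + 44 * a) (q := X + 48 * a) (c := Y + 4 * a) (d := Y + 8 * a)
      (by omega) (by omega) hTB (Hh := St)
      (by rw [hSd]; exact subset_union_right) hRE ?_ ?_ ?_ ?_ hc (by simp) (by simp) hw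
      (by simp only; omega) (by simp only; omega)
    · intro x y h; rw [mem_TBE_false] at h; omega
    · intro x y h; rw [mem_TBE_true] at h; omega
    · intro x y h; rw [mSt, mem_LRE_true] at h; omega
    · intro x y h; rw [mSt, mem_LRE_false] at h; omega
  have e3 : DReach (dE S \ F) (X + 40 * a, u1) (X'', z2) := hw.mono (by
    rintro e ⟨h3, h4⟩
    refine ⟨?_, h4⟩
    rw [hSd]
    simp only [dE, Set.mem_ofPred_eq, mem_union] at h3 ⊢
    exact Or.inr h3)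
  obtain ⟨W, hW⟩ : ∃ W : Set Edg, W = dE S ∪ ↑(Bl X Y a) := ⟨_, rfl⟩
  have hWA : ∀ e ∈ W, e ∈ Adm F A y0 X'' Y'' T'' ∨ e = ((X'', Y'', false) : Edg) := by
    rw [hW]
    rintro e (he | he)
    · exact hSA e he
    have h3 : A ≤ e.1 ∧ e.1 < X'' := by
      obtain ⟨x, y, _ | _⟩ := e
      · rw [Finset.mem_coe, Bl, mem_RE_false] at he; simp only; omega
      · rw [Finset.mem_coe, Bl, mem_RE_true] at he; simp only; omega
    exact Or.inl ⟨Or.inl h3.1, fun h => by omega⟩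
  have e4 : DReach (W \ F) (X + 8 * a, yc) (face (orb F (st0 A y0) s)) := hR2.mono (by
    rintro e ⟨h3, h4⟩
    exact ⟨by rw [hW]; exact Or.inr h3, h4⟩)
  have e6 : DReach (W \ F) (X + 8 * a, yc) (X'', z2) := ((e1.symm.trans e2).trans e3).mono (by
    rintro e ⟨h3, h4⟩
    exact ⟨by rw [hW]; exact Or.inl h3, h4⟩)
  have e5 := hf_reach' hS hst'' hWA (e4.symm.trans e6)
  rw [(hS.strand s (hs.trans hT)).2] at e5
  exact (hS.rightf X'' z2 le_rfl).1 e5.symm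

end Pool.Agent.K9h27.PK
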